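import Pool.Agent.Bow.Bridge

/-! Assembly of MP_b63b1f_co from the module statements. -/

namespace Pool.Agent.Bow

open Finset
open scoped Classical

lemma XX_nonneg {V : Type} [Fintype V] (G : SimpleGraph V) : 0 ≤ XX G :=
  Finset.sum_nonneg fun u _ => Finset.sum_nonneg fun v _ => Finset.sum_nonneg fun w _ =>
    mul_nonneg (mul_nonneg (ad_nonneg _ _ _) (ad_nonneg _ _ _)) (ad_nonneg _ _ _)

lemma iso_of_le (hA : S_perron) (hB : S_trace) (hC : S_theta) (hF : S_tupX) (hG : S_cut)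
    (hH : S_low) (hJ : S_spec) (hL : S_bow) (hM : S_num) (hN : S_fin)
    (n q : ℕ) (G : SimpleGraph (Fin n)) (w : ℝ) (hw : w ^ 2 = n) (hwb : (10 : ℝ) ^ 15 ≤ w)
    (hq : 2 ≤ q) (hq' : 4 * q ≤ n + 1)
    (hlam : lam (K ((n + 1) / 2) (n / 2) q) ≤ lam G)
    (ht : tup G ≤ 4 * (q : ℝ) * (q - 1) * (n / 2 : ℕ)) :
    Nonempty (G ≃g K ((n + 1) / 2) (n / 2) q) := by
  have hw1 : (1 : ℝ) ≤ w := le_trans (by norm_num) hwb
  have hnbig : (10 : ℝ) ^ 30 ≤ n := by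
    rw [← hw]
    calc (10 : ℝ) ^ 30 = (10 ^ 15) ^ 2 := by norm_num
      _ ≤ w ^ 2 := by gcongr
  have hn0 : (0 : ℝ) < n := by linarith [show (0 : ℝ) < 10 ^ 30 by norm_num]
  have hn4 : 4 ≤ n := by
    have : (4 : ℝ) ≤ n := le_trans (by norm_num) hnbig
    exact_mod_cast this
  set s := (n + 1) / 2 with hs
  set t := n / 2 with htt
  have ht2 : 2 ≤ t := by omega
  have hts : t ≤ s := by omega
  have hst : s ≤ t + 1 := by omega
  have h2q : 2 * q ≤ s := by omega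
  obtain ⟨θ, y, h1θ, hθ2, hθt, hθe, hy0, hye⟩ := hC s t q ht2 hts hst h2q
  have : Nonempty (Fin s ⊕ Fin t) := ⟨Sum.inr ⟨0, by omega⟩⟩
  have : Nonempty (Fin n) := ⟨⟨0, by omega⟩⟩
  have hθK : θ ≤ lam (K s t q) := (hA (Fin s ⊕ Fin t) (K s t q)).2.2.2 θ y hy0 hye
  obtain ⟨hl0, ⟨x, hx0, hx1, hxe⟩, habs, _⟩ := hA (Fin n) G
  set l := lam G with hl
  have hθl : θ ≤ l := le_trans hθK hlam
  -- θ^2 ≥ ts + 2q
  have htR : (2 : ℝ) ≤ t := by exact_mod_cast ht2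
  have hθ2' : (t : ℝ) * s + 2 * q ≤ θ ^ 2 := by
    have hq0 : (0 : ℝ) ≤ q := Nat.cast_nonneg _
    have h1 : (θ ^ 2 - (t : ℝ) * s) * (θ - 1) = 2 * q * t := by linarith
    have h2 : 0 ≤ θ ^ 2 - (t : ℝ) * s := by linarith
    have h3 : 2 * (q : ℝ) * t ≤ (θ ^ 2 - (t : ℝ) * s) * t := by
      rw [← h1]
      exact mul_le_mul_of_nonneg_left (by linarith) h2
    have h4 : 2 * (q : ℝ) ≤ θ ^ 2 - (t : ℝ) * s := by
      have ht0 : (0 : ℝ) < t := by linarith
      exact le_of_mul_le_mul_right h3 ht0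
    linarith
  have hl2 : (t : ℝ) * s + 2 * q ≤ l ^ 2 := by
    have h1 : θ ^ 2 ≤ l ^ 2 := by
      apply pow_le_pow_left₀ (by linarith) hθl
    linarith
  have hqR : (2 : ℝ) ≤ q := by exact_mod_cast hq
  have h4ts : (n : ℝ) ^ 2 - 1 ≤ 4 * ((t : ℝ) * s) := by
    rcases Nat.mod_two_eq_zero_or_one n with h | h
    · obtain ⟨m, hm⟩ : ∃ m, n = 2 * m := ⟨n / 2, by omega⟩
      have h1 : t = m := by omega
      have h2 : s = m := by omega
      rw [h1, h2, hm]; push_cast; nlinarith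
    · obtain ⟨m, hm⟩ : ∃ m, n = 2 * m + 1 := ⟨n / 2, by omega⟩
      have h1 : t = m := by omega
      have h2 : s = m + 1 := by omega
      rw [h1, h2, hm]; push_cast; nlinarith
  have hlN : (n : ℝ) / 2 ≤ l := by
    have h1 : ((n : ℝ) / 2) ^ 2 ≤ l ^ 2 := by nlinarith
    exact le_of_sq_le_sq h1 hl0
  -- tup ≤ 0.126 n^3
  have htN : (t : ℝ) ≤ n / 2 := by
    have : (2 * t : ℕ) ≤ n := by omega
    have : (2 : ℝ) * t ≤ n := by exact_mod_cast this
    linarith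
  have hqN : (q : ℝ) ≤ (n + 1) / 4 := by
    have : (4 : ℝ) * q ≤ n + 1 := by exact_mod_cast hq'
    linarith
  have hn1 : (1000 : ℝ) ≤ n := le_trans (by norm_num) hnbig
  have htup : tup G ≤ 0.126 * (n : ℝ) ^ 3 := by
    refine le_trans ht ?_
    have h1 : 4 * (q : ℝ) * (q - 1) ≤ (n : ℝ) * (n + 1) / 4 := by nlinarith
    have h2 : 0 ≤ 4 * (q : ℝ) * (q - 1) := by nlinarith
    calc 4 * (q : ℝ) * (q - 1) * t ≤ ((n : ℝ) * (n + 1) / 4) * (n / 2) := by
          apply mul_le_mul h1 htN (by positivity) (by positivity)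
      _ ≤ 0.126 * (n : ℝ) ^ 3 := by nlinarith [sq_nonneg (n : ℝ), mul_pos hn0 hn0]
  -- XX ≤ 5 n^2
  have hXX0 := XX_nonneg G
  have hXX : XX G ≤ 5 * (n : ℝ) ^ 2 := by
    have h1 := hF (Fin n) G
    rw [Fintype.card_fin] at h1
    by_contra hcon
    push Not at hcon
    have h2 : (n : ℝ) * tup G ≤ 0.126 * (n : ℝ) ^ 4 := by
      calc (n : ℝ) * tup G ≤ n * (0.126 * (n : ℝ) ^ 3) := mul_le_mul_of_nonneg_left htup hn0.le
        _ = _ := by ring
    have h3 : 0 < (n : ℝ) ^ 2 := by positivity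
    have h4 : (XX G - 4 * n ^ 2) * XX G ≤ 0.126 * (n : ℝ) ^ 4 := by nlinarith
    have h5 : (n : ℝ) ^ 2 * (5 * n ^ 2) ≤ (XX G - 4 * n ^ 2) * XX G :=
      mul_le_mul (by linarith) hcon.le (by positivity) (by linarith)
    nlinarith [pow_pos hn0 4]
  have htr := hB (Fin n) G l x hl0 hx1 hxe habs
  obtain ⟨S, hI, hopt, hRR, hD⟩ := hG (Fin n) G n w l (by rw [Fintype.card_fin]) hw hwb hlN htr hXX
  have hlow := hH (Fin n) G S n w (by rw [Fintype.card_fin]) hw hwb hopt hRR htup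
  have hc : Cfg G S n w l :=
    { hN := by rw [Fintype.card_fin]
      hw := hw
      hwbig := hwb
      hl := hlN
      hI := hI
      hopt := hopt
      hRR := hRR
      hD := hD
      hlow := hlow }
  have hxp : ∃ v, 0 < x v := by
    by_contra hcon
    push Not at hcon
    have h0 : ∀ v, x v = 0 := fun v => le_antisymm (hcon v) (hx0 v)
    simp [h0] at hx1
  obtain ⟨e1, e2, e3, e4⟩ := bridge hJ hL hM n q G S w l x hc hq hq' hx0 hxp hxe hl2 ht
  exact hN n q G S w l θ x hc hq hq' hx0 hxp hxe e1 e2 e3 e4 h1θ hθ2 hθe hθl ht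

theorem final_of (hA : S_perron) (hB : S_trace) (hC : S_theta) (hDt : S_tup) (hE : S_tupK)
    (hE' : S_tupIso) (hF : S_tupX) (hG : S_cut)
    (hH : S_low) (hJ : S_spec) (hL : S_bow) (hM : S_num) (hN : S_fin) : Final := by
  refine ⟨10 ^ 30, ?_⟩
  intro n hn q hq hq' G hlam
  have hn' : (10 : ℝ) ^ 30 ≤ n := by exact_mod_cast hn
  have hn0 : (0 : ℝ) ≤ n := by positivity
  have hqq : 4 * q ≤ n + 1 := by omega
  have h2q : 2 * q ≤ (n + 1) / 2 := by omega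
  have hw : (Real.sqrt n) ^ 2 = n := Real.sq_sqrt hn0
  have hwb : (10 : ℝ) ^ 15 ≤ Real.sqrt n := by
    apply Real.le_sqrt_of_sq_le
    refine le_trans (le_of_eq ?_) hn'
    norm_num
  have hch : 8 * ((q.choose 2 * (n / 2) : ℕ) : ℝ) = 4 * (q : ℝ) * (q - 1) * (n / 2 : ℕ) := by
    push_cast
    rw [Nat.cast_choose_two]
    ring
  have htau := hDt (Fin n) G
  have hiso : Nonempty (G ≃g K ((n + 1) / 2) (n / 2) q) →
      tau G = q.choose 2 * (n / 2) := by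
    intro h
    have h1 := hE' _ _ G _ h
    have h2 := hE ((n + 1) / 2) (n / 2) q h2q
    rw [h1, h2, ← hch] at htau
    have h3 : (tau G : ℝ) = ((q.choose 2 * (n / 2) : ℕ) : ℝ) := by linarith
    exact_mod_cast h3
  have hmain : tau G ≤ q.choose 2 * (n / 2) → Nonempty (G ≃g K ((n + 1) / 2) (n / 2) q) := by
    intro h
    refine iso_of_le hA hB hC hF hG hH hJ hL hM hN n q G (Real.sqrt n) hw hwb hq hqq hlam ?_
    rw [← htau, ← hch]
    have h3 : (tau G : ℝ) ≤ ((q.choose 2 * (n / 2) : ℕ) : ℝ) := by exact_mod_cast h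
    linarith
  refine ⟨?_, ?_, hiso⟩
  · by_contra hcon
    push Not at hcon
    have := hiso (hmain hcon.le)
    omega
  · intro h
    exact hmain h.le

end Pool.Agent.Bow
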