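import Mathlib

/-!
Base definitions for MP_b63b1f_co (bowtie spectral supersaturation).
Everything is written with real valued sums over vertices.
-/

namespace Pool.Agent.Bow

open Finset
open scoped Classical

noncomputable section

/-- The bowtie: triangles 0,1,2 and 0,3,4 sharing the vertex 0. -/
def bowtie : SimpleGraph (Fin 5) :=
  SimpleGraph.fromRel (fun a b : Fin 5 =>
    (a = 0 ∧ b ≠ 0) ∨ (a = 1 ∧ b = 2) ∨ (a = 3 ∧ b = 4))

/-- Largest eigenvalue of the adjacency matrix. -/
def lam {V : Type*} [Fintype V] (G : SimpleGraph V) : ℝ :=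
  sSup {μ : ℝ | ∃ x : V → ℝ, x ≠ 0 ∧ (G.adjMatrix ℝ).mulVec x = μ • x}

/-- Number of subgraphs isomorphic to the bowtie. -/
def tau {V : Type*} [Fintype V] (G : SimpleGraph V) : ℕ := G.copyCount bowtie

/-- `K^q_{s,t}`: complete bipartite graph with parts `Fin s`, `Fin t` and the edges
`{2k, 2k+1}`, `k < q`, inside `Fin s`. -/
def K (s t q : ℕ) : SimpleGraph (Fin s ⊕ Fin t) :=
  completeBipartiteGraph (Fin s) (Fin t) ⊔
    SimpleGraph.fromRel (fun u v => ∃ i j : Fin s, u = Sum.inl i ∧ v = Sum.inl j ∧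
      ∃ k < q, i.1 = 2 * k ∧ j.1 = 2 * k + 1)

/-! ### real valued bookkeeping -/

variable {V : Type*} [Fintype V]

/-- adjacency indicator -/
def ad (G : SimpleGraph V) (u v : V) : ℝ := if G.Adj u v then 1 else 0

/-- same side indicator -/
def sm (S : Finset V) (u v : V) : ℝ := if (u ∈ S ↔ v ∈ S) then 1 else 0

/-- other side indicator -/
def op (S : Finset V) (u v : V) : ℝ := if (u ∈ S ↔ v ∈ S) then 0 else 1

/-- number of ordered pairs of adjacent vertices -/
def YY (G : SimpleGraph V) : ℝ := ∑ u, ∑ v, ad G u v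

/-- number of ordered triangles -/
def XX (G : SimpleGraph V) : ℝ := ∑ u, ∑ v, ∑ w, ad G u v * ad G v w * ad G u w

/-- disjointness indicator of the pairs `{a,b}`, `{c,d}` -/
def dj (a b c d : V) : ℝ := if (a ≠ c ∧ a ≠ d ∧ b ≠ c ∧ b ≠ d) then 1 else 0

/-- number of labelled bowties: centre `v`, triangles `v a b` and `v c d`. -/
def tup (G : SimpleGraph V) : ℝ :=
  ∑ v, ∑ a, ∑ b, ∑ c, ∑ d,
    (ad G v a * ad G v b * ad G a b) * (ad G v c * ad G v d * ad G c d) * dj a b c d

/-- degree inside the own part -/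
def din (G : SimpleGraph V) (S : Finset V) (v : V) : ℝ := ∑ u, sm S v u * ad G v u

/-- degree to the other part -/
def dout (G : SimpleGraph V) (S : Finset V) (v : V) : ℝ := ∑ u, op S v u * ad G v u

/-- number of non-neighbours in the other part -/
def rr (G : SimpleGraph V) (S : Finset V) (v : V) : ℝ := ∑ u, op S v u * (1 - ad G v u)

/-- total number of missing ordered cross pairs -/
def RR (G : SimpleGraph V) (S : Finset V) : ℝ := ∑ v, rr G S v

/-- sizes of the parts -/
def nA (S : Finset V) : ℝ := (S.card : ℝ)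
def nB (S : Finset V) : ℝ := ((Finset.univ \ S).card : ℝ)

/-- bad vertices: at least `N/256` missing neighbours -/
def bad (G : SimpleGraph V) (S : Finset V) (v : V) : Prop := (Fintype.card V : ℝ) / 256 ≤ rr G S v

/-- good inside edges: both ends in the same part and both not bad -/
def F (G : SimpleGraph V) (S : Finset V) (u v : V) : ℝ :=
  if ((u ∈ S ↔ v ∈ S) ∧ G.Adj u v ∧ ¬ bad G S u ∧ ¬ bad G S v) then 1 else 0

/-- good inside degree -/
def gg (G : SimpleGraph V) (S : Finset V) (v : V) : ℝ := ∑ u, F G S v u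

def GA (G : SimpleGraph V) (S : Finset V) : ℝ := ∑ v ∈ S, gg G S v
def GB (G : SimpleGraph V) (S : Finset V) : ℝ := ∑ v ∈ (Finset.univ \ S), gg G S v

def P2 (G : SimpleGraph V) (S : Finset V) : ℝ := ∑ v, gg G S v * (gg G S v - 1)

/-- The structural information obtained from the max cut (module Cut and LowIn). -/
structure Cfg (G : SimpleGraph V) (S : Finset V) (N w l : ℝ) : Prop where
  hN : (Fintype.card V : ℝ) = N
  hw : w ^ 2 = N
  hwbig : (10 : ℝ) ^ 15 ≤ w
  hl : N / 2 ≤ l
  hI : ∑ v, din G S v ≤ 21 * N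
  hopt : ∀ v, din G S v ≤ dout G S v
  hRR : RR G S ≤ 32 * N
  hD : |nA S - nB S| ≤ 8 * w
  hlow : ∀ v, N / 16 ≤ dout G S v → din G S v ≤ 4 * w

end

end Pool.Agent.Bow
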