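import Pool.Agent.Bow.Stmts

/-!
Module L: a lower bound for the number of labelled bowties.
-/

set_option autoImplicit false

namespace Pool.Agent.Bow

open Finset
open scoped Classical

namespace BowCountAux

section gen

variable {V : Type} [Fintype V]

theorem dj_nonneg (a b c d : V) : 0 ≤ dj a b c d := by
  unfold dj; split_ifs <;> norm_num

theorem dj_le_one (a b c d : V) : dj a b c d ≤ 1 := by
  unfold dj; split_ifs <;> norm_num

theorem dj_swap (a b c d : V) : dj b a c d = dj a b c d := by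
  unfold dj
  congr 1
  apply propext
  tauto

theorem dj_comm (a b c d : V) : dj c d a b = dj a b c d := by
  unfold dj
  congr 1
  apply propext
  constructor
  · rintro ⟨h1, h2, h3, h4⟩; exact ⟨h1.symm, h3.symm, h2.symm, h4.symm⟩
  · rintro ⟨h1, h2, h3, h4⟩; exact ⟨h1.symm, h3.symm, h2.symm, h4.symm⟩

/-- the quadruple sum -/
noncomputable def Q (f g : V → V → ℝ) : ℝ :=
  ∑ a, ∑ b, ∑ c, ∑ d, f a b * g c d * dj a b c d

theorem Q_comm (f g : V → V → ℝ) : Q f g = Q g f := by
  have h : ∀ f g : V → V → ℝ, Q f g = ∑ p : V × V, ∑ p' : V × V,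
      f p.1 p.2 * g p'.1 p'.2 * dj p.1 p.2 p'.1 p'.2 := by
    intro f g
    unfold Q
    simp only [Fintype.sum_prod_type]
  rw [h, h, Finset.sum_comm]
  refine Finset.sum_congr rfl fun p _ => Finset.sum_congr rfl fun p' _ => ?_
  rw [dj_comm]; ring

theorem Q_tr (f g : V → V → ℝ) : Q (fun a b => f b a) g = Q f g := by
  unfold Q
  rw [Finset.sum_comm]
  refine Finset.sum_congr rfl fun a _ => Finset.sum_congr rfl fun b _ =>
    Finset.sum_congr rfl fun c _ => Finset.sum_congr rfl fun d _ => ?_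
  rw [dj_swap]

theorem Q_add (f f' g : V → V → ℝ) : Q (fun a b => f a b + f' a b) g = Q f g + Q f' g := by
  unfold Q
  simp only [← Finset.sum_add_distrib]
  refine Finset.sum_congr rfl fun a _ => Finset.sum_congr rfl fun b _ =>
    Finset.sum_congr rfl fun c _ => Finset.sum_congr rfl fun d _ => ?_
  ring

theorem Q_expand (o m : V → V → ℝ) :
    Q (fun a b => o a b + m a b + m b a) (fun a b => o a b + m a b + m b a) =
      Q o o + 4 * Q o m + 4 * Q m m := by
  have h1 : ∀ g : V → V → ℝ, Q (fun a b => o a b + m a b + m b a) g = Q o g + 2 * Q m g := by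
    intro g
    rw [Q_add (fun a b => o a b + m a b) (fun a b => m b a) g, Q_add, Q_tr m g]
    ring
  rw [h1, Q_comm o, Q_comm m, h1, h1, Q_comm m o]
  ring

/-- Kronecker -/
noncomputable def de (a b : V) : ℝ := if a = b then 1 else 0

theorem sum_de (a : V) (f : V → ℝ) : ∑ c, de a c * f c = f a := by
  unfold de
  simp

theorem Q_self (f : V → V → ℝ) (hs : ∀ a b, f a b = f b a) (h0 : ∀ a, f a a = 0)
    (h1 : ∀ a b, f a b = 0 ∨ f a b = 1) :
    Q f f = (∑ a, ∑ b, f a b) ^ 2 - 4 * ∑ a, (∑ b, f a b) ^ 2 + 2 * ∑ a, ∑ b, f a b := by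
  have e : ∀ a b c d, f a b * f c d * dj a b c d =
      f a b * f c d - de a c * (f a b * f c d) - de a d * (f a b * f c d)
        - de b c * (f a b * f c d) - de b d * (f a b * f c d)
        + de a c * (de b d * (f a b * f c d)) + de b c * (de a d * (f a b * f c d)) := by
    intro a b c d
    by_cases hab : a = b
    · subst hab; rw [h0]; ring
    by_cases hcd : c = d
    · subst hcd; rw [h0]; ring
    unfold de dj
    by_cases k1 : a = c
    · have k2 : a ≠ d := fun h => hcd (k1.symm.trans h)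
      have k3 : b ≠ c := fun h => hab (k1.trans h.symm)
      by_cases k4 : b = d <;> simp [k1, k3, k4] <;> simp_all
    · by_cases k2 : a = d
      · have k4 : b ≠ d := fun h => hab (k2.trans h.symm)
        by_cases k3 : b = c <;> simp_all
      · by_cases k3 : b = c <;> by_cases k4 : b = d <;> simp_all
  have s1 : ∑ a, ∑ b, ∑ c, ∑ d, f a b * f c d = (∑ a, ∑ b, f a b) ^ 2 := by
    rw [sq, Finset.sum_mul]
    refine Finset.sum_congr rfl fun a _ => ?_
    rw [Finset.sum_mul]
    refine Finset.sum_congr rfl fun b _ => ?_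
    rw [Finset.mul_sum]
    refine Finset.sum_congr rfl fun c _ => ?_
    rw [Finset.mul_sum]
  have hcol : ∀ b, ∑ a, f a b = ∑ a, f b a := fun b => Finset.sum_congr rfl fun a _ => hs a b
  have s2 : ∑ a, ∑ b, ∑ c, ∑ d, de a c * (f a b * f c d) = ∑ a, (∑ b, f a b) ^ 2 := by
    refine Finset.sum_congr rfl fun a _ => ?_
    rw [sq, Finset.sum_mul]
    refine Finset.sum_congr rfl fun b _ => ?_
    simp only [← Finset.mul_sum]
    rw [sum_de a fun c => f a b * ∑ d, f c d]
  have s3 : ∑ a, ∑ b, ∑ c, ∑ d, de a d * (f a b * f c d) = ∑ a, (∑ b, f a b) ^ 2 := by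
    refine Finset.sum_congr rfl fun a _ => ?_
    rw [sq, Finset.sum_mul]
    refine Finset.sum_congr rfl fun b _ => ?_
    have : ∀ c, ∑ d, de a d * (f a b * f c d) = f a b * f c a := fun c =>
      sum_de a fun d => f a b * f c d
    simp only [this]
    rw [← Finset.mul_sum, hcol]
  have s4 : ∑ a, ∑ b, ∑ c, ∑ d, de b c * (f a b * f c d) = ∑ a, (∑ b, f a b) ^ 2 := by
    rw [Finset.sum_comm]
    refine Finset.sum_congr rfl fun b _ => ?_
    rw [sq, ← hcol b, Finset.sum_mul, hcol b]
    refine Finset.sum_congr rfl fun a _ => ?_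
    simp only [← Finset.mul_sum]
    rw [sum_de b fun c => f a b * ∑ d, f c d]
  have s5 : ∑ a, ∑ b, ∑ c, ∑ d, de b d * (f a b * f c d) = ∑ a, (∑ b, f a b) ^ 2 := by
    rw [Finset.sum_comm]
    refine Finset.sum_congr rfl fun b _ => ?_
    rw [sq, ← hcol b, Finset.sum_mul]
    refine Finset.sum_congr rfl fun a _ => ?_
    have : ∀ c, ∑ d, de b d * (f a b * f c d) = f a b * f c b := fun c =>
      sum_de b fun d => f a b * f c d
    simp only [this]
    rw [← Finset.mul_sum]
  have hsq : ∀ a b, f a b * f a b = f a b := by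
    intro a b
    rcases h1 a b with h | h <;> rw [h] <;> ring
  have s6 : ∑ a, ∑ b, ∑ c, ∑ d, de a c * (de b d * (f a b * f c d)) = ∑ a, ∑ b, f a b := by
    refine Finset.sum_congr rfl fun a _ => Finset.sum_congr rfl fun b _ => ?_
    have : ∀ c, ∑ d, de a c * (de b d * (f a b * f c d)) = de a c * (f a b * f c b) := by
      intro c
      rw [← Finset.mul_sum, sum_de b fun d => f a b * f c d]
    simp only [this]
    rw [sum_de a fun c => f a b * f c b, hsq]
  have s7 : ∑ a, ∑ b, ∑ c, ∑ d, de b c * (de a d * (f a b * f c d)) = ∑ a, ∑ b, f a b := by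
    refine Finset.sum_congr rfl fun a _ => Finset.sum_congr rfl fun b _ => ?_
    have : ∀ c, ∑ d, de b c * (de a d * (f a b * f c d)) = de b c * (f a b * f c a) := by
      intro c
      rw [← Finset.mul_sum, sum_de a fun d => f a b * f c d]
    simp only [this]
    rw [sum_de b fun c => f a b * f c a, hs b a, hsq]
  unfold Q
  simp only [e, Finset.sum_add_distrib, Finset.sum_sub_distrib]
  rw [s1, s2, s3, s4, s5, s6, s7]
  ring

theorem Q_nonneg (f g : V → V → ℝ) (hf : ∀ a b, 0 ≤ f a b) (hg : ∀ a b, 0 ≤ g a b) :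
    0 ≤ Q f g := by
  unfold Q
  exact Finset.sum_nonneg fun a _ => Finset.sum_nonneg fun b _ => Finset.sum_nonneg fun c _ =>
    Finset.sum_nonneg fun d _ => mul_nonneg (mul_nonneg (hf a b) (hg c d)) (dj_nonneg _ _ _ _)

theorem Q_weight (f : V → V → ℝ) (hs : ∀ a b, f a b = f b a) (hf : ∀ a b, 0 ≤ f a b)
    (y : V → ℝ) (hy : ∀ a, y a = 0 ∨ y a = 1) :
    Q f f - 4 * (∑ a, ∑ b, f a b) * (∑ a, (∑ b, f a b) * (1 - y a)) ≤
      Q (fun a b => f a b * (y a * y b)) (fun a b => f a b * (y a * y b)) := by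
  have e : ∀ a b c d, f a b * f c d * dj a b c d - f a b * (1 - y a) * f c d
      - f a b * (1 - y b) * f c d - f a b * (f c d * (1 - y c)) - f a b * (f c d * (1 - y d)) ≤
      f a b * (y a * y b) * (f c d * (y c * y d)) * dj a b c d := by
    intro a b c d
    have k : 0 ≤ f a b * f c d := mul_nonneg (hf a b) (hf c d)
    have k1 := dj_nonneg a b c d
    have k2 := dj_le_one a b c d
    have key : dj a b c d - (1 - y a) - (1 - y b) - (1 - y c) - (1 - y d) ≤
        y a * y b * (y c * y d) * dj a b c d := by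
      rcases hy a with h | h <;> rcases hy b with h' | h' <;> rcases hy c with h'' | h'' <;>
        rcases hy d with h''' | h''' <;> rw [h, h', h'', h'''] <;> linarith
    calc _ = f a b * f c d * (dj a b c d - (1 - y a) - (1 - y b) - (1 - y c) - (1 - y d)) := by
          ring
      _ ≤ f a b * f c d * (y a * y b * (y c * y d) * dj a b c d) :=
          mul_le_mul_of_nonneg_left key k
      _ = _ := by ring
  have hcol : ∀ b, ∑ a, f a b = ∑ a, f b a := fun b => Finset.sum_congr rfl fun a _ => hs a b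
  have t1 : ∑ a, ∑ b, ∑ c, ∑ d, f a b * (1 - y a) * f c d =
      (∑ a, ∑ b, f a b) * (∑ a, (∑ b, f a b) * (1 - y a)) := by
    rw [mul_comm, Finset.sum_mul]
    refine Finset.sum_congr rfl fun a _ => ?_
    rw [Finset.sum_mul, Finset.sum_mul]
    refine Finset.sum_congr rfl fun b _ => ?_
    simp only [← Finset.mul_sum]
  have t2 : ∑ a, ∑ b, ∑ c, ∑ d, f a b * (1 - y b) * f c d =
      (∑ a, ∑ b, f a b) * (∑ a, (∑ b, f a b) * (1 - y a)) := by
    rw [Finset.sum_comm, mul_comm, Finset.sum_mul]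
    refine Finset.sum_congr rfl fun b _ => ?_
    rw [← hcol b, Finset.sum_mul, Finset.sum_mul]
    refine Finset.sum_congr rfl fun a _ => ?_
    simp only [← Finset.mul_sum]
  have t3 : ∑ a, ∑ b, ∑ c, ∑ d, f a b * (f c d * (1 - y c)) =
      (∑ a, ∑ b, f a b) * (∑ a, (∑ b, f a b) * (1 - y a)) := by
    rw [Finset.sum_mul]
    refine Finset.sum_congr rfl fun a _ => ?_
    rw [Finset.sum_mul]
    refine Finset.sum_congr rfl fun b _ => ?_
    simp only [← Finset.mul_sum]
    congr 1
    refine Finset.sum_congr rfl fun c _ => ?_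
    rw [Finset.sum_mul]
  have t4 : ∑ a, ∑ b, ∑ c, ∑ d, f a b * (f c d * (1 - y d)) =
      (∑ a, ∑ b, f a b) * (∑ a, (∑ b, f a b) * (1 - y a)) := by
    rw [Finset.sum_mul]
    refine Finset.sum_congr rfl fun a _ => ?_
    rw [Finset.sum_mul]
    refine Finset.sum_congr rfl fun b _ => ?_
    simp only [← Finset.mul_sum]
    congr 1
    rw [Finset.sum_comm]
    refine Finset.sum_congr rfl fun c _ => ?_
    rw [← hcol c, Finset.sum_mul]
  have e2 := Finset.sum_le_sum fun a (_ : a ∈ (Finset.univ : Finset V)) =>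
    Finset.sum_le_sum fun b (_ : b ∈ (Finset.univ : Finset V)) =>
    Finset.sum_le_sum fun c (_ : c ∈ (Finset.univ : Finset V)) =>
    Finset.sum_le_sum fun d (_ : d ∈ (Finset.univ : Finset V)) => e a b c d
  simp only [Finset.sum_sub_distrib] at e2
  rw [t1, t2, t3, t4] at e2
  unfold Q
  linarith

theorem lin_weight (f : V → V → ℝ) (hs : ∀ a b, f a b = f b a) (hf : ∀ a b, 0 ≤ f a b)
    (y : V → ℝ) (hy : ∀ a, y a = 0 ∨ y a = 1) :
    (∑ a, ∑ b, f a b) - 2 * (∑ a, (∑ b, f a b) * (1 - y a)) ≤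
      ∑ a, ∑ b, f a b * (y a * y b) := by
  have e : ∀ a b, f a b - f a b * (1 - y a) - f a b * (1 - y b) ≤ f a b * (y a * y b) := by
    intro a b
    have k := hf a b
    have key : 1 - (1 - y a) - (1 - y b) ≤ y a * y b := by
      rcases hy a with h | h <;> rcases hy b with h' | h' <;> rw [h, h'] <;> norm_num
    nlinarith [mul_le_mul_of_nonneg_left key k]
  have hcol : ∀ b, ∑ a, f a b = ∑ a, f b a := fun b => Finset.sum_congr rfl fun a _ => hs a b
  have t1 : ∑ a, ∑ b, f a b * (1 - y a) = ∑ a, (∑ b, f a b) * (1 - y a) := by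
    refine Finset.sum_congr rfl fun a _ => ?_
    rw [Finset.sum_mul]
  have t2 : ∑ a, ∑ b, f a b * (1 - y b) = ∑ a, (∑ b, f a b) * (1 - y a) := by
    rw [Finset.sum_comm]
    refine Finset.sum_congr rfl fun b _ => ?_
    rw [← hcol b, Finset.sum_mul]
  have e2 := Finset.sum_le_sum fun a (_ : a ∈ (Finset.univ : Finset V)) =>
    Finset.sum_le_sum fun b (_ : b ∈ (Finset.univ : Finset V)) => e a b
  simp only [Finset.sum_sub_distrib] at e2
  rw [t1, t2] at e2
  linarith

theorem Q_mono (f g : V → V → ℝ) (hf : ∀ a b, 0 ≤ f a b) (h : ∀ a b, f a b ≤ g a b) :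
    Q f f ≤ Q g g := by
  unfold Q
  refine Finset.sum_le_sum fun a _ => Finset.sum_le_sum fun b _ => Finset.sum_le_sum fun c _ =>
    Finset.sum_le_sum fun d _ => ?_
  exact mul_le_mul_of_nonneg_right
    (mul_le_mul (h a b) (h c d) (hf c d) ((hf a b).trans (h a b))) (dj_nonneg _ _ _ _)

end gen

section graph

variable {V : Type} [Fintype V] (G : SimpleGraph V) (S : Finset V)

theorem ad_sym (u v : V) : ad G u v = ad G v u := by
  unfold ad; rw [G.adj_comm]

theorem ad01 (u v : V) : ad G u v = 0 ∨ ad G u v = 1 := by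
  unfold ad; split_ifs <;> simp

theorem ad0 (u v : V) : 0 ≤ ad G u v := by
  rcases ad01 G u v with h | h <;> rw [h] <;> norm_num

theorem ad1 (u v : V) : ad G u v ≤ 1 := by
  rcases ad01 G u v with h | h <;> rw [h] <;> norm_num

theorem op_sym (u v : V) : op S u v = op S v u := by
  unfold op
  congr 1
  exact propext iff_comm

theorem op01 (u v : V) : op S u v = 0 ∨ op S u v = 1 := by
  unfold op; split_ifs <;> simp

theorem F_sym (u v : V) : F G S u v = F G S v u := by
  unfold F
  congr 1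
  apply propext
  constructor
  · rintro ⟨h1, h2, h3, h4⟩; exact ⟨h1.symm, h2.symm, h4, h3⟩
  · rintro ⟨h1, h2, h3, h4⟩; exact ⟨h1.symm, h2.symm, h4, h3⟩

theorem F01 (u v : V) : F G S u v = 0 ∨ F G S u v = 1 := by
  unfold F; split_ifs <;> simp

theorem F0 (u v : V) : 0 ≤ F G S u v := by
  rcases F01 G S u v with h | h <;> rw [h] <;> norm_num

theorem F_self (v : V) : F G S v v = 0 := by
  unfold F; simp

theorem F_ne {u v : V} (h : F G S u v ≠ 0) :
    (u ∈ S ↔ v ∈ S) ∧ G.Adj u v ∧ ¬ bad G S u ∧ ¬ bad G S v := by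
  unfold F at h
  by_contra hc
  rw [if_neg hc] at h
  exact h rfl

theorem gg_nonneg (v : V) : 0 ≤ gg G S v := Finset.sum_nonneg fun u _ => F0 G S v u

theorem gg_nat (v : V) : ∃ k : ℕ, gg G S v = k := by
  refine ⟨(Finset.univ.filter fun u => F G S v u = 1).card, ?_⟩
  rw [Finset.card_filter]
  push_cast
  unfold gg
  refine Finset.sum_congr rfl fun u _ => ?_
  rcases F01 G S v u with h | h <;> rw [h] <;> simp

theorem gg_mul (v : V) : 0 ≤ gg G S v * (gg G S v - 1) := by
  obtain ⟨k, hk⟩ := gg_nat G S v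
  rw [hk]
  rcases Nat.eq_zero_or_pos k with h | h
  · rw [h]; simp
  · have : (1 : ℝ) ≤ k := by exact_mod_cast h
    exact mul_nonneg (by linarith) (by linarith)

theorem gg_12 (v : V) : gg G S v ≤ 1 + gg G S v * (gg G S v - 1) / 2 := by
  obtain ⟨k, hk⟩ := gg_nat G S v
  rw [hk]
  have h : 0 ≤ ((k : ℝ) - 1) * (k - 2) := by
    rcases Nat.lt_or_ge k 2 with h | h
    · interval_cases k <;> norm_num
    · have : (2 : ℝ) ≤ k := by exact_mod_cast h
      exact mul_nonneg (by linarith) (by linarith)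
  nlinarith

theorem rr_nonneg (v : V) : 0 ≤ rr G S v := by
  unfold rr
  refine Finset.sum_nonneg fun u _ => mul_nonneg ?_ ?_
  · rcases op01 S v u with h | h <;> rw [h] <;> norm_num
  · linarith [ad1 G v u]

theorem rr_lt {v : V} (h : ¬ bad G S v) : rr G S v < (Fintype.card V : ℝ) / 256 := by
  unfold bad at h
  exact not_le.1 h

theorem gg_bad {v : V} (h : bad G S v) : gg G S v = 0 := by
  unfold gg
  refine Finset.sum_eq_zero fun u _ => ?_
  by_contra hc
  exact (F_ne G S hc).2.2.1 h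

/-- opposite triangles -/
noncomputable def oo (v a b : V) : ℝ := op S v a * (F G S a b * (ad G v a * ad G v b))

/-- mixed triangles -/
noncomputable def hh (v a b : V) : ℝ := op S v b * (ad G v b * ad G a b)

/-- mixed triangles -/
noncomputable def mm (v a b : V) : ℝ := F G S v a * hh G S v a b

theorem hh01 (v a b : V) : hh G S v a b = 0 ∨ hh G S v a b = 1 := by
  unfold hh
  rcases op01 S v b with h | h <;> rcases ad01 G v b with h' | h' <;>
    rcases ad01 G a b with h'' | h'' <;> rw [h, h', h''] <;> simp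

theorem hh0 (v a b : V) : 0 ≤ hh G S v a b := by
  rcases hh01 G S v a b with h | h <;> rw [h] <;> norm_num

theorem hh1 (v a b : V) : hh G S v a b ≤ 1 := by
  rcases hh01 G S v a b with h | h <;> rw [h] <;> norm_num

theorem oo0 (v a b : V) : 0 ≤ oo G S v a b := by
  unfold oo
  refine mul_nonneg ?_ (mul_nonneg (F0 G S a b) (mul_nonneg (ad0 G v a) (ad0 G v b)))
  rcases op01 S v a with h | h <;> rw [h] <;> norm_num

theorem mm0 (v a b : V) : 0 ≤ mm G S v a b := mul_nonneg (F0 G S v a) (hh0 G S v a b)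

theorem point (v a b : V) : oo G S v a b + mm G S v a b + mm G S v b a ≤
    ad G v a * ad G v b * ad G a b := by
  have hs : ad G b a = ad G a b := ad_sym G b a
  unfold oo mm hh op F ad
  by_cases h1 : v ∈ S <;> by_cases h2 : a ∈ S <;> by_cases h3 : b ∈ S <;>
    by_cases h4 : G.Adj v a <;> by_cases h5 : G.Adj v b <;> by_cases h6 : G.Adj a b <;>
    by_cases h7 : bad G S v <;> by_cases h8 : bad G S a <;> by_cases h9 : bad G S b <;>
    simp [h1, h2, h3, h4, h5, h6, h7, h8, h9, G.adj_comm b a]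

theorem tup_ge : ∑ v, (Q (oo G S v) (oo G S v) + 4 * Q (oo G S v) (mm G S v) +
    4 * Q (mm G S v) (mm G S v)) ≤ tup G := by
  have h : tup G = ∑ v, Q (fun a b => ad G v a * ad G v b * ad G a b)
      (fun a b => ad G v a * ad G v b * ad G a b) := rfl
  rw [h]
  refine Finset.sum_le_sum fun v _ => ?_
  rw [← Q_expand]
  refine Q_mono _ _ (fun a b => ?_) (fun a b => point G S v a b)
  exact add_nonneg (add_nonneg (oo0 G S v a b) (mm0 G S v a b)) (mm0 G S v b a)

theorem sum_op (v : V) : min (nA S) (nB S) ≤ ∑ b, op S v b := by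
  by_cases hv : v ∈ S
  · have : ∑ b, op S v b = nB S := by
      unfold nB op
      rw [Finset.card_eq_sum_ones, ← Finset.sum_sdiff (Finset.subset_univ S)]
      rw [Finset.sum_eq_zero (s := S)]
      · rw [add_zero]
        push_cast
        refine Finset.sum_congr rfl fun b hb => ?_
        have : b ∉ S := (Finset.mem_sdiff.1 hb).2
        simp [hv, this]
      · intro b hb
        simp [hv, hb]
    rw [this]; exact min_le_right _ _
  · have : ∑ b, op S v b = nA S := by
      unfold nA op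
      rw [Finset.card_eq_sum_ones, ← Finset.sum_sdiff (Finset.subset_univ S)]
      rw [Finset.sum_eq_zero (s := Finset.univ \ S)]
      · rw [zero_add]
        push_cast
        refine Finset.sum_congr rfl fun b hb => ?_
        simp [hv, hb]
      · intro b hb
        have : b ∉ S := (Finset.mem_sdiff.1 hb).2
        simp [hv, this]
    rw [this]; exact min_le_left _ _

theorem kappa {v a : V} (h : F G S v a ≠ 0) :
    min (nA S) (nB S) - (Fintype.card V : ℝ) / 128 ≤ ∑ b, hh G S v a b := by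
  obtain ⟨hs, -, hb1, hb2⟩ := F_ne G S h
  have e : ∀ b, op S v b - op S v b * (1 - ad G v b) - op S a b * (1 - ad G a b) ≤
      hh G S v a b := by
    intro b
    have : op S a b = op S v b := by
      unfold op
      congr 1
      rw [hs]
    unfold hh
    rw [this]
    rcases op01 S v b with h | h <;> rcases ad01 G v b with h' | h' <;>
      rcases ad01 G a b with h'' | h'' <;> rw [h, h', h''] <;> norm_num
  have e2 := Finset.sum_le_sum fun b (_ : b ∈ (Finset.univ : Finset V)) => e b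
  simp only [Finset.sum_sub_distrib] at e2
  have e3 := sum_op S v
  have e4 := rr_lt G S hb1
  have e5 := rr_lt G S hb2
  unfold rr at e4 e5
  linarith

theorem W_bound (v : V) (m : ℝ) (hm1 : 1 ≤ m)
    (hm : m ≤ min (nA S) (nB S) - (Fintype.card V : ℝ) / 128) :
    m * (m - 1) * (gg G S v * (gg G S v - 1)) ≤ Q (mm G S v) (mm G S v) := by
  have e : ∀ a b c d, F G S v a * F G S v c * (1 - de a c) *
      (hh G S v a b * hh G S v c d * (1 - de b d)) ≤
      mm G S v a b * mm G S v c d * dj a b c d := by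
    intro a b c d
    unfold mm
    rcases F01 G S v a with h1 | h1
    · rw [h1]; simp
    rcases F01 G S v c with h2 | h2
    · rw [h2]; simp
    rcases hh01 G S v a b with h3 | h3
    · rw [h3]; simp
    rcases hh01 G S v c d with h4 | h4
    · rw [h4]; simp
    rw [h1, h2, h3, h4]
    have s1 := (F_ne G S (u := v) (v := a) (by rw [h1]; norm_num)).1
    have s2 := (F_ne G S (u := v) (v := c) (by rw [h2]; norm_num)).1
    have s3 : ¬ (v ∈ S ↔ b ∈ S) := by
      intro hc
      unfold hh op at h3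
      rw [if_pos hc] at h3
      simp at h3
    have s4 : ¬ (v ∈ S ↔ d ∈ S) := by
      intro hc
      unfold hh op at h4
      rw [if_pos hc] at h4
      simp at h4
    have n1 : a ≠ d := by rintro rfl; exact s4 s1
    have n2 : b ≠ c := by rintro rfl; exact s3 s2
    unfold de dj
    by_cases k1 : a = c <;> by_cases k2 : b = d <;> simp [k1, k2] <;> simp_all
  have e2 := Finset.sum_le_sum fun a (_ : a ∈ (Finset.univ : Finset V)) =>
    Finset.sum_le_sum fun b (_ : b ∈ (Finset.univ : Finset V)) =>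
    Finset.sum_le_sum fun c (_ : c ∈ (Finset.univ : Finset V)) =>
    Finset.sum_le_sum fun d (_ : d ∈ (Finset.univ : Finset V)) => e a b c d
  refine le_trans ?_ e2
  have e3 : ∑ a, ∑ b, ∑ c, ∑ d, F G S v a * F G S v c * (1 - de a c) *
      (hh G S v a b * hh G S v c d * (1 - de b d)) =
      ∑ a, ∑ c, F G S v a * F G S v c * (1 - de a c) *
        ((∑ b, hh G S v a b) * (∑ d, hh G S v c d) - ∑ b, hh G S v a b * hh G S v c b) := by
    refine Finset.sum_congr rfl fun a _ => ?_
    rw [Finset.sum_comm]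
    refine Finset.sum_congr rfl fun c _ => ?_
    simp only [← Finset.mul_sum]
    congr 1
    rw [Finset.sum_mul, ← Finset.sum_sub_distrib]
    refine Finset.sum_congr rfl fun b _ => ?_
    have : ∀ d, hh G S v a b * hh G S v c d * (1 - de b d) =
        hh G S v a b * hh G S v c d - de b d * (hh G S v a b * hh G S v c d) := by
      intro d; ring
    simp only [this]
    rw [Finset.sum_sub_distrib, sum_de b fun d => hh G S v a b * hh G S v c d, Finset.mul_sum]
  rw [e3]
  have e4 : ∀ a c, F G S v a * F G S v c * (1 - de a c) * (m * (m - 1)) ≤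
      F G S v a * F G S v c * (1 - de a c) *
        ((∑ b, hh G S v a b) * (∑ d, hh G S v c d) - ∑ b, hh G S v a b * hh G S v c b) := by
    intro a c
    rcases F01 G S v a with h1 | h1
    · rw [h1]; simp
    rcases F01 G S v c with h2 | h2
    · rw [h2]; simp
    have k1 := kappa G S (v := v) (a := a) (by rw [h1]; norm_num)
    have k2 := kappa G S (v := v) (a := c) (by rw [h2]; norm_num)
    have k3 : ∑ b, hh G S v a b * hh G S v c b ≤ ∑ b, hh G S v a b :=
      Finset.sum_le_sum fun b _ => mul_le_of_le_one_right (hh0 G S v a b) (hh1 G S v c b)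
    refine mul_le_mul_of_nonneg_left ?_ ?_
    · have k4 : m * (m - 1) ≤ (∑ b, hh G S v a b) * ((∑ d, hh G S v c d) - 1) :=
        mul_le_mul (by linarith) (by linarith) (by linarith) (by linarith)
      linarith
    · rw [h1, h2]
      unfold de
      split_ifs <;> norm_num
  refine le_trans (le_of_eq ?_)
    (Finset.sum_le_sum fun a _ => Finset.sum_le_sum fun c _ => e4 a c)
  have e5 : ∑ a, ∑ c, F G S v a * F G S v c * (1 - de a c) * (m * (m - 1)) =
      (∑ a, ∑ c, F G S v a * F G S v c * (1 - de a c)) * (m * (m - 1)) := by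
    rw [Finset.sum_mul]
    refine Finset.sum_congr rfl fun a _ => ?_
    rw [Finset.sum_mul]
  rw [e5]
  have e6 : ∑ a, ∑ c, F G S v a * F G S v c * (1 - de a c) = gg G S v * (gg G S v - 1) := by
    have : ∀ a c, F G S v a * F G S v c * (1 - de a c) =
        F G S v a * F G S v c - de a c * (F G S v a * F G S v c) := by
      intro a c; ring
    simp only [this, Finset.sum_sub_distrib]
    have e7 : ∑ a, ∑ c, F G S v a * F G S v c = gg G S v * gg G S v := by
      unfold gg
      rw [Finset.sum_mul]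
      refine Finset.sum_congr rfl fun a _ => ?_
      rw [Finset.mul_sum]
    have e8 : ∑ a, ∑ c, de a c * (F G S v a * F G S v c) = gg G S v := by
      unfold gg
      refine Finset.sum_congr rfl fun a _ => ?_
      rw [sum_de a fun c => F G S v a * F G S v c]
      rcases F01 G S v a with h1 | h1 <;> rw [h1] <;> norm_num
    rw [e7, e8]; ring
  rw [e6]; ring

theorem U_bound (v : V) (m : ℝ) (hm1 : 2 ≤ m)
    (hm : m ≤ min (nA S) (nB S) - (Fintype.card V : ℝ) / 128) :
    (m - 2) * (gg G S v * ∑ a, ∑ b, oo G S v a b) ≤ Q (oo G S v) (mm G S v) := by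
  have e : ∀ a b c d, oo G S v a b * (F G S v c * (hh G S v c d - de a d * hh G S v c d
      - de b d * hh G S v c d)) ≤ oo G S v a b * mm G S v c d * dj a b c d := by
    intro a b c d
    have e0 : oo G S v a b * mm G S v c d * dj a b c d = oo G S v a b * (F G S v c *
      (hh G S v c d * dj a b c d)) := by unfold mm; ring
    rw [e0]
    rcases eq_or_ne (oo G S v a b) 0 with h1 | h1
    · rw [h1]; simp
    refine mul_le_mul_of_nonneg_left ?_ (oo0 G S v a b)
    rcases eq_or_ne (F G S v c) 0 with h2 | h2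
    · rw [h2]; simp
    refine mul_le_mul_of_nonneg_left ?_ (F0 G S v c)
    have s1 : ¬ (v ∈ S ↔ a ∈ S) := by
      intro hc
      apply h1
      unfold oo op
      rw [if_pos hc]; simp
    have s2 : (a ∈ S ↔ b ∈ S) := by
      by_contra hc
      apply h1
      have : F G S a b = 0 := by
        by_contra h'
        exact hc (F_ne G S h').1
      unfold oo
      rw [this]; simp
    have s3 := (F_ne G S h2).1
    have n1 : a ≠ c := by rintro rfl; exact s1 s3
    have n2 : b ≠ c := by rintro rfl; exact s1 (s3.trans s2.symm)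
    have k : 1 - de a d - de b d ≤ dj a b c d := by
      unfold de dj
      by_cases k1 : a = d <;> by_cases k2 : b = d <;> simp [k1, k2] <;> simp_all
    nlinarith [mul_le_mul_of_nonneg_left k (hh0 G S v c d)]
  have e2 := Finset.sum_le_sum fun a (_ : a ∈ (Finset.univ : Finset V)) =>
    Finset.sum_le_sum fun b (_ : b ∈ (Finset.univ : Finset V)) =>
    Finset.sum_le_sum fun c (_ : c ∈ (Finset.univ : Finset V)) =>
    Finset.sum_le_sum fun d (_ : d ∈ (Finset.univ : Finset V)) => e a b c d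
  refine le_trans ?_ e2
  have e3 : ∀ a b, (m - 2) * (gg G S v * oo G S v a b) ≤ ∑ c, ∑ d, oo G S v a b *
      (F G S v c * (hh G S v c d - de a d * hh G S v c d - de b d * hh G S v c d)) := by
    intro a b
    simp only [← Finset.mul_sum, Finset.sum_sub_distrib]
    have k : (m - 2) * gg G S v ≤ ∑ c, F G S v c * ((∑ d, hh G S v c d)
        - (∑ d, de a d * hh G S v c d) - ∑ d, de b d * hh G S v c d) := by
      unfold gg
      rw [Finset.mul_sum]
      refine Finset.sum_le_sum fun c _ => ?_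
      rw [sum_de a fun d => hh G S v c d, sum_de b fun d => hh G S v c d]
      rcases eq_or_ne (F G S v c) 0 with h2 | h2
      · rw [h2]; simp
      rw [mul_comm]
      refine mul_le_mul_of_nonneg_left ?_ (F0 G S v c)
      have k1 := kappa G S h2
      have k2 := hh1 G S v c a
      have k3 := hh1 G S v c b
      linarith
    nlinarith [mul_le_mul_of_nonneg_left k (oo0 G S v a b)]
  refine le_trans (le_of_eq ?_)
    (Finset.sum_le_sum fun a _ => Finset.sum_le_sum fun b _ => e3 a b)
  simp only [← Finset.mul_sum]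

/-! ### one side -/

section side

variable {T T' : Finset V}

/-- good inside edges inside `T` -/
noncomputable def FT (T : Finset V) (a b : V) : ℝ := if a ∈ T then F G S a b else 0

variable (hT : ∀ v, v ∈ T' ↔ v ∉ T) (hop : ∀ v a, op S v a = if (v ∈ T ↔ a ∈ T) then 0 else 1)
  (hF : ∀ a b, F G S a b ≠ 0 → (a ∈ T ↔ b ∈ T))

include hF in
theorem FT_sym (a b : V) : FT G S T a b = FT G S T b a := by
  unfold FT
  rcases eq_or_ne (F G S a b) 0 with h | h
  · rw [F_sym G S b a, h]; simp
  · have := hF a b h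
    rw [F_sym G S b a]
    simp only [this]

theorem FT01 (a b : V) : FT G S T a b = 0 ∨ FT G S T a b = 1 := by
  unfold FT
  split_ifs
  · exact F01 G S a b
  · left; rfl

theorem FT0 (a b : V) : 0 ≤ FT G S T a b := by
  rcases FT01 G S (T := T) a b with h | h <;> rw [h] <;> norm_num

theorem FT_self (a : V) : FT G S T a a = 0 := by
  unfold FT; rw [F_self]; simp

theorem FT_row (a : V) : ∑ b, FT G S T a b = if a ∈ T then gg G S a else 0 := by
  unfold FT gg
  split_ifs <;> simp

theorem FT_tot : ∑ a, ∑ b, FT G S T a b = ∑ a ∈ T, gg G S a := by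
  simp only [FT_row]
  rw [Finset.sum_ite_mem]
  simp

include hT hop in
theorem oo_eq {v : V} (hv : v ∈ T') :
    oo G S v = fun a b => FT G S T a b * (ad G v a * ad G v b) := by
  ext a b
  unfold oo FT
  rw [hop v a]
  have := (hT v).1 hv
  by_cases ha : a ∈ T <;> simp [ha, this]

include hT hop in
theorem rr_T {a : V} (ha : a ∈ T) : rr G S a = ∑ v ∈ T', (1 - ad G v a) := by
  unfold rr
  rw [← Finset.sum_subset (Finset.subset_univ T')]
  · refine Finset.sum_congr rfl fun v hv => ?_
    have := (hT v).1 hv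
    rw [hop a v, ad_sym G v a]
    simp [ha, this]
  · intro v _ hv
    have hvT : v ∈ T := by
      by_contra h
      exact hv ((hT v).2 h)
    rw [hop a v]
    simp [ha, hvT]

include hT hop in
theorem rr_T' {v : V} (hv : v ∈ T') : rr G S v = ∑ a ∈ T, (1 - ad G v a) := by
  unfold rr
  have hvT := (hT v).1 hv
  rw [← Finset.sum_subset (Finset.subset_univ T)]
  · refine Finset.sum_congr rfl fun a ha => ?_
    rw [hop v a]
    simp [ha, hvT]
  · intro a _ ha
    rw [hop v a]
    simp [ha, hvT]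

include hT hop hF in
theorem side1 : (T'.card : ℝ) * ((∑ a ∈ T, gg G S a) ^ 2 -
      4 * (∑ a ∈ T, gg G S a * (gg G S a - 1)) - 2 * ∑ a ∈ T, gg G S a) -
      4 * (∑ a ∈ T, gg G S a) * (∑ a ∈ T, gg G S a * rr G S a) ≤
    ∑ v ∈ T', Q (oo G S v) (oo G S v) := by
  have e : ∀ v ∈ T', ((∑ a ∈ T, gg G S a) ^ 2 -
      4 * (∑ a ∈ T, gg G S a * (gg G S a - 1)) - 2 * ∑ a ∈ T, gg G S a) -
      4 * (∑ a ∈ T, gg G S a) * (∑ a ∈ T, gg G S a * (1 - ad G v a)) ≤
      Q (oo G S v) (oo G S v) := by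
    intro v hv
    rw [oo_eq G S hT hop hv]
    have h1 := Q_weight (FT G S T) (FT_sym G S hF) (FT0 G S) (ad G v) (ad01 G v)
    refine le_trans (le_of_eq ?_) h1
    rw [Q_self (FT G S T) (FT_sym G S hF) (FT_self G S) (FT01 G S), FT_tot]
    simp only [FT_row]
    have h2 : ∑ a, (if a ∈ T then gg G S a else 0) ^ 2 = ∑ a ∈ T, gg G S a ^ 2 := by
      rw [← Finset.sum_filter_add_sum_filter_not Finset.univ (fun a => a ∈ T)]
      rw [Finset.sum_eq_zero (s := Finset.univ.filter fun a => ¬ a ∈ T), add_zero]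
      · rw [Finset.filter_mem_eq_inter, Finset.univ_inter]
        refine Finset.sum_congr rfl fun a ha => ?_
        rw [if_pos ha]
      · intro a ha
        rw [if_neg (Finset.mem_filter.1 ha).2]; norm_num
    have h3 : ∑ a, (if a ∈ T then gg G S a else 0) * (1 - ad G v a) =
        ∑ a ∈ T, gg G S a * (1 - ad G v a) := by
      rw [← Finset.sum_filter_add_sum_filter_not Finset.univ (fun a => a ∈ T)]
      rw [Finset.sum_eq_zero (s := Finset.univ.filter fun a => ¬ a ∈ T), add_zero]
      · rw [Finset.filter_mem_eq_inter, Finset.univ_inter]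
        refine Finset.sum_congr rfl fun a ha => ?_
        rw [if_pos ha]
      · intro a ha
        rw [if_neg (Finset.mem_filter.1 ha).2]; norm_num
    rw [h2, h3]
    have h4 : ∑ a ∈ T, gg G S a * (gg G S a - 1) = ∑ a ∈ T, gg G S a ^ 2 - ∑ a ∈ T, gg G S a := by
      rw [← Finset.sum_sub_distrib]
      refine Finset.sum_congr rfl fun a _ => ?_
      ring
    rw [h4]; ring
  refine le_trans (le_of_eq ?_) (Finset.sum_le_sum e)
  rw [Finset.sum_sub_distrib, Finset.sum_const, nsmul_eq_mul, ← Finset.mul_sum]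
  congr 2
  rw [Finset.sum_comm]
  refine Finset.sum_congr rfl fun a ha => ?_
  rw [← Finset.mul_sum, rr_T G S hT hop ha]

include hF in
theorem side0 : 0 ≤ (∑ a ∈ T, gg G S a) ^ 2 -
      4 * (∑ a ∈ T, gg G S a * (gg G S a - 1)) - 2 * ∑ a ∈ T, gg G S a := by
  have h1 := Q_nonneg (FT G S T) (FT G S T) (FT0 G S) (FT0 G S)
  rw [Q_self (FT G S T) (FT_sym G S hF) (FT_self G S) (FT01 G S), FT_tot] at h1
  simp only [FT_row] at h1
  have h2 : ∑ a, (if a ∈ T then gg G S a else 0) ^ 2 = ∑ a ∈ T, gg G S a ^ 2 := by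
    rw [← Finset.sum_filter_add_sum_filter_not Finset.univ (fun a => a ∈ T)]
    rw [Finset.sum_eq_zero (s := Finset.univ.filter fun a => ¬ a ∈ T), add_zero]
    · rw [Finset.filter_mem_eq_inter, Finset.univ_inter]
      refine Finset.sum_congr rfl fun a ha => ?_
      rw [if_pos ha]
    · intro a ha
      rw [if_neg (Finset.mem_filter.1 ha).2]; norm_num
  rw [h2] at h1
  have h4 : ∑ a ∈ T, gg G S a * (gg G S a - 1) = ∑ a ∈ T, gg G S a ^ 2 - ∑ a ∈ T, gg G S a := by
    rw [← Finset.sum_sub_distrib]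
    refine Finset.sum_congr rfl fun a _ => ?_
    ring
  rw [h4]
  linarith

include hT hop hF in
theorem side2 : (∑ v ∈ T', gg G S v) * (∑ a ∈ T, gg G S a) -
      2 * ∑ v ∈ T', ∑ a ∈ T, gg G S v * (gg G S a * (1 - ad G v a)) ≤
    ∑ v ∈ T', gg G S v * ∑ a, ∑ b, oo G S v a b := by
  rw [Finset.sum_mul, Finset.mul_sum, ← Finset.sum_sub_distrib]
  refine Finset.sum_le_sum fun v hv => ?_
  rw [oo_eq G S hT hop hv]
  have h1 := lin_weight (FT G S T) (FT_sym G S hF) (FT0 G S) (ad G v) (ad01 G v)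
  rw [FT_tot] at h1
  simp only [FT_row] at h1
  have h3 : ∑ a, (if a ∈ T then gg G S a else 0) * (1 - ad G v a) =
      ∑ a ∈ T, gg G S a * (1 - ad G v a) := by
    rw [← Finset.sum_filter_add_sum_filter_not Finset.univ (fun a => a ∈ T)]
    rw [Finset.sum_eq_zero (s := Finset.univ.filter fun a => ¬ a ∈ T), add_zero]
    · rw [Finset.filter_mem_eq_inter, Finset.univ_inter]
      refine Finset.sum_congr rfl fun a ha => ?_
      rw [if_pos ha]
    · intro a ha
      rw [if_neg (Finset.mem_filter.1 ha).2]; norm_num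
  rw [h3] at h1
  have h4 := mul_le_mul_of_nonneg_left h1 (gg_nonneg G S v)
  refine le_trans (le_of_eq ?_) h4
  rw [← Finset.mul_sum]
  ring

include hT hop in
theorem side3 : ∑ v ∈ T', ∑ a ∈ T, gg G S v * (gg G S a * (1 - ad G v a)) ≤
    (1 / 2) * (∑ v ∈ T', gg G S v ^ 2 * rr G S v + ∑ a ∈ T, gg G S a ^ 2 * rr G S a) := by
  have e : ∀ v a, gg G S v * (gg G S a * (1 - ad G v a)) ≤
      (1 / 2) * (gg G S v ^ 2 * (1 - ad G v a)) + (1 / 2) * (gg G S a ^ 2 * (1 - ad G v a)) := by
    intro v a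
    have h1 : 0 ≤ 1 - ad G v a := by linarith [ad1 G v a]
    nlinarith [mul_nonneg h1 (sq_nonneg (gg G S v - gg G S a))]
  refine le_trans (Finset.sum_le_sum fun v _ => Finset.sum_le_sum fun a _ => e v a) ?_
  simp only [Finset.sum_add_distrib, ← Finset.mul_sum]
  have h1 : ∑ v ∈ T', gg G S v ^ 2 * ∑ a ∈ T, (1 - ad G v a) =
      ∑ v ∈ T', gg G S v ^ 2 * rr G S v := by
    refine Finset.sum_congr rfl fun v hv => ?_
    rw [rr_T' G S hT hop hv]
  have h2 : ∑ v ∈ T', ∑ a ∈ T, gg G S a ^ 2 * (1 - ad G v a) =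
      ∑ a ∈ T, gg G S a ^ 2 * rr G S a := by
    rw [Finset.sum_comm]
    refine Finset.sum_congr rfl fun a ha => ?_
    rw [← Finset.mul_sum, rr_T G S hT hop ha]
  rw [h1, h2]
  linarith

end side

theorem split (f : V → ℝ) : ∑ v, f v = ∑ v ∈ S, f v + ∑ v ∈ Finset.univ \ S, f v := by
  rw [← Finset.sum_sdiff (Finset.subset_univ S)]; ring

theorem hT1 (v : V) : v ∈ Finset.univ \ S ↔ v ∉ S := by simp

theorem hT2 (v : V) : v ∈ S ↔ v ∉ Finset.univ \ S := by simp

theorem hop1 (v a : V) : op S v a = if (v ∈ S ↔ a ∈ S) then 0 else 1 := rfl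

theorem hop2 (v a : V) :
    op S v a = if (v ∈ Finset.univ \ S ↔ a ∈ Finset.univ \ S) then 0 else 1 := by
  unfold op
  by_cases h1 : v ∈ S <;> by_cases h2 : a ∈ S <;> simp [h1, h2]

theorem hF1 (a b : V) (h : F G S a b ≠ 0) : a ∈ S ↔ b ∈ S := (F_ne G S h).1

theorem hF2 (a b : V) (h : F G S a b ≠ 0) : a ∈ Finset.univ \ S ↔ b ∈ Finset.univ \ S := by
  have := (F_ne G S h).1
  simp [this]

/-- the main estimate before the numerical simplification -/
theorem main (m : ℝ) (hm1 : 2 ≤ m)
    (hm : m ≤ min (nA S) (nB S) - (Fintype.card V : ℝ) / 128) :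
    ∃ PA PB RA RB Y X : ℝ, 0 ≤ PA ∧ 0 ≤ PB ∧ PA + PB = P2 G S ∧ 0 ≤ RA ∧ 0 ≤ RB ∧
      RA + RB = ∑ v, gg G S v * rr G S v ∧ 0 ≤ Y ∧
      2 * GA G S * GB G S - 2 * X ≤ Y ∧ X ≤ ∑ v, gg G S v ^ 2 * rr G S v ∧
      0 ≤ GA G S ^ 2 - 4 * PA - 2 * GA G S ∧ 0 ≤ GB G S ^ 2 - 4 * PB - 2 * GB G S ∧
      nB S * (GA G S ^ 2 - 4 * PA - 2 * GA G S) - 4 * GA G S * RA +
      (nA S * (GB G S ^ 2 - 4 * PB - 2 * GB G S) - 4 * GB G S * RB) +
      4 * (m - 2) * Y + 4 * (m * (m - 1)) * P2 G S ≤ tup G := by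
  refine ⟨∑ a ∈ S, gg G S a * (gg G S a - 1), ∑ a ∈ Finset.univ \ S, gg G S a * (gg G S a - 1),
    ∑ a ∈ S, gg G S a * rr G S a, ∑ a ∈ Finset.univ \ S, gg G S a * rr G S a,
    ∑ v, gg G S v * ∑ a, ∑ b, oo G S v a b,
    ∑ v ∈ Finset.univ \ S, ∑ a ∈ S, gg G S v * (gg G S a * (1 - ad G v a)) +
    ∑ v ∈ S, ∑ a ∈ Finset.univ \ S, gg G S v * (gg G S a * (1 - ad G v a)),
    Finset.sum_nonneg fun v _ => gg_mul G S v, Finset.sum_nonneg fun v _ => gg_mul G S v,
    (split S _).symm,
    Finset.sum_nonneg fun v _ => mul_nonneg (gg_nonneg G S v) (rr_nonneg G S v),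
    Finset.sum_nonneg fun v _ => mul_nonneg (gg_nonneg G S v) (rr_nonneg G S v),
    (split S _).symm, ?_, ?_, ?_, side0 G S (hF1 G S), side0 G S (hF2 G S), ?_⟩
  · exact Finset.sum_nonneg fun v _ => mul_nonneg (gg_nonneg G S v)
      (Finset.sum_nonneg fun a _ => Finset.sum_nonneg fun b _ => oo0 G S v a b)
  · have h1 := side2 G S (hT1 S) (hop1 S) (hF1 G S)
    have h2 := side2 G S (hT2 S) (hop2 S) (hF2 G S)
    rw [split S fun v => gg G S v * ∑ a, ∑ b, oo G S v a b]
    unfold GA GB
    linarith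
  · have h1 := side3 G S (hT1 S) (hop1 S)
    have h2 := side3 G S (hT2 S) (hop2 S)
    rw [split S fun v => gg G S v ^ 2 * rr G S v]
    linarith
  · refine le_trans ?_ (tup_ge G S)
    have h1 := side1 G S (hT1 S) (hop1 S) (hF1 G S)
    have h2 := side1 G S (hT2 S) (hop2 S) (hF2 G S)
    have h3 : (m - 2) * ∑ v, gg G S v * ∑ a, ∑ b, oo G S v a b ≤
        ∑ v, Q (oo G S v) (mm G S v) := by
      rw [Finset.mul_sum]
      exact Finset.sum_le_sum fun v _ => U_bound G S v m hm1 hm
    have h4 : m * (m - 1) * P2 G S ≤ ∑ v, Q (mm G S v) (mm G S v) := by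
      unfold P2
      rw [Finset.mul_sum]
      exact Finset.sum_le_sum fun v _ => W_bound G S v m (by linarith) hm
    simp only [Finset.sum_add_distrib, ← Finset.mul_sum]
    rw [split S fun v => Q (oo G S v) (oo G S v)]
    unfold GA GB nA nB
    linarith

theorem GAB : GA G S + GB G S = ∑ v, gg G S v := (split S _).symm

theorem GAB_le : ∑ v, gg G S v ≤ ∑ v, din G S v := by
  refine Finset.sum_le_sum fun v _ => ?_
  unfold gg din
  refine Finset.sum_le_sum fun u _ => ?_
  rcases eq_or_ne (F G S v u) 0 with h | h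
  · rw [h]
    refine mul_nonneg ?_ (ad0 G v u)
    unfold sm; split_ifs <;> norm_num
  · have h1 := F_ne G S h
    have h2 : F G S v u = 1 := by
      rcases F01 G S v u with h' | h'
      · exact absurd h' h
      · exact h'
    rw [h2]
    unfold sm ad
    rw [if_pos h1.1, if_pos h1.2.1]
    norm_num

theorem grr (N : ℝ) (hN : (Fintype.card V : ℝ) = N) :
    ∑ v, gg G S v * rr G S v ≤ RR G S + N / 512 * P2 G S := by
  unfold RR P2
  rw [Finset.mul_sum, ← Finset.sum_add_distrib]
  refine Finset.sum_le_sum fun v _ => ?_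
  by_cases hb : bad G S v
  · rw [gg_bad G S hb]
    have := rr_nonneg G S v
    simp; exact this
  · have h1 := rr_lt G S hb
    rw [hN] at h1
    have h2 := gg_12 G S v
    have h3 := gg_mul G S v
    have h4 := rr_nonneg G S v
    have h5 : gg G S v * rr G S v ≤ (1 + gg G S v * (gg G S v - 1) / 2) * rr G S v :=
      mul_le_mul_of_nonneg_right h2 h4
    have h6 : gg G S v * (gg G S v - 1) * rr G S v ≤ gg G S v * (gg G S v - 1) * (N / 256) :=
      mul_le_mul_of_nonneg_left h1.le h3
    linarith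

theorem ggrr (N : ℝ) (hN : (Fintype.card V : ℝ) = N) :
    ∑ v, gg G S v ^ 2 * rr G S v ≤ RR G S + N / 128 * P2 G S := by
  unfold RR P2
  rw [Finset.mul_sum, ← Finset.sum_add_distrib]
  refine Finset.sum_le_sum fun v _ => ?_
  by_cases hb : bad G S v
  · rw [gg_bad G S hb]
    have := rr_nonneg G S v
    simp; exact this
  · have h1 := rr_lt G S hb
    rw [hN] at h1
    have h2 : gg G S v ^ 2 ≤ 1 + 2 * (gg G S v * (gg G S v - 1)) := by
      nlinarith [sq_nonneg (gg G S v - 1)]
    have h3 := gg_mul G S v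
    have h4 := rr_nonneg G S v
    have h5 : gg G S v ^ 2 * rr G S v ≤ (1 + 2 * (gg G S v * (gg G S v - 1))) * rr G S v :=
      mul_le_mul_of_nonneg_right h2 h4
    have h6 : gg G S v * (gg G S v - 1) * rr G S v ≤ gg G S v * (gg G S v - 1) * (N / 256) :=
      mul_le_mul_of_nonneg_left h1.le h3
    linarith

theorem nAB : nA S + nB S = (Fintype.card V : ℝ) := by
  unfold nA nB
  rw [Finset.card_sdiff_of_subset (Finset.subset_univ S), Finset.card_univ,
    Nat.cast_sub (Finset.card_le_univ S)]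
  ring

end graph

end BowCountAux

open BowCountAux in
theorem bow : S_bow := by
  intro V _ G S N w l hC
  obtain ⟨hN, hw, hwbig, -, hI, -, -, hD, -⟩ := hC
  set n := min (nA S) (nB S) with hn
  set a := GA G S with ha
  set b := GB G S with hb
  have hAB : nA S + nB S = N := by rw [nAB S, hN]
  have hw0 : 0 < w := lt_of_lt_of_le (by norm_num) hwbig
  have hwN : w ≤ N / 10 ^ 15 := by
    rw [le_div_iff₀ (by norm_num), ← hw]
    nlinarith
  have hNbig : (10 : ℝ) ^ 30 ≤ N := by
    rw [← hw]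
    calc (10 : ℝ) ^ 30 = (10 ^ 15) ^ 2 := by norm_num
      _ ≤ w ^ 2 := by gcongr
  have hN1 : (1000000 : ℝ) ≤ N := le_trans (by norm_num) hNbig
  rw [abs_le] at hD
  have hn1 : N / 2 - 4 * w ≤ n := by
    rw [hn]
    refine le_min ?_ ?_ <;> linarith [hD.1, hD.2]
  have hn2 : n ≤ N / 2 := by
    rcases le_total (nA S) (nB S) with h | h
    · rw [hn, min_eq_left h]; linarith
    · rw [hn, min_eq_right h]; linarith
  have hnm : 0.4999 * N ≤ n := by
    have : 4 * w ≤ 0.0001 * N := by
      have : N / 10 ^ 15 ≤ 0.000025 * N := by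
        rw [div_le_iff₀ (by norm_num)]
        nlinarith
      linarith
    linarith
  set m := n - N / 128 with hm
  have hm1 : 0.49208 * N ≤ m := by rw [hm]; linarith
  have hm2 : m ≤ N / 2 := by rw [hm]; linarith
  obtain ⟨PA, PB, RA, RB, Y, X, hPA, hPB, hP, hRA, hRB, hR, hY, hXY, hX, hDA, hDB, hmain⟩ :=
    main G S m (by linarith) (by rw [hN])
  have ha0 : 0 ≤ a := Finset.sum_nonneg fun v _ => gg_nonneg G S v
  have hb0 : 0 ≤ b := Finset.sum_nonneg fun v _ => gg_nonneg G S v
  have hab : a + b ≤ 21 * N := by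
    rw [ha, hb, GAB]
    exact (GAB_le G S).trans hI
  have hP0 : 0 ≤ P2 G S := by rw [← hP]; linarith
  have hRR0 : 0 ≤ RR G S := Finset.sum_nonneg fun v _ => rr_nonneg G S v
  have hR2 := grr G S N hN
  have hX2 := ggrr G S N hN
  rw [← hR] at hR2
  set P := P2 G S with hPdef
  set R := RR G S with hRdef
  -- the five estimates
  have k1 : n * (a ^ 2 - 4 * PA - 2 * a) ≤ nB S * (a ^ 2 - 4 * PA - 2 * a) :=
    mul_le_mul_of_nonneg_right (min_le_right _ _) hDA
  have k2 : n * (b ^ 2 - 4 * PB - 2 * b) ≤ nA S * (b ^ 2 - 4 * PB - 2 * b) :=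
    mul_le_mul_of_nonneg_right (min_le_left _ _) hDB
  have k3 : 4 * a * RA + 4 * b * RB ≤ 4 * (a + b) * R + 84 / 512 * N ^ 2 * P := by
    have h1 : 4 * a * RA + 4 * b * RB ≤ 4 * (a + b) * (RA + RB) := by
      nlinarith [mul_nonneg ha0 hRB, mul_nonneg hb0 hRA]
    have h2 : 4 * (a + b) * (RA + RB) ≤ 4 * (a + b) * (R + N / 512 * P) :=
      mul_le_mul_of_nonneg_left hR2 (by linarith)
    have h3 : (a + b) * (N / 512 * P) ≤ 21 * N * (N / 512 * P) :=
      mul_le_mul_of_nonneg_right hab (by positivity)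
    linarith
  have k4 : n * (2 * a * b) - N * R - N ^ 2 / 128 * P ≤ 4 * (m - 2) * Y := by
    have h1 : n * Y ≤ 4 * (m - 2) * Y := by
      refine mul_le_mul_of_nonneg_right ?_ hY
      linarith
    have hn0 : 0 ≤ n := by linarith
    have h2 : n * (2 * a * b - 2 * X) ≤ n * Y := mul_le_mul_of_nonneg_left hXY hn0
    have h3 : n * X ≤ n * (R + N / 128 * P) := mul_le_mul_of_nonneg_left (hX.trans hX2) hn0
    have h4 : 2 * n * (R + N / 128 * P) ≤ N * (R + N / 128 * P) :=
      mul_le_mul_of_nonneg_right (by linarith) (by positivity)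
    linarith
  have k5 : (0.78 * N ^ 2 + 4 * n + 84 / 512 * N ^ 2 + N ^ 2 / 128) * P ≤
      4 * (m * (m - 1)) * P := by
    refine mul_le_mul_of_nonneg_right ?_ hP0
    have h1 : (0.49208 * N) ^ 2 ≤ m ^ 2 := by
      gcongr
    have h2 : 1000000 * N ≤ N ^ 2 := by
      rw [sq]; exact mul_le_mul_of_nonneg_right hN1 (by linarith)
    linarith
  have k6 : n * P = n * PA + n * PB := by rw [← hP]; ring
  linarith [k1, k2, k3, k4, k5, k6, hmain]

open BowCountAux in
theorem bow0 : S_bow0 := by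
  intro V _ G S N w l hC hRR hPP
  obtain ⟨hN, hw, hwbig, -, hI, -, -, hD, -⟩ := hC
  set n := min (nA S) (nB S) with hn
  set a := GA G S with ha
  set b := GB G S with hb
  have hAB : nA S + nB S = N := by rw [nAB S, hN]
  have hw0 : 0 < w := lt_of_lt_of_le (by norm_num) hwbig
  have hwN : w ≤ N / 10 ^ 15 := by
    rw [le_div_iff₀ (by norm_num), ← hw]
    nlinarith
  have hNbig : (10 : ℝ) ^ 30 ≤ N := by
    rw [← hw]
    calc (10 : ℝ) ^ 30 = (10 ^ 15) ^ 2 := by norm_num
      _ ≤ w ^ 2 := by gcongr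
  have hN1 : (1000000 : ℝ) ≤ N := le_trans (by norm_num) hNbig
  rw [abs_le] at hD
  have hn1 : N / 2 - 4 * w ≤ n := by
    rw [hn]
    refine le_min ?_ ?_ <;> linarith [hD.1, hD.2]
  have hnm : 0.4999 * N ≤ n := by
    have : 4 * w ≤ 0.0001 * N := by
      have : N / 10 ^ 15 ≤ 0.000025 * N := by
        rw [div_le_iff₀ (by norm_num)]
        nlinarith
      linarith
    linarith
  set m := n - N / 128 with hm
  have hm1 : 0.49208 * N ≤ m := by rw [hm]; linarith
  obtain ⟨PA, PB, RA, RB, Y, X, hPA, hPB, hP, hRA, hRB, hR, hY, hXY, hX, hDA, hDB, hmain⟩ :=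
    main G S m (by linarith) (by rw [hN])
  have ha0 : 0 ≤ a := Finset.sum_nonneg fun v _ => gg_nonneg G S v
  have hb0 : 0 ≤ b := Finset.sum_nonneg fun v _ => gg_nonneg G S v
  have hR2 := grr G S N hN
  have hX2 := ggrr G S N hN
  rw [← hR] at hR2
  rw [hRR, hPP] at hR2 hX2
  rw [hPP] at hP hmain
  have hPA0 : PA = 0 := by linarith
  have hPB0 : PB = 0 := by linarith
  have hRA0 : RA = 0 := by linarith
  have hRB0 : RB = 0 := by linarith
  rw [hPA0, hPB0, hRA0, hRB0] at hmain
  have h1 : 2 * a * b ≤ Y := by linarith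
  have h2 : 4 * (m - 2) * (2 * a * b) ≤ 4 * (m - 2) * Y :=
    mul_le_mul_of_nonneg_left h1 (by linarith)
  have h3 : 3.9 * N * (a * b) ≤ 4 * (m - 2) * (2 * a * b) := by
    have h4 : 3.9 * N ≤ 8 * (m - 2) := by linarith
    have h5 := mul_le_mul_of_nonneg_right h4 (mul_nonneg ha0 hb0)
    linarith
  linarith

end Pool.Agent.Bow
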