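import Pool.Agent.Bow.Stmts

/-! Bridge between the graph quantities and the numerical lemma, and the assembly. -/

namespace Pool.Agent.Bow

open Finset
open scoped Classical

variable {V : Type} [Fintype V]

lemma even_sum (f : V → V → ℝ) (R : V → V → Prop) (hs : ∀ u v, R u v → R v u)
    (hi : ∀ u, ¬ R u u) (h1 : ∀ u v, R u v → f u v = 1) (h0 : ∀ u v, ¬ R u v → f u v = 0) :
    ∃ k : ℕ, ∑ u, ∑ v, f u v = 2 * (k : ℝ) := by
  have hf : ∀ u v, f u v = if R u v then (1 : ℝ) else 0 := by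
    intro u v
    split_ifs with h
    · exact h1 u v h
    · exact h0 u v h
  simp only [hf]
  let H : SimpleGraph V :=
    { Adj := R, symm := ⟨fun u v h => hs u v h⟩, loopless := ⟨fun u h => hi u h⟩ }
  refine ⟨H.edgeFinset.card, ?_⟩
  have h1 := H.sum_degrees_eq_twice_card_edges
  have h2 : ∀ u, ∑ v, (if R u v then (1 : ℝ) else 0) = (H.degree u : ℝ) := by
    intro u
    rw [Finset.sum_boole, ← SimpleGraph.card_neighborFinset_eq_degree]
    congr 2
    ext v
    simp [H]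
  rw [Finset.sum_congr rfl (fun u _ => h2 u)]
  exact_mod_cast h1

lemma ad_nonneg (G : SimpleGraph V) (u v : V) : 0 ≤ ad G u v := by
  unfold ad; split_ifs <;> norm_num

lemma ad_le_one (G : SimpleGraph V) (u v : V) : ad G u v ≤ 1 := by
  unfold ad; split_ifs <;> norm_num

lemma op_nonneg (S : Finset V) (u v : V) : 0 ≤ op S u v := by
  unfold op; split_ifs <;> norm_num

lemma rr_nonneg (G : SimpleGraph V) (S : Finset V) (v : V) : 0 ≤ rr G S v :=
  Finset.sum_nonneg fun u _ => mul_nonneg (op_nonneg _ _ _) (by linarith [ad_le_one G v u])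

lemma rr_le_RR (G : SimpleGraph V) (S : Finset V) (v : V) : rr G S v ≤ RR G S :=
  Finset.single_le_sum (f := fun v => rr G S v) (fun u _ => rr_nonneg G S u) (Finset.mem_univ v)

lemma F_nonneg (G : SimpleGraph V) (S : Finset V) (u v : V) : 0 ≤ F G S u v := by
  unfold F; split_ifs <;> norm_num

lemma gg_nat (G : SimpleGraph V) (S : Finset V) (v : V) : ∃ d : ℕ, gg G S v = d := by
  unfold gg F
  exact ⟨_, by rw [Finset.sum_boole]⟩

lemma gg_nonneg (G : SimpleGraph V) (S : Finset V) (v : V) : 0 ≤ gg G S v :=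
  Finset.sum_nonneg fun u _ => F_nonneg G S v u

lemma GA_nonneg (G : SimpleGraph V) (S : Finset V) : 0 ≤ GA G S :=
  Finset.sum_nonneg fun u _ => gg_nonneg G S u

lemma GB_nonneg (G : SimpleGraph V) (S : Finset V) : 0 ≤ GB G S :=
  Finset.sum_nonneg fun u _ => gg_nonneg G S u

lemma GA_add_GB (G : SimpleGraph V) (S : Finset V) : GA G S + GB G S = ∑ v, gg G S v := by
  unfold GA GB
  rw [add_comm]
  exact Finset.sum_sdiff (Finset.subset_univ S)

lemma G_even (G : SimpleGraph V) (S : Finset V) : ∃ k : ℕ, GA G S + GB G S = 2 * (k : ℝ) := by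
  rw [GA_add_GB]
  refine even_sum (fun u v => F G S u v)
    (fun u v => ((u ∈ S ↔ v ∈ S) ∧ G.Adj u v ∧ ¬ bad G S u ∧ ¬ bad G S v)) ?_ ?_ ?_ ?_
  · rintro u v ⟨h1, h2, h3, h4⟩
    exact ⟨h1.symm, h2.symm, h4, h3⟩
  · rintro u ⟨_, h2, _⟩
    exact G.loopless.irrefl u h2
  · intro u v h
    exact if_pos h
  · intro u v h
    exact if_neg h

lemma RR_even (G : SimpleGraph V) (S : Finset V) : ∃ r : ℕ, RR G S = 2 * (r : ℝ) := by
  refine even_sum (fun u v => op S u v * (1 - ad G u v))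
    (fun u v => ¬ (u ∈ S ↔ v ∈ S) ∧ ¬ G.Adj u v) ?_ ?_ ?_ ?_
  · intro u v h
    exact ⟨fun h' => h.1 h'.symm, fun h' => h.2 h'.symm⟩
  · intro u h
    exact h.1 Iff.rfl
  · intro u v h
    unfold op ad
    rw [if_neg h.1, if_neg h.2]; norm_num
  · intro u v h
    unfold op ad
    by_cases h1 : (u ∈ S ↔ v ∈ S)
    · rw [if_pos h1, zero_mul]
    · by_cases h2 : G.Adj u v
      · rw [if_neg h1, if_pos h2]; norm_num
      · exact absurd ⟨h1, h2⟩ h

lemma P2_nat (G : SimpleGraph V) (S : Finset V) : ∃ P : ℕ, P2 G S = P := by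
  choose d hd using gg_nat G S
  refine ⟨∑ v, d v * (d v - 1), ?_⟩
  unfold P2
  push_cast
  refine Finset.sum_congr rfl fun v _ => ?_
  rw [hd v]
  rcases Nat.eq_zero_or_pos (d v) with h | h
  · rw [h]; simp
  · have : ((d v - 1 : ℕ) : ℝ) = (d v : ℝ) - 1 := by
      rw [Nat.cast_sub h]; norm_num
    rw [this]

lemma F_le (G : SimpleGraph V) (S : Finset V) (u v : V) : F G S u v ≤ sm S u v * ad G u v := by
  unfold F sm ad
  by_cases h : ((u ∈ S ↔ v ∈ S) ∧ G.Adj u v ∧ ¬ bad G S u ∧ ¬ bad G S v)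
  · rw [if_pos h, if_pos h.1, if_pos h.2.1]; norm_num
  · rw [if_neg h]
    split_ifs <;> norm_num

lemma gg_le_din (G : SimpleGraph V) (S : Finset V) (v : V) : gg G S v ≤ din G S v :=
  Finset.sum_le_sum fun u _ => F_le G S v u

lemma card_parts (S : Finset V) : nA S + nB S = (Fintype.card V : ℝ) := by
  unfold nA nB
  have h := Finset.card_sdiff_add_card_eq_card (Finset.subset_univ S)
  rw [Finset.card_univ] at h
  rw [← h]; push_cast; ring

lemma nat_parts (S : Finset V) : ∃ b : ℕ, nB S = (b : ℝ) ∧ S.card + b = Fintype.card V := by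
  refine ⟨(Finset.univ \ S).card, rfl, ?_⟩
  have h := Finset.card_sdiff_add_card_eq_card (Finset.subset_univ S)
  rw [Finset.card_univ] at h
  omega

/-- numerical consequences of a configuration -/
lemma bridge (hspec : S_spec) (hbow : S_bow) (hnum : S_num)
    (n q : ℕ) (G : SimpleGraph (Fin n)) (S : Finset (Fin n)) (w l : ℝ) (x : Fin n → ℝ)
    (hc : Cfg G S n w l) (hq : 2 ≤ q) (hq' : 4 * q ≤ n + 1)
    (hx0 : ∀ v, 0 ≤ x v) (hxp : ∃ v, 0 < x v) (hx : ∀ v, ∑ u, ad G v u * x u = l * x v)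
    (hl : ((n / 2 : ℕ) : ℝ) * ((n + 1) / 2 : ℕ) + 2 * q ≤ l ^ 2)
    (ht : tup G ≤ 4 * (q : ℝ) * (q - 1) * (n / 2 : ℕ)) :
    RR G S = 0 ∧ P2 G S = 0 ∧ GA G S + GB G S = 2 * q ∧ |nA S - nB S| ≤ 3 := by
  obtain ⟨k, hk⟩ := G_even G S
  obtain ⟨r, hr⟩ := RR_even G S
  obtain ⟨P, hP⟩ := P2_nat G S
  -- D
  obtain ⟨b, hnBb, hab⟩ := nat_parts S
  rw [Fintype.card_fin] at hab
  set a : ℕ := S.card with ha
  let D : ℕ := Int.natAbs ((a : ℤ) - b)
  have hnAa : nA S = a := rfl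
  have hDabs : (D : ℝ) = |nA S - nB S| := by
    rw [hnAa, hnBb]
    simp only [D]
    rw [Nat.cast_natAbs]
    push_cast
    rfl
  have hDpar : D % 2 = n % 2 := by omega
  have hN : (n : ℝ) = a + b := by rw [← hab]; push_cast; ring
  have hw := hc.hw
  have hwb := hc.hwbig
  have hw1 : (1 : ℝ) ≤ w := le_trans (by norm_num) hwb
  have hn0 : (0 : ℝ) < n := by rw [← hw]; positivity
  have hDsq : (D : ℝ) ^ 2 = ((a : ℝ) - b) ^ 2 := by rw [hDabs, sq_abs, hnAa, hnBb]
  have hprod : nA S * nB S = ((n : ℝ) ^ 2 - D ^ 2) / 4 := by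
    rw [hDsq, hnAa, hnBb, hN]; ring
  have hD0 : (0 : ℝ) ≤ D := Nat.cast_nonneg _
  have hmin : ((n : ℝ) - D) / 2 = min (nA S) (nB S) := by
    rw [hDabs, hnAa, hnBb, hN]
    rcases le_total (a : ℝ) b with h | h
    · rw [min_eq_left h, abs_of_nonpos (by linarith)]; ring
    · rw [min_eq_right h, abs_of_nonneg (by linarith)]; ring
  have hts : 4 * (((n / 2 : ℕ) : ℝ) * ((n + 1) / 2 : ℕ)) = (n : ℝ) ^ 2 - (n % 2 : ℕ) := by
    rcases Nat.mod_two_eq_zero_or_one n with h | h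
    · obtain ⟨m, hm⟩ : ∃ m, n = 2 * m := ⟨n / 2, by omega⟩
      have h1 : n / 2 = m := by omega
      have h2 : (n + 1) / 2 = m := by omega
      rw [h1, h2, h, hm]; push_cast; ring
    · obtain ⟨m, hm⟩ : ∃ m, n = 2 * m + 1 := ⟨n / 2, by omega⟩
      have h1 : n / 2 = m := by omega
      have h2 : (n + 1) / 2 = m + 1 := by omega
      rw [h1, h2, h, hm]; push_cast; ring
  have hGA0 := GA_nonneg G S
  have hGB0 := GB_nonneg G S
  have hk0 : (0 : ℝ) ≤ k := Nat.cast_nonneg _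
  have hP0 : (0 : ℝ) ≤ P := Nat.cast_nonneg _
  have hr0 : (0 : ℝ) ≤ r := Nat.cast_nonneg _
  have hl2 : (n : ℝ) / 2 ≤ l := hc.hl
  have hlpos : 0 < l := by linarith
  -- bounds on k and r
  have hkb : (k : ℝ) ≤ 10.5 * n := by
    have h1 : ∑ v, gg G S v ≤ ∑ v, din G S v := Finset.sum_le_sum fun v _ => gg_le_din G S v
    have h2 := hc.hI
    rw [← GA_add_GB, hk] at h1
    linarith
  have hrb : (r : ℝ) ≤ 16 * n := by
    have h2 := hc.hRR
    rw [hr] at h2
    linarith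
  -- the right hand side
  have hrhs : rhs G S n l ≤ ((n : ℝ) ^ 2 - D ^ 2) / 4 + 2 * k
      + 1.001 * (2 * k / n * D + (4 * k + 2 * P) / n + 4 * k ^ 2 / n ^ 2) + 0.001 := by
    unfold rhs
    rw [hprod, hP]
    have h1 : nB S / l * GA G S + nA S / l * GB G S ≤ 2 * k + 2 * k / n * D := by
      have hnA0 : 0 ≤ nA S := by rw [hnAa]; positivity
      have hnB0 : 0 ≤ nB S := by rw [hnBb]; positivity
      have h2 : nB S / l * GA G S + nA S / l * GB G S
          ≤ (nB S * GA G S + nA S * GB G S) * (2 / n) := by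
        have h3 : 1 / l ≤ 2 / n := by
          rw [div_le_div_iff₀ hlpos hn0]; linarith
        have h4 : 0 ≤ nB S * GA G S + nA S * GB G S := by positivity
        calc nB S / l * GA G S + nA S / l * GB G S
            = (nB S * GA G S + nA S * GB G S) * (1 / l) := by ring
          _ ≤ _ := mul_le_mul_of_nonneg_left h3 h4
      have h5 : nB S * GA G S + nA S * GB G S ≤ n * k + D * k := by
        have h6 : nB S ≤ ((n : ℝ) + D) / 2 := by
          rw [hDabs, hnAa, hnBb, hN]; linarith [neg_abs_le ((a : ℝ) - b)]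
        have h7 : nA S ≤ ((n : ℝ) + D) / 2 := by
          rw [hDabs, hnAa, hnBb, hN]; linarith [le_abs_self ((a : ℝ) - b)]
        have h8 : nB S * GA G S ≤ ((n : ℝ) + D) / 2 * GA G S := mul_le_mul_of_nonneg_right h6 hGA0
        have h9 : nA S * GB G S ≤ ((n : ℝ) + D) / 2 * GB G S := mul_le_mul_of_nonneg_right h7 hGB0
        calc nB S * GA G S + nA S * GB G S ≤ ((n : ℝ) + D) / 2 * (GA G S + GB G S) := by linarith
          _ = n * k + D * k := by rw [hk]; ring
      calc nB S / l * GA G S + nA S / l * GB G S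
          ≤ (nB S * GA G S + nA S * GB G S) * (2 / n) := h2
        _ ≤ (n * k + D * k) * (2 / n) := mul_le_mul_of_nonneg_right h5 (by positivity)
        _ = 2 * k + 2 * k / n * D := by field_simp
    have h10 : (GA G S + GB G S + P) * (2 / n) = (4 * k + 2 * P) / n := by
      rw [hk]; field_simp; ring
    have h11 : 4 * GA G S * GB G S / (n : ℝ) ^ 2 ≤ 4 * k ^ 2 / n ^ 2 := by
      apply div_le_div_of_nonneg_right _ (by positivity)
      have h12 : (GA G S + GB G S) ^ 2 = 4 * (k : ℝ) ^ 2 := by rw [hk]; ring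
      nlinarith [sq_nonneg (GA G S - GB G S)]
    have h13 : 0 ≤ 2 * (k : ℝ) / n * D := by positivity
    rw [h10]
    linarith
  have hS3 : ∀ c : ℝ, l ^ 2 + c * RR G S ≤ rhs G S n l →
      2 * (q : ℝ) + 2 * c * r + ((D : ℝ) ^ 2 - (n % 2 : ℕ)) / 4 ≤
      2 * k + 1.001 * (2 * k / n * D + (4 * k + 2 * P) / n + 4 * k ^ 2 / n ^ 2) + 0.002 := by
    intro c hcc
    rw [hr] at hcc
    have h1 : ((n / 2 : ℕ) : ℝ) * ((n + 1) / 2 : ℕ) = ((n : ℝ) ^ 2 - (n % 2 : ℕ)) / 4 := by linarith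
    rw [h1] at hl
    linarith
  have hsp := hspec (Fin n) G S n w l x hc hx0 hxp hx
  have hA1 := hS3 0.33 hsp.1
  have hA2 : 512 * r < n → 2 * (q : ℝ) + 1.98 * r + ((D : ℝ) ^ 2 - (n % 2 : ℕ)) / 4 ≤
      2 * k + 1.001 * (2 * k / n * D + (4 * k + 2 * P) / n + 4 * k ^ 2 / n ^ 2) + 0.002 := by
    intro hrn
    have h1 := hS3 0.99 (hsp.2 ?_)
    · linarith
    · intro v hv
      unfold bad at hv
      rw [Fintype.card_fin] at hv
      have h2 := rr_le_RR G S v
      rw [hr] at h2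
      have h3 : (512 : ℝ) * r < n := by exact_mod_cast hrn
      linarith
  have hB := hbow (Fin n) G S n w l hc
  rw [← hmin, hk, hP, hr] at hB
  have hB3 : (k : ℝ) * (k - 1) / 2 * ((n - D) / 2) + 0.0975 * n ^ 2 * P - (2 * k + n / 4) * r ≤
      (q : ℝ) * (q - 1) / 2 * (n / 2 : ℕ) := by
    nlinarith
  obtain ⟨e1, e2, e3, e4⟩ := hnum n q k r P D w hw hwb hq hq' (by rw [hDabs]; exact hc.hD) hDpar
    hkb hrb (by linarith) hA2 hB3
  refine ⟨?_, ?_, ?_, ?_⟩
  · rw [hr, e2]; norm_num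
  · rw [hP, e3]; norm_num
  · rw [hk, e1]
  · rw [← hDabs]; exact_mod_cast e4

end Pool.Agent.Bow
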