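import Pool.Agent.Bow.TupX

/-!
Module G of MP_b63b1f_co: the max cut.
-/

namespace Pool.Agent.Bow

open Finset
open scoped Classical

/-- indicator of a finset -/
noncomputable def chi {V : Type*} (S : Finset V) (v : V) : ℝ := if v ∈ S then 1 else 0

theorem sm_eq {V : Type*} (S : Finset V) (u v : V) :
    sm S u v = 1 - chi S u - chi S v + 2 * (chi S u * chi S v) := by
  unfold sm chi
  by_cases hu : u ∈ S <;> by_cases hv : v ∈ S <;> simp [hu, hv]
  norm_num

theorem op_eq {V : Type*} (S : Finset V) (u v : V) :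
    op S u v = chi S u + chi S v - 2 * (chi S u * chi S v) := by
  unfold op chi
  by_cases hu : u ∈ S <;> by_cases hv : v ∈ S <;> simp [hu, hv]
  norm_num

theorem sm_add_op {V : Type*} (S : Finset V) (u v : V) : sm S u v + op S u v = 1 := by
  rw [sm_eq, op_eq]; ring

theorem sm_symm' {V : Type*} (S : Finset V) (u v : V) : sm S u v = sm S v u := by
  rw [sm_eq, sm_eq]; ring

theorem op_symm' {V : Type*} (S : Finset V) (u v : V) : op S u v = op S v u := by
  rw [op_eq, op_eq]; ring

theorem ad_self' {V : Type*} [Fintype V] (G : SimpleGraph V) (v : V) : ad G v v = 0 := by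
  unfold ad; simp

theorem sum_chi {V : Type*} [Fintype V] (S : Finset V) : ∑ v, chi S v = nA S := by
  unfold chi nA
  simp

theorem nA_add_nB {V : Type*} [Fintype V] (S : Finset V) :
    nA S + nB S = (Fintype.card V : ℝ) := by
  unfold nA nB
  rw [Finset.card_sdiff_of_subset (Finset.subset_univ S), Finset.card_univ,
    Nat.cast_sub (Finset.card_le_univ S)]
  ring

/-- ordered pairs inside the parts -/
noncomputable def II {V : Type*} [Fintype V] (G : SimpleGraph V) (S : Finset V) : ℝ :=
  ∑ v, din G S v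

theorem RR_eq {V : Type*} [Fintype V] (G : SimpleGraph V) (S : Finset V) :
    RR G S = 2 * (nA S * nB S) - (YY G - II G S) := by
  have h1 : ∑ v, ∑ u, op S v u = 2 * (nA S * nB S) := by
    have e : ∀ v u, op S v u = chi S v * (1 - 2 * chi S u) + chi S u := by
      intro v u; rw [op_eq]; ring
    have e1 : ∀ v, ∑ u, op S v u = chi S v * ((Fintype.card V : ℝ) - 2 * nA S) + nA S := by
      intro v
      rw [Finset.sum_congr rfl fun u _ => e v u, Finset.sum_add_distrib, ← Finset.mul_sum,
        Finset.sum_sub_distrib, ← Finset.mul_sum, sum_chi]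
      simp
    rw [Finset.sum_congr rfl fun v _ => e1 v, Finset.sum_add_distrib, ← Finset.sum_mul,
      sum_chi]
    simp only [Finset.sum_const, Finset.card_univ, nsmul_eq_mul]
    rw [← nA_add_nB S]
    ring
  have h2 : ∑ v, ∑ u, (op S v u * (1 - ad G v u)) = ∑ v, ∑ u, op S v u -
      (∑ v, ∑ u, ad G v u - ∑ v, ∑ u, sm S v u * ad G v u) := by
    rw [← Finset.sum_sub_distrib, ← Finset.sum_sub_distrib]
    refine Finset.sum_congr rfl fun v _ => ?_
    rw [← Finset.sum_sub_distrib, ← Finset.sum_sub_distrib]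
    refine Finset.sum_congr rfl fun u _ => ?_
    have := sm_add_op S v u
    have h3 : sm S v u = 1 - op S v u := by linarith
    rw [h3]
    ring
  unfold RR rr II din YY
  rw [h2, h1]

/-- Moving a vertex to the other side. -/
theorem II_move {V : Type*} [Fintype V] (G : SimpleGraph V) (S : Finset V) (v : V) :
    ∃ S' : Finset V, II G S' = II G S - 2 * din G S v + 2 * dout G S v := by
  refine ⟨if v ∈ S then S.erase v else insert v S, ?_⟩
  set S' : Finset V := if v ∈ S then S.erase v else insert v S with hS'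
  have hchi : ∀ u, u ≠ v → chi S' u = chi S u := by
    intro u hu
    unfold chi
    by_cases hv : v ∈ S
    · simp [hS', hv, hu]
    · simp [hS', hv, hu]
  have hchiv : chi S' v = 1 - chi S v := by
    unfold chi
    by_cases hv : v ∈ S
    · simp [hS', hv]
    · simp [hS', hv]
  have hpt : ∀ u x, sm S' u x * ad G u x = sm S u x * ad G u x
      + (if u = v then (op S v x - sm S v x) * ad G v x else 0)
      + (if x = v then (op S v u - sm S v u) * ad G v u else 0) := by
    intro u x
    by_cases hu : u = v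
    · subst hu
      by_cases hx : x = u
      · subst hx
        rw [ad_self']
        simp
      · rw [if_pos rfl, if_neg hx, sm_eq S', hchi x hx, hchiv, op_eq, sm_eq]
        ring
    · by_cases hx : x = v
      · subst hx
        rw [if_neg hu, if_pos rfl, sm_eq S', hchi u hu, hchiv, op_eq, sm_eq, sm_eq,
          ad_symm' G x u]
        ring
      · rw [if_neg hu, if_neg hx, sm_eq S', hchi u hu, hchi x hx, sm_eq]
        ring
  unfold II din
  rw [Finset.sum_congr rfl fun u _ => Finset.sum_congr rfl fun x _ => hpt u x]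
  simp only [Finset.sum_add_distrib]
  have e1 : ∑ u, ∑ x, (if u = v then (op S v x - sm S v x) * ad G v x else 0)
      = ∑ x, (op S v x - sm S v x) * ad G v x := by
    rw [Finset.sum_comm]
    refine Finset.sum_congr rfl fun x _ => ?_
    rw [Finset.sum_ite_eq' Finset.univ v]
    simp
  have e2 : ∑ u, ∑ x, (if x = v then (op S v u - sm S v u) * ad G v u else 0)
      = ∑ x, (op S v x - sm S v x) * ad G v x := by
    refine Finset.sum_congr rfl fun u _ => ?_
    rw [Finset.sum_ite_eq' Finset.univ v]
    simp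
  have e3 : ∑ x, (op S v x - sm S v x) * ad G v x = dout G S v - ∑ u, sm S v u * ad G v u := by
    unfold dout
    rw [← Finset.sum_sub_distrib]
    exact Finset.sum_congr rfl fun x _ => by ring
  rw [e1, e2, e3]
  ring

theorem II_nbhd {V : Type*} [Fintype V] (G : SimpleGraph V) (u : V) :
    II G (Finset.univ.filter fun v => G.Adj u v) = YY G - 2 * (∑ v, ad G u v * ∑ w, ad G v w)
      + 2 * ∑ v, ∑ w, ad G u v * ad G v w * ad G u w := by
  have hchi : ∀ v, chi (Finset.univ.filter fun v => G.Adj u v) v = ad G u v := by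
    intro v
    unfold chi ad
    simp
  have h1 : ∀ v w, sm (Finset.univ.filter fun v => G.Adj u v) v w * ad G v w
      = ad G v w - ad G u v * ad G v w - ad G u w * ad G v w
        + 2 * (ad G u v * ad G v w * ad G u w) := by
    intro v w
    rw [sm_eq, hchi, hchi]
    ring
  unfold II din YY
  rw [Finset.sum_congr rfl fun v _ => Finset.sum_congr rfl fun w _ => h1 v w]
  simp only [Finset.sum_add_distrib, Finset.sum_sub_distrib, ← Finset.mul_sum]
  have h2 : ∑ v, ∑ w, ad G u w * ad G v w = ∑ v, ad G u v * ∑ w, ad G v w := by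
    rw [Finset.sum_comm]
    refine Finset.sum_congr rfl fun v _ => ?_
    rw [Finset.mul_sum]
    exact Finset.sum_congr rfl fun w _ => by rw [ad_symm' G w v]
  rw [h2]
  ring

theorem cut_exists : S_cut := by
  intro V _ G N w l hN hw hwb hl htr hX
  have hNbig : (10 : ℝ) ^ 30 ≤ N := by
    rw [← hw]
    calc (10 : ℝ) ^ 30 = ((10 : ℝ) ^ 15) ^ 2 := by norm_num
      _ ≤ w ^ 2 := by gcongr
  have hNpos : 0 < N := lt_of_lt_of_le (by norm_num) hNbig
  have hlpos : 0 < l := by linarith
  -- lower bound for Y
  have hY : N ^ 2 / 2 - 10 * N ≤ YY G := by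
    by_contra hcon
    push Not at hcon
    have h1 : l * YY G ≤ l * (N ^ 2 / 2 - 10 * N) := by
      exact mul_le_mul_of_nonneg_left hcon.le hlpos.le
    have h2 : 2 * l ^ 3 < 5 * N ^ 2 + l * (N ^ 2 / 2 - 10 * N) := by
      have : l * YY G < l * (N ^ 2 / 2 - 10 * N) := mul_lt_mul_of_pos_left hcon hlpos
      linarith
    have h3 : N ^ 2 / 2 * l ≤ 2 * l ^ 3 := by
      have : N ^ 2 / 4 ≤ l ^ 2 := by nlinarith
      nlinarith
    nlinarith
  -- averaging over neighbourhoods
  have hsumI : ∑ u, II G (Finset.univ.filter fun v => G.Adj u v) ≤ N * (20 * N) := by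
    rw [Finset.sum_congr rfl fun u _ => II_nbhd G u]
    rw [Finset.sum_add_distrib, Finset.sum_sub_distrib, ← Finset.mul_sum, ← Finset.mul_sum]
    have e1 : ∑ _u : V, YY G = N * YY G := by
      rw [Finset.sum_const, Finset.card_univ, nsmul_eq_mul, hN]
    have e2 : ∑ u, ∑ v, ad G u v * ∑ w, ad G v w = ∑ v, (∑ w, ad G v w) ^ 2 := by
      rw [Finset.sum_comm]
      refine Finset.sum_congr rfl fun v _ => ?_
      rw [← Finset.sum_mul, sq]
      congr 1
      exact Finset.sum_congr rfl fun w _ => ad_symm' G w v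
    have e3 : ∑ u, ∑ v, ∑ w, ad G u v * ad G v w * ad G u w = XX G := rfl
    rw [e1, e2, e3]
    have hcs : (YY G) ^ 2 ≤ N * ∑ v, (∑ w, ad G v w) ^ 2 := by
      have := sq_sum_le_card_mul_sum_sq (s := (Finset.univ : Finset V))
        (f := fun v => ∑ w, ad G v w)
      rw [Finset.card_univ, hN] at this
      exact this
    have hQ : (YY G) ^ 2 / N ≤ ∑ v, (∑ w, ad G v w) ^ 2 := by
      rw [div_le_iff₀ hNpos]
      linarith
    have h4 : N * YY G - 2 * ((YY G) ^ 2 / N) ≤ 10 * N ^ 2 := by
      have h5 : N * YY G - 2 * ((YY G) ^ 2 / N) = YY G * (N ^ 2 - 2 * YY G) / N := by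
        field_simp
      rw [h5, div_le_iff₀ hNpos]
      have h6 : N ^ 2 - 2 * YY G ≤ 20 * N := by linarith
      have h7 : 0 ≤ YY G := by nlinarith
      by_cases h8 : YY G ≤ N ^ 2 / 2
      · calc YY G * (N ^ 2 - 2 * YY G) ≤ YY G * (20 * N) :=
              mul_le_mul_of_nonneg_left h6 h7
          _ ≤ (N ^ 2 / 2) * (20 * N) := by
              apply mul_le_mul_of_nonneg_right h8
              linarith
          _ = 10 * N ^ 2 * N := by ring
      · push Not at h8
        have h9 : YY G * (N ^ 2 - 2 * YY G) ≤ 0 :=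
          mul_nonpos_of_nonneg_of_nonpos h7 (by linarith)
        have : 0 ≤ 10 * N ^ 2 * N := by positivity
        linarith
    linarith
  obtain ⟨S, _, hS⟩ := Finset.exists_min_image (Finset.univ : Finset (Finset V)) (II G)
    ⟨∅, Finset.mem_univ _⟩
  have hVne : Nonempty V := by
    by_contra hcon
    rw [not_nonempty_iff] at hcon
    have : (Fintype.card V : ℝ) = 0 := by
      rw [Fintype.card_eq_zero]; norm_num
    rw [hN] at this
    linarith
  have hI20 : II G S ≤ 20 * N := by
    have h1 : ∑ _u : V, II G S ≤ ∑ u, II G (Finset.univ.filter fun v => G.Adj u v) :=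
      Finset.sum_le_sum fun u _ => hS _ (Finset.mem_univ _)
    rw [Finset.sum_const, Finset.card_univ, nsmul_eq_mul, hN] at h1
    have h2 := h1.trans hsumI
    exact le_of_mul_le_mul_left h2 hNpos
  have hn : nA S + nB S = N := by rw [nA_add_nB, hN]
  have hRReq := RR_eq G S
  have hRR0 : 0 ≤ RR G S := by
    unfold RR rr
    refine Finset.sum_nonneg fun v _ => Finset.sum_nonneg fun u _ => mul_nonneg ?_ ?_
    · unfold op; split_ifs <;> norm_num
    · have := ad_le_one' G v u
      linarith
  refine ⟨S, ?_, ?_, ?_, ?_⟩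
  · have : ∑ v, din G S v = II G S := rfl
    rw [this]
    linarith
  · intro v
    obtain ⟨S', hS'⟩ := II_move G S v
    have := hS S' (Finset.mem_univ _)
    linarith
  · have h1 : nA S * nB S ≤ N ^ 2 / 4 := by nlinarith [sq_nonneg (nA S - nB S)]
    linarith
  · have h1 : (nA S - nB S) ^ 2 ≤ 64 * N := by
      have : (nA S - nB S) ^ 2 = (nA S + nB S) ^ 2 - 4 * (nA S * nB S) := by ring
      rw [this, hn]
      linarith
    have hw0 : 0 ≤ w := le_trans (by norm_num) hwb
    rw [← hw] at h1
    have h2 : (nA S - nB S) ^ 2 ≤ (8 * w) ^ 2 := by nlinarith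
    exact abs_le_of_sq_le_sq h2 (by linarith)

end Pool.Agent.Bow
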