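import Pool.Agent.Bow.Stmts

/-!
Module N of MP_b63b1f_co: the final configuration.
-/

namespace Pool.Agent.Bow

open Finset
open scoped Classical

namespace FinAux

theorem ad_nonneg {V : Type} (G : SimpleGraph V) (u v : V) : 0 ≤ ad G u v := by
  unfold ad; split_ifs <;> norm_num

theorem ad_eq_one {V : Type} (G : SimpleGraph V) {u v : V} (h : G.Adj u v) : ad G u v = 1 := by
  unfold ad; rw [if_pos h]

theorem ad_eq_zero {V : Type} (G : SimpleGraph V) {u v : V} (h : ¬ G.Adj u v) : ad G u v = 0 := by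
  unfold ad; rw [if_neg h]

/-- a sum over the neighbours of a matched vertex -/
theorem sum_matched {V : Type} [Fintype V] (G : SimpleGraph V) (S : Finset V)
    (hdeg : ∀ u ∈ S, ∀ v ∈ S, ∀ v' ∈ S, G.Adj u v → G.Adj u v' → v = v') {u v : V} (hu : u ∈ S)
    (hv : v ∈ S) (h : G.Adj u v) (f : V → ℝ) : ∑ v' ∈ S, ad G u v' * f v' = f v := by
  rw [Finset.sum_eq_single v]
  · rw [ad_eq_one G h, one_mul]
  · intro b hb hbv
    rw [ad_eq_zero G (fun hb' => hbv (hdeg u hu b hb v hv hb' h)), zero_mul]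
  · intro h'; exact absurd hv h'

theorem core (hI : S_iso) (V : Type) [Fintype V] (G : SimpleGraph V) (S : Finset V) (n q : ℕ)
    (l θ : ℝ) (x : V → ℝ) (hn : Fintype.card V = n) (hq : 2 ≤ q) (hl : 1 < l)
    (hcross : ∀ u ∈ S, ∀ v, v ∉ S → G.Adj u v)
    (hB : ∀ u, u ∉ S → ∀ v, v ∉ S → ¬ G.Adj u v)
    (hdeg : ∀ u ∈ S, ∀ v ∈ S, ∀ v' ∈ S, G.Adj u v → G.Adj u v' → v = v')
    (hsum : ∑ u ∈ S, ∑ v ∈ S, ad G u v = 2 * q)
    (hx0 : ∀ v, 0 ≤ x v) (hx1 : ∃ v, 0 < x v) (hx : ∀ v, ∑ u, ad G v u * x u = l * x v)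
    (hθ1 : 1 < θ) (hθ2 : ((n / 2 : ℕ) : ℝ) * ((n + 1) / 2 : ℕ) ≤ θ ^ 2)
    (hθ3 : θ ^ 2 * (θ - 1) =
      ((n / 2 : ℕ) : ℝ) * ((n + 1) / 2 : ℕ) * (θ - 1) + 2 * q * (n / 2 : ℕ))
    (hθl : θ ≤ l) (hle : (Finset.univ \ S).card ≤ n / 2) :
    Nonempty (G ≃g K ((n + 1) / 2) (n / 2) q) := by
  have hcard : S.card + (Finset.univ \ S).card = n := by
    rw [← hn, ← Finset.card_univ, add_comm]
    exact Finset.card_sdiff_add_card_eq_card (Finset.subset_univ S)
  obtain ⟨SA, hSA⟩ : ∃ SA, SA = ∑ u ∈ S, x u := ⟨_, rfl⟩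
  obtain ⟨SB, hSB⟩ : ∃ SB, SB = ∑ u ∈ Finset.univ \ S, x u := ⟨_, rfl⟩
  have hsplit : ∀ f : V → ℝ, ∑ u, f u = ∑ u ∈ S, f u + ∑ u ∈ Finset.univ \ S, f u := by
    intro f
    rw [add_comm]
    exact (Finset.sum_sdiff (Finset.subset_univ S)).symm
  -- vertices outside S
  have hout : ∀ v, v ∉ S → l * x v = SA := by
    intro v hv
    rw [← hx v, hsplit, hSA]
    have h1 : ∑ u ∈ Finset.univ \ S, ad G v u * x u = 0 := by
      refine Finset.sum_eq_zero fun u hu => ?_
      rw [ad_eq_zero G (hB v hv u (Finset.mem_sdiff.mp hu).2), zero_mul]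
    rw [h1, add_zero]
    refine Finset.sum_congr rfl fun u hu => ?_
    rw [ad_eq_one G (hcross u hu v hv).symm, one_mul]
  have hin0 : ∀ u ∈ S, l * x u = ∑ v ∈ S, ad G u v * x v + SB := by
    intro u hu
    rw [← hx u, hsplit, hSB]
    congr 1
    refine Finset.sum_congr rfl fun v hv => ?_
    rw [ad_eq_one G (hcross u hu v (Finset.mem_sdiff.mp hv).2), one_mul]
  have hin : ∀ u ∈ S, x u * (l * (l - 1)) = SB * (l - 1) + (∑ v ∈ S, ad G u v) * SB := by
    intro u hu
    by_cases h : ∃ v ∈ S, G.Adj u v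
    · obtain ⟨v, hv, huv⟩ := h
      have h1 := hin0 u hu
      have h2 := hin0 v hv
      rw [sum_matched G S hdeg hu hv huv x] at h1
      rw [sum_matched G S hdeg hv hu huv.symm x] at h2
      have h3 : ∑ v' ∈ S, ad G u v' = 1 := by
        have := sum_matched G S hdeg hu hv huv (fun _ => 1)
        simpa using this
      rw [h3]
      have h4 : x v = x u := by
        have : (l + 1) * (x v - x u) = 0 := by linarith
        rcases mul_eq_zero.mp this with h | h
        · linarith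
        · linarith
      rw [h4] at h1
      have h5 : x u * (l - 1) = SB := by linarith
      calc x u * (l * (l - 1)) = l * (x u * (l - 1)) := by ring
        _ = l * SB := by rw [h5]
        _ = SB * (l - 1) + 1 * SB := by ring
    · have h0 : ∀ v ∈ S, ad G u v = 0 := fun v hv => ad_eq_zero G fun h' => h ⟨v, hv, h'⟩
      have h1 := hin0 u hu
      rw [Finset.sum_eq_zero (fun v hv => by rw [h0 v hv, zero_mul]), zero_add] at h1
      rw [Finset.sum_eq_zero h0, zero_mul, add_zero, ← h1]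
      ring
  have hA : SA * (l * (l - 1)) = S.card * (SB * (l - 1)) + 2 * q * SB := by
    have h1 : ∑ u ∈ S, (∑ v ∈ S, ad G u v) * SB = 2 * q * SB := by rw [← Finset.sum_mul, hsum]
    rw [hSA, Finset.sum_mul, Finset.sum_congr rfl hin, Finset.sum_add_distrib, h1,
      Finset.sum_const, nsmul_eq_mul]
  have hBB : l * SB = (Finset.univ \ S).card * SA := by
    rw [hSB, Finset.mul_sum,
      Finset.sum_congr rfl (fun v hv => hout v (Finset.mem_sdiff.mp hv).2), Finset.sum_const,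
      nsmul_eq_mul]
  have hSBne : SB ≠ 0 := by
    intro h0
    have hA0 : SA = 0 := by
      rw [h0] at hA
      have : SA * (l * (l - 1)) = 0 := by rw [hA]; ring
      rcases mul_eq_zero.mp this with h | h
      · exact h
      · exfalso
        have : 0 < l * (l - 1) := mul_pos (by linarith) (by linarith)
        linarith
    obtain ⟨v, hv⟩ := hx1
    by_cases hvS : v ∈ S
    · have h1 := (Finset.sum_eq_zero_iff_of_nonneg (fun u _ => hx0 u)).mp (hSA.symm.trans hA0) v hvS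
      linarith
    · have h1 := hout v hvS
      rw [hA0] at h1
      have : 0 < l * x v := mul_pos (by linarith) hv
      linarith
  obtain ⟨a, ha⟩ : ∃ a, a = S.card := ⟨_, rfl⟩
  obtain ⟨b, hb⟩ : ∃ b, b = (Finset.univ \ S).card := ⟨_, rfl⟩
  rw [← ha, ← hb] at hcard
  rw [← ha] at hA
  rw [← hb] at hBB hle
  have key : l ^ 2 * (l - 1) = (a : ℝ) * b * (l - 1) + 2 * q * b := by
    have h1 : SB * (l ^ 2 * (l - 1)) = SB * ((a : ℝ) * b * (l - 1) + 2 * q * b) := by
      calc SB * (l ^ 2 * (l - 1)) = (l * SB) * (l * (l - 1)) := by ring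
        _ = b * (SA * (l * (l - 1))) := by rw [hBB]; ring
        _ = SB * ((a : ℝ) * b * (l - 1) + 2 * q * b) := by rw [hA]; ring
    exact mul_left_cancel₀ hSBne h1
  have hbt : b = n / 2 := by
    by_contra hne
    have hlt : b + 1 ≤ n / 2 := by omega
    obtain ⟨t, ht⟩ : ∃ t, t = n / 2 := ⟨_, rfl⟩
    obtain ⟨s, hs⟩ : ∃ s, s = (n + 1) / 2 := ⟨_, rfl⟩
    have hst : s + t = n := by omega
    have hts : t ≤ s := by omega
    rw [← ht] at hlt hθ2 hθ3
    rw [← hs] at hθ2 hθ3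
    have hab : a * b + 1 ≤ t * s := by
      obtain ⟨d, rfl⟩ : ∃ d, t = b + 1 + d := ⟨t - (b + 1), by omega⟩
      obtain rfl : a = s + 1 + d := by omega
      obtain ⟨e, rfl⟩ : ∃ e, s = b + 1 + d + e := ⟨s - (b + 1 + d), by omega⟩
      have : (b + 1 + d) * (b + 1 + d + e) =
        (b + 1 + d + e + 1 + d) * b + 1 + (2 * d + e + d * d + d * e) := by ring
      omega
    have hab' : (a : ℝ) * b + 1 ≤ t * s := by exact_mod_cast hab
    have hlt' : (b : ℝ) + 1 ≤ t := by exact_mod_cast hlt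
    have hq' : (2 : ℝ) ≤ q := by exact_mod_cast hq
    -- monotonicity
    have hmono : (θ ^ 2 - (t : ℝ) * s) * (θ - 1) ≤ (l ^ 2 - (t : ℝ) * s) * (l - 1) := by
      have hsq : θ ^ 2 ≤ l ^ 2 := pow_le_pow_left₀ (by linarith) hθl 2
      apply mul_le_mul
      · linarith
      · linarith
      · linarith
      · linarith
    have h1 : (θ ^ 2 - (t : ℝ) * s) * (θ - 1) = 2 * q * t := by
      rw [sub_mul, hθ3]; ring
    have h2 : (l ^ 2 - (t : ℝ) * s) * (l - 1) = ((a : ℝ) * b - t * s) * (l - 1) + 2 * q * b := by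
      rw [sub_mul, key]; ring
    have h3 : ((a : ℝ) * b - t * s) * (l - 1) ≤ 0 :=
      mul_nonpos_of_nonpos_of_nonneg (by linarith) (by linarith)
    have h4 : 2 * (q : ℝ) * b < 2 * q * t := mul_lt_mul_of_pos_left (by linarith) (by linarith)
    linarith
  have hat : a = (n + 1) / 2 := by omega
  subst hat
  exact hI V G S ((n + 1) / 2) (n / 2) q ha.symm (by rw [← hb, hbt]) hcross hB hdeg hsum

/-- everything known about one side of the cut -/
theorem side {V : Type} [Fintype V] (G : SimpleGraph V) (T : Finset V) (g : V → ℝ)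
    (hg : ∀ v ∈ T, g v = ∑ u ∈ T, ad G v u) (hg1 : ∀ v, g v * (g v - 1) = 0) :
    (∀ u ∈ T, ∀ v ∈ T, ∀ v' ∈ T, G.Adj u v → G.Adj u v' → v = v') ∧
    ((∀ u ∈ T, ∀ v ∈ T, ¬ G.Adj u v) ∧ ∑ v ∈ T, g v = 0 ∨ 2 ≤ ∑ v ∈ T, g v) := by
  have hle : ∀ v, g v ≤ 1 := by
    intro v
    rcases mul_eq_zero.mp (hg1 v) with h | h <;> linarith
  have hnn : ∀ v ∈ T, 0 ≤ g v := by
    intro v hv
    rw [hg v hv]
    exact Finset.sum_nonneg fun u _ => ad_nonneg G v u
  have hadj : ∀ u ∈ T, ∀ v ∈ T, G.Adj u v → 1 ≤ g u := by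
    intro u hu v hv h
    rw [hg u hu, ← ad_eq_one G h]
    exact Finset.single_le_sum (f := fun v => ad G u v) (fun w _ => ad_nonneg G u w) hv
  refine ⟨?_, ?_⟩
  · intro u hu v hv v' hv' h h'
    by_contra hne
    have h1 := hle u
    have h2 : ∑ w ∈ ({v, v'} : Finset V), ad G u w ≤ ∑ w ∈ T, ad G u w := by
      refine Finset.sum_le_sum_of_subset_of_nonneg ?_ fun w _ _ => ad_nonneg G u w
      intro w hw
      rw [Finset.mem_insert, Finset.mem_singleton] at hw
      rcases hw with rfl | rfl <;> assumption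
    rw [Finset.sum_pair hne, ad_eq_one G h, ad_eq_one G h', ← hg u hu] at h2
    linarith
  · by_cases h : ∃ u ∈ T, ∃ v ∈ T, G.Adj u v
    · right
      obtain ⟨u, hu, v, hv, huv⟩ := h
      have h2 : ∑ w ∈ ({u, v} : Finset V), g w ≤ ∑ w ∈ T, g w := by
        refine Finset.sum_le_sum_of_subset_of_nonneg ?_ fun w hw _ => hnn w hw
        intro w hw
        rw [Finset.mem_insert, Finset.mem_singleton] at hw
        rcases hw with rfl | rfl <;> assumption
      rw [Finset.sum_pair huv.ne] at h2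
      have h3 := hadj u hu v hv huv
      have h4 := hadj v hv u hu huv.symm
      linarith
    · left
      have h' : ∀ u ∈ T, ∀ v ∈ T, ¬ G.Adj u v := fun u hu v hv huv => h ⟨u, hu, v, hv, huv⟩
      refine ⟨h', Finset.sum_eq_zero fun u hu => ?_⟩
      rw [hg u hu]
      exact Finset.sum_eq_zero fun v hv => ad_eq_zero G (h' u hu v hv)

theorem numeric (n q A B tp na nb m : ℝ) (hn : 1000 ≤ n) (hq : 2 ≤ q) (hqn : 4 * q ≤ n + 1)
    (hA : 2 ≤ A) (hB : 2 ≤ B) (hAB : B = 2 * q - A) (hna : (n - 3) / 2 ≤ na)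
    (hnb : (n - 3) / 2 ≤ nb) (hm : m ≤ n / 2)
    (hbow : nb * (A * (A - 2)) + na * (B * (B - 2)) + 3.9 * n * (A * B) ≤ tp)
    (htup : tp ≤ 4 * q * (q - 1) * m) : False := by
  have e1 : (n - 3) / 2 * (A * (A - 2)) ≤ nb * (A * (A - 2)) :=
    mul_le_mul_of_nonneg_right hnb (mul_nonneg (by linarith) (by linarith))
  have e2 : (n - 3) / 2 * (B * (B - 2)) ≤ na * (B * (B - 2)) :=
    mul_le_mul_of_nonneg_right hna (mul_nonneg (by linarith) (by linarith))
  have hqq : 0 ≤ 4 * q * (q - 1) := mul_nonneg (by linarith) (by linarith)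
  have e3 : 4 * q * (q - 1) * m ≤ 4 * q * (q - 1) * (n / 2) := mul_le_mul_of_nonneg_left hm hqq
  have e4 : A * (A - 2) + B * (B - 2) = 4 * (q * (q - 1)) - 2 * (A * B) := by
    rw [hAB]; ring
  have e5 : 4 * (q - 1) ≤ A * B := by
    have h := mul_nonneg (sub_nonneg.mpr hA) (sub_nonneg.mpr hB)
    have h2 : (A - 2) * (B - 2) = A * B - 4 * (q - 1) := by rw [hAB]; ring
    linarith
  have e6 : (n - 3) / 2 * (A * (A - 2) + B * (B - 2)) + 3.9 * n * (A * B) ≤
      4 * q * (q - 1) * (n / 2) := by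
    rw [mul_add]; linarith
  rw [e4] at e6
  have e7 : 2.9 * n * (A * B) ≤ 6 * (q * (q - 1)) := by
    have h : (n - 3) / 2 * (4 * (q * (q - 1)) - 2 * (A * B)) + 3.9 * n * (A * B) -
        4 * q * (q - 1) * (n / 2) = 2.9 * n * (A * B) + 3 * (A * B) - 6 * (q * (q - 1)) := by ring
    linarith
  have e8 : 2.9 * n * (4 * (q - 1)) ≤ 2.9 * n * (A * B) :=
    mul_le_mul_of_nonneg_left e5 (by linarith)
  have e9 : (q - 1) * (11.6 * n - 6 * q) ≤ 0 := by
    have h : (q - 1) * (11.6 * n - 6 * q) = 2.9 * n * (4 * (q - 1)) - 6 * (q * (q - 1)) := by ring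
    linarith
  have e10 : 0 < (q - 1) * (11.6 * n - 6 * q) := mul_pos (by linarith) (by linarith)
  linarith

end FinAux

open FinAux in
/-- Module N, for an arbitrary vertex set. -/
theorem final_gen (h0 : S_bow0) (hI : S_iso) (V : Type) [Fintype V] (n q : ℕ)
    (hVn : Fintype.card V = n) (G : SimpleGraph V) (S : Finset V) (w l θ : ℝ)
    (x : V → ℝ) (hC : Cfg G S n w l) (hq : 2 ≤ q) (hqn : 4 * q ≤ n + 1)
    (hx0 : ∀ v, 0 ≤ x v) (hx1 : ∃ v, 0 < x v) (hx : ∀ v, ∑ u, ad G v u * x u = l * x v)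
    (hRR : RR G S = 0) (hP2 : P2 G S = 0) (hG : GA G S + GB G S = 2 * q)
    (hD : |nA S - nB S| ≤ 3)
    (hθ1 : 1 < θ) (hθ2 : ((n / 2 : ℕ) : ℝ) * ((n + 1) / 2 : ℕ) ≤ θ ^ 2)
    (hθ3 : θ ^ 2 * (θ - 1) =
      ((n / 2 : ℕ) : ℝ) * ((n + 1) / 2 : ℕ) * (θ - 1) + 2 * q * (n / 2 : ℕ))
    (hθl : θ ≤ l) (htup : tup G ≤ 4 * (q : ℝ) * (q - 1) * (n / 2 : ℕ)) :
    Nonempty (G ≃g K ((n + 1) / 2) (n / 2) q) := by
  have hbow := h0 V G S n w l hC hRR hP2
  have hnbig : (1000 : ℝ) ≤ n := by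
    have h1 := hC.hwbig
    rw [← hC.hw, sq]
    have h2 : (1000 : ℝ) ≤ w := le_trans (by norm_num) h1
    calc (1000 : ℝ) ≤ w * 1 := by linarith
      _ ≤ w * w := mul_le_mul_of_nonneg_left (by linarith) (by linarith)
  have hl1 : 1 < l := by
    have := hC.hl
    linarith
  have hadle : ∀ u v, ad G u v ≤ 1 := by
    intro u v; unfold ad; split_ifs <;> norm_num
  have hopnn : ∀ u v : V, 0 ≤ op S u v := by
    intro u v; unfold op; split_ifs <;> norm_num
  have hterm : ∀ u v, 0 ≤ op S u v * (1 - ad G u v) := fun u v =>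
    mul_nonneg (hopnn u v) (by linarith [hadle u v])
  have hrr : ∀ v, rr G S v = 0 := by
    intro v
    have h1 : ∀ v ∈ (Finset.univ : Finset V), 0 ≤ rr G S v := fun v _ =>
      Finset.sum_nonneg fun u _ => hterm v u
    exact (Finset.sum_eq_zero_iff_of_nonneg h1).mp hRR v (Finset.mem_univ v)
  have hcross : ∀ u v, ¬ (u ∈ S ↔ v ∈ S) → G.Adj u v := by
    intro u v huv
    have h1 := (Finset.sum_eq_zero_iff_of_nonneg (fun v _ => hterm u v)).mp (hrr u) v
      (Finset.mem_univ v)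
    unfold op at h1
    rw [if_neg huv, one_mul] at h1
    by_contra hne
    rw [ad_eq_zero G hne] at h1
    norm_num at h1
  have hbad : ∀ v, ¬ bad G S v := by
    intro v hv
    unfold bad at hv
    rw [hrr v, hC.hN] at hv
    linarith
  have hF : ∀ u v, F G S u v = if (u ∈ S ↔ v ∈ S) then ad G u v else 0 := by
    intro u v
    unfold F ad
    by_cases h1 : (u ∈ S ↔ v ∈ S)
    · by_cases h2 : G.Adj u v
      · rw [if_pos ⟨h1, h2, hbad u, hbad v⟩, if_pos h1, if_pos h2]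
      · rw [if_neg (fun h => h2 h.2.1), if_pos h1, if_neg h2]
    · rw [if_neg (fun h => h1 h.1), if_neg h1]
  have hggA : ∀ v ∈ S, gg G S v = ∑ u ∈ S, ad G v u := by
    intro v hv
    unfold gg
    rw [← Finset.sum_subset (Finset.subset_univ S)]
    · refine Finset.sum_congr rfl fun u hu => ?_
      rw [hF, if_pos (by simp [hu, hv])]
    · intro u _ hu
      rw [hF, if_neg (by simp [hu, hv])]
  have hggB : ∀ v ∈ Finset.univ \ S, gg G S v = ∑ u ∈ Finset.univ \ S, ad G v u := by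
    intro v hv
    have hv' := (Finset.mem_sdiff.mp hv).2
    unfold gg
    rw [← Finset.sum_subset (Finset.subset_univ (Finset.univ \ S))]
    · refine Finset.sum_congr rfl fun u hu => ?_
      have hu' := (Finset.mem_sdiff.mp hu).2
      rw [hF, if_pos (by simp [hu', hv'])]
    · intro u _ hu
      have hu' : u ∈ S := by
        by_contra h; exact hu (Finset.mem_sdiff.mpr ⟨Finset.mem_univ u, h⟩)
      rw [hF, if_neg (by simp [hu', hv'])]
  have hnat : ∀ v, ∃ m : ℕ, gg G S v = m := by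
    intro v
    refine ⟨(Finset.univ.filter fun u => (v ∈ S ↔ u ∈ S) ∧ G.Adj v u).card, ?_⟩
    unfold gg
    rw [Finset.card_filter]
    push_cast
    refine Finset.sum_congr rfl fun u _ => ?_
    rw [hF]
    unfold ad
    by_cases h1 : (v ∈ S ↔ u ∈ S) <;> by_cases h2 : G.Adj v u <;> simp [h1, h2]
  have hgg1 : ∀ v, gg G S v * (gg G S v - 1) = 0 := by
    have h1 : ∀ v ∈ (Finset.univ : Finset V), 0 ≤ gg G S v * (gg G S v - 1) := by
      intro v _
      obtain ⟨m, hm⟩ := hnat v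
      rw [hm]
      rcases Nat.eq_zero_or_pos m with h | h
      · simp [h]
      · have : (1 : ℝ) ≤ m := by exact_mod_cast h
        exact mul_nonneg (by linarith) (by linarith)
    intro v
    exact (Finset.sum_eq_zero_iff_of_nonneg h1).mp hP2 v (Finset.mem_univ v)
  obtain ⟨hdegA, hA⟩ := side G S (gg G S) hggA hgg1
  obtain ⟨hdegB, hB⟩ := side G (Finset.univ \ S) (gg G S) hggB hgg1
  have hGA : GA G S = ∑ v ∈ S, gg G S v := rfl
  have hGB : GB G S = ∑ v ∈ Finset.univ \ S, gg G S v := rfl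
  rw [← hGA] at hA
  rw [← hGB] at hB
  have hcard : S.card + (Finset.univ \ S).card = n := by
    have h1 : (Finset.univ \ S).card + S.card = (Finset.univ : Finset V).card :=
      Finset.card_sdiff_add_card_eq_card (Finset.subset_univ S)
    rw [Finset.card_univ, hVn] at h1
    omega
  have hnAB : nA S + nB S = n := by
    unfold nA nB; exact_mod_cast hcard
  have hhalf : ((n / 2 : ℕ) : ℝ) ≤ n / 2 := by
    have := @Nat.cast_div_le ℝ _ _ _ n 2
    simpa using this
  have hq' : (2 : ℝ) ≤ q := by exact_mod_cast hq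
  have hqn' : 4 * (q : ℝ) ≤ n + 1 := by exact_mod_cast hqn
  have hqq : 0 < (q : ℝ) * (q - 1) := mul_pos (by linarith) (by linarith)
  have hD' := abs_le.mp hD
  rcases hA with ⟨hA1, hA2⟩ | hA
  · -- all good edges outside S
    have hGB2 : GB G S = 2 * q := by rw [hA2] at hG; linarith
    rw [hA2, hGB2] at hbow
    have h1 : 4 * ((q : ℝ) * (q - 1)) * nA S ≤ 4 * ((q : ℝ) * (q - 1)) * (n / 2 : ℕ) := by
      have e : nB S * (0 * (0 - 2)) + nA S * (2 * (q : ℝ) * (2 * q - 2)) +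
        3.9 * n * (0 * (2 * (q : ℝ))) = 4 * ((q : ℝ) * (q - 1)) * nA S := by ring
      rw [e] at hbow
      linarith
    have h2 : nA S ≤ (n / 2 : ℕ) := le_of_mul_le_mul_left h1 (by linarith)
    have h3 : S.card ≤ n / 2 := by unfold nA at h2; exact_mod_cast h2
    have hcc : Finset.univ \ (Finset.univ \ S) = S := by ext u; simp
    refine core hI V G (Finset.univ \ S) n q l θ x hVn hq hl1 ?_ ?_ hdegB ?_
      hx0 hx1 hx hθ1 hθ2 hθ3 hθl (by rw [hcc]; exact h3)
    · intro u hu v hv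
      have hu' := (Finset.mem_sdiff.mp hu).2
      have hv' : v ∈ S := by
        by_contra h; exact hv (Finset.mem_sdiff.mpr ⟨Finset.mem_univ v, h⟩)
      exact hcross u v (by simp [hu', hv'])
    · intro u hu v hv
      have hu' : u ∈ S := by
        by_contra h; exact hu (Finset.mem_sdiff.mpr ⟨Finset.mem_univ u, h⟩)
      have hv' : v ∈ S := by
        by_contra h; exact hv (Finset.mem_sdiff.mpr ⟨Finset.mem_univ v, h⟩)
      exact hA1 u hu' v hv'
    · rw [← hGB2, hGB]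
      exact Finset.sum_congr rfl fun u hu => (hggB u hu).symm
  · rcases hB with ⟨hB1, hB2⟩ | hB
    · have hGA2 : GA G S = 2 * q := by rw [hB2] at hG; linarith
      rw [hB2, hGA2] at hbow
      have h1 : 4 * ((q : ℝ) * (q - 1)) * nB S ≤ 4 * ((q : ℝ) * (q - 1)) * (n / 2 : ℕ) := by
        have e : nB S * (2 * (q : ℝ) * (2 * q - 2)) + nA S * (0 * (0 - 2)) +
          3.9 * n * (2 * (q : ℝ) * 0) = 4 * ((q : ℝ) * (q - 1)) * nB S := by ring
        rw [e] at hbow
        linarith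
      have h2 : nB S ≤ (n / 2 : ℕ) := le_of_mul_le_mul_left h1 (by linarith)
      have h3 : (Finset.univ \ S).card ≤ n / 2 := by unfold nB at h2; exact_mod_cast h2
      refine core hI V G S n q l θ x hVn hq hl1 ?_ ?_ hdegA ?_
        hx0 hx1 hx hθ1 hθ2 hθ3 hθl h3
      · intro u hu v hv
        exact hcross u v (by simp [hu, hv])
      · intro u hu v hv
        exact hB1 u (Finset.mem_sdiff.mpr ⟨Finset.mem_univ u, hu⟩) v
          (Finset.mem_sdiff.mpr ⟨Finset.mem_univ v, hv⟩)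
      · rw [← hGA2, hGA]
        exact Finset.sum_congr rfl fun u hu => (hggA u hu).symm
    · -- edges on both sides: impossible
      exfalso
      obtain ⟨A, hAd⟩ : ∃ A, A = GA G S := ⟨_, rfl⟩
      obtain ⟨B, hBd⟩ : ∃ B, B = GB G S := ⟨_, rfl⟩
      rw [← hAd, ← hBd] at hG
      rw [← hAd] at hA
      rw [← hBd] at hB
      have hnA : ((n : ℝ) - 3) / 2 ≤ nA S := by linarith
      have hnB : ((n : ℝ) - 3) / 2 ≤ nB S := by linarith
      rw [← hAd, ← hBd] at hbow
      have hAB : B = 2 * q - A := by linarith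
      have hnum := numeric n q A B (tup G) (nA S) (nB S) (n / 2 : ℕ) hnbig hq' hqn' hA hB hAB hnA hnB
        hhalf hbow htup
      exact hnum

/-- Module N. -/
theorem final_config (h0 : S_bow0) (hI : S_iso) : S_fin :=
  fun n q G S w l θ x hC hq hqn hx0 hx1 hx hRR hP2 hG hD hθ1 hθ2 hθ3 hθl htup =>
    final_gen h0 hI (Fin n) n q (Fintype.card_fin n) G S w l θ x hC hq hqn hx0 hx1 hx hRR hP2 hG hD
      hθ1 hθ2 hθ3 hθl htup

end Pool.Agent.Bow
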