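import Pool.Agent.Bow.Theta
import Pool.Agent.Bow.Cut

/-!
Module O of MP_b63b1f_co: recognising `K s t q`.
-/

namespace Pool.Agent.Bow

open Finset
open scoped Classical

/-- The pairing relation on indices. -/
def pairRel (q i j : ℕ) : Prop :=
  ∃ k < q, (i = 2 * k ∧ j = 2 * k + 1) ∨ (j = 2 * k ∧ i = 2 * k + 1)

theorem enum_matching {V : Type} [Fintype V] (G : SimpleGraph V) (q : ℕ) :
    ∀ S : Finset V,
    (∀ u ∈ S, ∀ v ∈ S, ∀ v' ∈ S, G.Adj u v → G.Adj u v' → v = v') →
    (∑ u ∈ S, ∑ v ∈ S, ad G u v = 2 * q) →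
    ∃ f : V → ℕ, (∀ u ∈ S, f u < S.card) ∧ (∀ u ∈ S, ∀ v ∈ S, f u = f v → u = v) ∧
      ∀ u ∈ S, ∀ v ∈ S, (G.Adj u v ↔ pairRel q (f u) (f v)) := by
  induction q with
  | zero =>
    intro S hm hsum
    have hno : ∀ u ∈ S, ∀ v ∈ S, ¬ G.Adj u v := by
      intro u hu v hv huv
      have h0 : ∀ u ∈ S, 0 ≤ ∑ v ∈ S, ad G u v := fun u _ =>
        Finset.sum_nonneg fun v _ => ad_nonneg' _ _ _
      have hz : ∑ u ∈ S, ∑ v ∈ S, ad G u v = 0 := by rw [hsum]; simp
      have h1 := (Finset.sum_eq_zero_iff_of_nonneg h0).mp hz u hu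
      have h2 := (Finset.sum_eq_zero_iff_of_nonneg (fun v _ => ad_nonneg' G u v)).mp h1 v hv
      unfold ad at h2
      rw [if_pos huv] at h2
      norm_num at h2
    refine ⟨fun u => if h : u ∈ S then (S.equivFin ⟨u, h⟩).1 else 0, ?_, ?_, ?_⟩
    · intro u hu
      simp only [hu, dif_pos]
      exact (S.equivFin ⟨u, hu⟩).2
    · intro u hu v hv huv
      simp only [hu, hv, dif_pos] at huv
      have := S.equivFin.injective (Fin.ext huv)
      exact congrArg Subtype.val this
    · intro u hu v hv
      constructor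
      · intro h
        exact absurd h (hno u hu v hv)
      · rintro ⟨k, hk, _⟩
        omega
  | succ q ih =>
    intro S hm hsum
    have hex : ∃ a ∈ S, ∃ b ∈ S, G.Adj a b := by
      by_contra hcon
      push Not at hcon
      have : ∑ u ∈ S, ∑ v ∈ S, ad G u v = 0 :=
        Finset.sum_eq_zero fun u hu => Finset.sum_eq_zero fun v hv => if_neg (hcon u hu v hv)
      rw [hsum] at this
      have h2 : (0 : ℝ) < 2 * ((q + 1 : ℕ) : ℝ) := by positivity
      linarith
    obtain ⟨a, ha, b, hb, hab⟩ := hex
    have hne : a ≠ b := hab.ne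
    set S' : Finset V := (S.erase a).erase b with hS'
    have hbe : b ∈ S.erase a := Finset.mem_erase.mpr ⟨hne.symm, hb⟩
    have hmemS' : ∀ u, u ∈ S' ↔ u ≠ b ∧ u ≠ a ∧ u ∈ S := by
      intro u
      simp [hS', Finset.mem_erase]
    have hcard : S.card = S'.card + 2 := by
      have h1 := Finset.card_erase_add_one hbe
      have h2 := Finset.card_erase_add_one ha
      rw [hS']
      omega
    have hsplit : ∀ g : V → ℝ, ∑ u ∈ S, g u = ∑ u ∈ S', g u + g b + g a := by
      intro g
      rw [hS', Finset.sum_erase_add _ _ hbe, Finset.sum_erase_add _ _ ha]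
    have hua : ∀ u ∈ S, u ≠ b → ¬ G.Adj u a := by
      intro u hu hub h
      exact hub (hm a ha u hu b hb h.symm hab)
    have hub : ∀ u ∈ S, u ≠ a → ¬ G.Adj u b := by
      intro u hu hua h
      exact hua (hm b hb u hu a ha h.symm hab.symm)
    have hsum' : ∑ u ∈ S', ∑ v ∈ S', ad G u v = 2 * q := by
      have e1 : ∀ u ∈ S', ∑ v ∈ S, ad G u v = ∑ v ∈ S', ad G u v := by
        intro u hu
        obtain ⟨h1, h2, h3⟩ := (hmemS' u).mp hu
        rw [hsplit]
        have e2 : ad G u b = 0 := if_neg (hub u h3 h2)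
        have e3 : ad G u a = 0 := if_neg (hua u h3 h1)
        rw [e2, e3]
        ring
      have e4 : ∑ v ∈ S, ad G a v = 1 := by
        rw [hsplit, ad_self', Finset.sum_eq_zero]
        · have : ad G a b = 1 := if_pos hab
          rw [this]
          ring
        · intro v hv
          obtain ⟨h1, h2, h3⟩ := (hmemS' v).mp hv
          exact if_neg fun h => hua v h3 h1 h.symm
      have e5 : ∑ v ∈ S, ad G b v = 1 := by
        rw [hsplit, ad_self', Finset.sum_eq_zero]
        · have : ad G b a = 1 := if_pos hab.symm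
          rw [this]
          ring
        · intro v hv
          obtain ⟨h1, h2, h3⟩ := (hmemS' v).mp hv
          exact if_neg fun h => hub v h3 h2 h.symm
      have e6 := hsplit (fun u => ∑ v ∈ S, ad G u v)
      rw [e4, e5, Finset.sum_congr rfl e1, hsum] at e6
      push_cast at e6
      linarith
    have hm' : ∀ u ∈ S', ∀ v ∈ S', ∀ v' ∈ S', G.Adj u v → G.Adj u v' → v = v' :=
      fun u hu v hv v' hv' => hm u ((hmemS' u).mp hu).2.2 v ((hmemS' v).mp hv).2.2 v'
        ((hmemS' v').mp hv').2.2
    obtain ⟨f, hf1, hf2, hf3⟩ := ih S' hm' hsum'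
    set F : V → ℕ := fun u => if u = a then 0 else if u = b then 1 else f u + 2 with hF
    have hFa : F a = 0 := by simp [hF]
    have hFb : F b = 1 := by simp [hF, hne.symm]
    have hFo : ∀ u ∈ S', F u = f u + 2 := by
      intro u hu
      obtain ⟨h1, h2, h3⟩ := (hmemS' u).mp hu
      simp [hF, h1, h2]
    have hcases : ∀ u ∈ S, u = a ∨ u = b ∨ u ∈ S' := by
      intro u hu
      by_cases h1 : u = a
      · exact Or.inl h1
      · by_cases h2 : u = b
        · exact Or.inr (Or.inl h2)
        · exact Or.inr (Or.inr ((hmemS' u).mpr ⟨h2, h1, hu⟩))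
    refine ⟨F, ?_, ?_, ?_⟩
    · intro u hu
      rcases hcases u hu with h | h | h
      · rw [h, hFa]; omega
      · rw [h, hFb]; omega
      · rw [hFo u h]
        have := hf1 u h
        omega
    · intro u hu v hv huv
      rcases hcases u hu with h | h | h <;> rcases hcases v hv with h' | h' | h'
      · rw [h, h']
      · rw [h, h', hFa, hFb] at huv; omega
      · rw [h, hFa, hFo v h'] at huv; omega
      · rw [h, h', hFa, hFb] at huv; omega
      · rw [h, h']
      · rw [h, hFb, hFo v h'] at huv; omega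
      · rw [h', hFa, hFo u h] at huv; omega
      · rw [h', hFb, hFo u h] at huv; omega
      · rw [hFo u h, hFo v h'] at huv
        exact hf2 u h v h' (by omega)
    · intro u hu v hv
      rcases hcases u hu with h | h | h <;> rcases hcases v hv with h' | h' | h'
      · subst h; subst h'
        rw [hFa]
        constructor
        · intro h; exact absurd h (G.irrefl)
        · rintro ⟨k, hk, h | h⟩ <;> omega
      · subst h; subst h'
        rw [hFa, hFb]
        exact ⟨fun _ => ⟨0, by omega, Or.inl ⟨rfl, rfl⟩⟩, fun _ => hab⟩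
      · subst h
        obtain ⟨h1, h2, h3⟩ := (hmemS' v).mp h'
        rw [hFa, hFo v h']
        constructor
        · intro h; exact absurd h.symm (hua v h3 h1)
        · rintro ⟨k, hk, h | h⟩ <;> omega
      · subst h; subst h'
        rw [hFa, hFb]
        exact ⟨fun _ => ⟨0, by omega, Or.inr ⟨rfl, rfl⟩⟩, fun _ => hab.symm⟩
      · subst h; subst h'
        rw [hFb]
        constructor
        · intro h; exact absurd h (G.irrefl)
        · rintro ⟨k, hk, h | h⟩ <;> omega
      · subst h
        obtain ⟨h1, h2, h3⟩ := (hmemS' v).mp h'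
        rw [hFb, hFo v h']
        constructor
        · intro h; exact absurd h.symm (hub v h3 h2)
        · rintro ⟨k, hk, h | h⟩ <;> omega
      · subst h'
        obtain ⟨h1, h2, h3⟩ := (hmemS' u).mp h
        rw [hFa, hFo u h]
        constructor
        · intro h; exact absurd h (hua u h3 h1)
        · rintro ⟨k, hk, h | h⟩ <;> omega
      · subst h'
        obtain ⟨h1, h2, h3⟩ := (hmemS' u).mp h
        rw [hFb, hFo u h]
        constructor
        · intro h; exact absurd h (hub u h3 h2)
        · rintro ⟨k, hk, h | h⟩ <;> omega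
      · rw [hFo u h, hFo v h', hf3 u h v h']
        constructor
        · rintro ⟨k, hk, h | h⟩
          · exact ⟨k + 1, by omega, Or.inl ⟨by omega, by omega⟩⟩
          · exact ⟨k + 1, by omega, Or.inr ⟨by omega, by omega⟩⟩
        · rintro ⟨k, hk, h | h⟩
          · exact ⟨k - 1, by omega, Or.inl ⟨by omega, by omega⟩⟩
          · exact ⟨k - 1, by omega, Or.inr ⟨by omega, by omega⟩⟩

theorem iso_K : S_iso := by
  intro V _ G S s t q hs ht hcross hempty hm hsum
  obtain ⟨f, hf1, hf2, hf3⟩ := enum_matching G q S hm hsum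
  set T : Finset V := Finset.univ \ S with hT
  have hmemT : ∀ u, u ∈ T ↔ u ∉ S := by intro u; simp [hT]
  let e : V → Fin s ⊕ Fin t := fun u =>
    if h : u ∈ S then Sum.inl ⟨f u, by rw [← hs]; exact hf1 u h⟩
    else Sum.inr (Fin.cast ht (T.equivFin ⟨u, (hmemT u).mpr h⟩))
  have heS : ∀ u (h : u ∈ S), e u = Sum.inl ⟨f u, by rw [← hs]; exact hf1 u h⟩ := by
    intro u h
    simp only [e, dif_pos h]
  have heT : ∀ u (h : u ∉ S), e u = Sum.inr (Fin.cast ht (T.equivFin ⟨u, (hmemT u).mpr h⟩)) := by
    intro u h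
    simp only [e, dif_neg h]
  have hinj : Function.Injective e := by
    intro u v huv
    by_cases hu : u ∈ S <;> by_cases hv : v ∈ S
    · rw [heS u hu, heS v hv] at huv
      have := congrArg Fin.val (Sum.inl.inj huv)
      exact hf2 u hu v hv this
    · rw [heS u hu, heT v hv] at huv
      cases huv
    · rw [heT u hu, heS v hv] at huv
      cases huv
    · rw [heT u hu, heT v hv] at huv
      have h1 := Sum.inr.inj huv
      have h2 : T.equivFin ⟨u, (hmemT u).mpr hu⟩ = T.equivFin ⟨v, (hmemT v).mpr hv⟩ := by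
        apply Fin.ext
        have := congrArg Fin.val h1
        simpa using this
      exact congrArg Subtype.val (T.equivFin.injective h2)
  have hcard : Fintype.card V = Fintype.card (Fin s ⊕ Fin t) := by
    rw [Fintype.card_sum, Fintype.card_fin, Fintype.card_fin, ← hs, ← ht, hT,
      Finset.card_sdiff_of_subset (Finset.subset_univ S), Finset.card_univ]
    have := Finset.card_le_univ S
    omega
  have hbij : Function.Bijective e :=
    (Fintype.bijective_iff_injective_and_card e).mpr ⟨hinj, hcard⟩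
  refine ⟨⟨Equiv.ofBijective e hbij, ?_⟩⟩
  intro u v
  show (K s t q).Adj (e u) (e v) ↔ G.Adj u v
  by_cases hu : u ∈ S <;> by_cases hv : v ∈ S
  · rw [heS u hu, heS v hv, K_adj_ll, hf3 u hu v hv]
    rfl
  · rw [heS u hu, heT v hv]
    exact ⟨fun _ => hcross u hu v hv, fun _ => K_adj_lr _ _⟩
  · rw [heT u hu, heS v hv]
    exact ⟨fun _ => (hcross v hv u hu).symm, fun _ => (K_adj_lr _ _).symm⟩
  · rw [heT u hu, heT v hv]
    exact ⟨fun h => absurd h (K_adj_rr _ _), fun h => absurd h (hempty u hu v hv)⟩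

end Pool.Agent.Bow
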