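import Pool.Agent.Bow.Cut

/-!
Module H of MP_b63b1f_co: a vertex with many outside neighbours has small inside degree.
-/

namespace Pool.Agent.Bow

open Finset
open scoped Classical

theorem sm_nonneg' {V : Type*} (S : Finset V) (u v : V) : 0 ≤ sm S u v := by
  unfold sm; split_ifs <;> norm_num

theorem op_nonneg' {V : Type*} (S : Finset V) (u v : V) : 0 ≤ op S u v := by
  unfold op; split_ifs <;> norm_num

theorem sm_le_one' {V : Type*} (S : Finset V) (u v : V) : sm S u v ≤ 1 := by
  unfold sm; split_ifs <;> norm_num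

theorem op_le_one' {V : Type*} (S : Finset V) (u v : V) : op S u v ≤ 1 := by
  unfold op; split_ifs <;> norm_num

theorem sm_op_le {V : Type*} (S : Finset V) (v x y : V) : sm S v x * op S v y ≤ op S x y := by
  unfold sm op
  by_cases hv : v ∈ S <;> by_cases hx : x ∈ S <;> by_cases hy : y ∈ S <;> simp [hv, hx, hy]

theorem low_in : S_low := by
  intro V _ G S N w hN hw hwb hopt hRR htup v hb
  by_contra hcon
  push Not at hcon
  have hw0 : 0 < w := lt_of_lt_of_le (by norm_num) hwb
  have hNpos : 0 < N := by rw [← hw]; positivity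
  set E : V → V → ℝ := fun x y => sm S v x * ad G v x * (op S v y * ad G v y) * ad G x y with hE
  have hE0 : ∀ x y, 0 ≤ E x y := fun x y => by
    have h1 := sm_nonneg' S v x
    have h2 := op_nonneg' S v y
    have h3 := ad_nonneg' G v x
    have h4 := ad_nonneg' G v y
    have h5 := ad_nonneg' G x y
    simp only [hE]
    positivity
  have hHT : ∀ a b, E a b + E b a ≤ ad G v a * ad G v b * ad G a b := by
    intro a b
    have e : E a b + E b a = (sm S v a * op S v b + sm S v b * op S v a) *
        (ad G v a * ad G v b * ad G a b) := by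
      simp only [hE]
      rw [ad_symm' G b a]
      ring
    rw [e]
    have h1 : sm S v a * op S v b + sm S v b * op S v a ≤ 1 := by
      unfold sm op
      split_ifs <;> norm_num
    have h2 : 0 ≤ ad G v a * ad G v b * ad G a b :=
      mul_nonneg (mul_nonneg (ad_nonneg' _ _ _) (ad_nonneg' _ _ _)) (ad_nonneg' _ _ _)
    calc _ ≤ 1 * (ad G v a * ad G v b * ad G a b) := mul_le_mul_of_nonneg_right h1 h2
      _ = _ := one_mul _
  have hT1 : ∀ a b, ad G v a * ad G v b * ad G a b ≤ 1 := fun a b => by
    have h1 := ad_le_one' G v a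
    have h2 := ad_le_one' G v b
    have h3 := ad_le_one' G a b
    have h4 : ad G v a * ad G v b ≤ 1 := mul_le_one₀ h1 (ad_nonneg' _ _ _) h2
    exact mul_le_one₀ h4 (ad_nonneg' _ _ _) h3
  have hT0 : ∀ v a b, 0 ≤ ad G v a * ad G v b * ad G a b := fun v a b =>
    mul_nonneg (mul_nonneg (ad_nonneg' _ _ _) (ad_nonneg' _ _ _)) (ad_nonneg' _ _ _)
  set M : ℝ := ∑ x, ∑ y, E x y with hM
  -- lower bound for M
  have hMlow : din G S v * dout G S v - 32 * N ≤ M := by
    have e1 : M = din G S v * dout G S v
        - ∑ x, ∑ y, sm S v x * ad G v x * (op S v y * ad G v y) * (1 - ad G x y) := by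
      have : din G S v * dout G S v
          = ∑ x, ∑ y, sm S v x * ad G v x * (op S v y * ad G v y) := by
        unfold din dout
        rw [Finset.sum_mul]
        exact Finset.sum_congr rfl fun x _ => Finset.mul_sum _ _ _
      rw [this, ← Finset.sum_sub_distrib, hM]
      refine Finset.sum_congr rfl fun x _ => ?_
      rw [← Finset.sum_sub_distrib]
      refine Finset.sum_congr rfl fun y _ => ?_
      simp only [hE]
      ring
    have e2 : ∑ x, ∑ y, sm S v x * ad G v x * (op S v y * ad G v y) * (1 - ad G x y)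
        ≤ RR G S := by
      unfold RR rr
      refine Finset.sum_le_sum fun x _ => Finset.sum_le_sum fun y _ => ?_
      have h1 := sm_nonneg' S v x
      have h2 := op_nonneg' S v y
      have h3 := ad_nonneg' G v x
      have h4 := ad_nonneg' G v y
      have h5 := ad_le_one' G x y
      have h6 := ad_le_one' G v x
      have h7 := ad_le_one' G v y
      have h8 := sm_op_le S v x y
      have h9 : sm S v x * ad G v x * (op S v y * ad G v y) ≤ op S x y := by
        calc sm S v x * ad G v x * (op S v y * ad G v y)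
            = (sm S v x * op S v y) * (ad G v x * ad G v y) := by ring
          _ ≤ (sm S v x * op S v y) * 1 := by
              apply mul_le_mul_of_nonneg_left (mul_le_one₀ h6 h4 h7) (mul_nonneg h1 h2)
          _ ≤ op S x y := by linarith
      exact mul_le_mul_of_nonneg_right h9 (by linarith)
    linarith
  have hM2 : N * (w / 4 - 32) ≤ M := by
    have h1 : 4 * w * (N / 16) ≤ din G S v * dout G S v := by
      apply mul_le_mul hcon.le hb (by positivity) (by linarith)
    nlinarith
  -- the bowties at v
  have hH : ∑ a, ∑ b, (E a b + E b a) = 2 * M := by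
    have : ∑ a, ∑ b, E b a = M := by rw [Finset.sum_comm]
    simp only [Finset.sum_add_distrib]
    rw [this, ← hM]
    ring
  have hlow : 2 * M * (2 * M - 4 * N) ≤ ∑ a, ∑ b, ∑ c, ∑ d,
      (ad G v a * ad G v b * ad G a b) * (ad G v c * ad G v d * ad G c d) * dj a b c d := by
    have e3 : 2 * M * (2 * M - 4 * N)
        = ∑ a, ∑ b, (E a b + E b a) * (2 * M - 4 * N) := by
      rw [← hH]
      simp only [Finset.sum_mul]
    rw [e3]
    refine Finset.sum_le_sum fun a _ => Finset.sum_le_sum fun b _ => ?_
    have hH0 : 0 ≤ E a b + E b a := add_nonneg (hE0 _ _) (hE0 _ _)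
    have h1 := dj_sum_lower (fun c d => E c d + E d c)
      (fun c d => add_nonneg (hE0 _ _) (hE0 _ _)) (fun c d => (hHT c d).trans (hT1 c d)) a b
    rw [hH, hN] at h1
    have hdj0 : ∀ c d, 0 ≤ dj a b c d := by
      intro c d; unfold dj; split_ifs <;> norm_num
    calc (E a b + E b a) * (2 * M - 4 * N)
        ≤ (E a b + E b a) * ∑ c, ∑ d, (E c d + E d c) * dj a b c d :=
          mul_le_mul_of_nonneg_left h1 hH0
      _ = ∑ c, ∑ d, (E a b + E b a) * ((E c d + E d c) * dj a b c d) := by
          rw [Finset.mul_sum]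
          exact Finset.sum_congr rfl fun c _ => Finset.mul_sum _ _ _
      _ ≤ _ := by
          refine Finset.sum_le_sum fun c _ => Finset.sum_le_sum fun d _ => ?_
          rw [mul_assoc]
          apply mul_le_mul (hHT a b) _ (mul_nonneg (add_nonneg (hE0 _ _) (hE0 _ _)) (hdj0 _ _))
            (hT0 v a b)
          exact mul_le_mul_of_nonneg_right (hHT c d) (hdj0 _ _)
  have htot : 2 * M * (2 * M - 4 * N) ≤ tup G := by
    refine hlow.trans ?_
    unfold tup
    refine Finset.single_le_sum (f := fun v => ∑ a, ∑ b, ∑ c, ∑ d,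
      (ad G v a * ad G v b * ad G a b) * (ad G v c * ad G v d * ad G c d) * dj a b c d)
      (fun u _ => ?_) (Finset.mem_univ v)
    refine Finset.sum_nonneg fun a _ => Finset.sum_nonneg fun b _ =>
      Finset.sum_nonneg fun c _ => Finset.sum_nonneg fun d _ =>
      mul_nonneg (mul_nonneg (hT0 _ _ _) (hT0 _ _ _)) ?_
    unfold dj; split_ifs <;> norm_num
  have hcomp : 0.126 * N ^ 3 < 2 * M * (2 * M - 4 * N) := by
    have h1 : 0 ≤ N * (w / 4 - 32) := mul_nonneg hNpos.le (by linarith)
    have h2 : 0 ≤ 2 * (N * (w / 4 - 32)) - 4 * N := by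
      have : 2 * (N * (w / 4 - 32)) - 4 * N = N * (w / 2 - 68) := by ring
      rw [this]
      exact mul_nonneg hNpos.le (by linarith)
    have h3 : 2 * (N * (w / 4 - 32)) * (2 * (N * (w / 4 - 32)) - 4 * N)
        ≤ 2 * M * (2 * M - 4 * N) := by
      apply mul_le_mul (by linarith) (by linarith) h2 (by linarith)
    have h4 : 2 * (N * (w / 4 - 32)) * (2 * (N * (w / 4 - 32)) - 4 * N)
        = N ^ 2 * ((w / 2 - 64) * (w / 2 - 68)) := by ring
    have h5 : 0.126 * N ^ 3 < N ^ 2 * ((w / 2 - 64) * (w / 2 - 68)) := by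
      have h6 : 0.126 * N ^ 3 = N ^ 2 * (0.126 * w ^ 2) := by rw [hw]; ring
      rw [h6]
      apply mul_lt_mul_of_pos_left _ (by positivity)
      nlinarith
    linarith
  linarith

end Pool.Agent.Bow
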