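import Pool.Agent.Bow.Stmts

/-!
Module I of MP_b63b1f_co: maxima of the eigenvector. Basic facts on the two sides of a cut.
-/

namespace Pool.Agent.Bow

open Finset
open scoped Classical

namespace MX

variable {V : Type} [Fintype V] (G : SimpleGraph V) (S : Finset V)

lemma ad_nonneg (u v : V) : 0 ≤ ad G u v := by unfold ad; split_ifs <;> norm_num
lemma ad_le_one (u v : V) : ad G u v ≤ 1 := by unfold ad; split_ifs <;> norm_num
lemma ad_symm (u v : V) : ad G u v = ad G v u := by unfold ad; simp only [G.adj_comm]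
lemma sm_nonneg (u v : V) : 0 ≤ sm S u v := by unfold sm; split_ifs <;> norm_num
lemma sm_le_one (u v : V) : sm S u v ≤ 1 := by unfold sm; split_ifs <;> norm_num
lemma op_nonneg (u v : V) : 0 ≤ op S u v := by unfold op; split_ifs <;> norm_num
lemma op_le_one (u v : V) : op S u v ≤ 1 := by unfold op; split_ifs <;> norm_num
lemma sm_add_op (u v : V) : sm S u v + op S u v = 1 := by unfold sm op; split_ifs <;> norm_num
lemma sm_symm (u v : V) : sm S u v = sm S v u := by unfold sm; simp only [Iff.comm]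
lemma op_symm (u v : V) : op S u v = op S v u := by unfold op; simp only [Iff.comm]

lemma sm_compl (u v : V) : sm (Finset.univ \ S) u v = sm S u v := by
  unfold sm
  by_cases h1 : u ∈ S <;> by_cases h2 : v ∈ S <;> simp [h1, h2]

lemma op_compl (u v : V) : op (Finset.univ \ S) u v = op S u v := by
  unfold op
  by_cases h1 : u ∈ S <;> by_cases h2 : v ∈ S <;> simp [h1, h2]

lemma compl_compl' : Finset.univ \ (Finset.univ \ S) = S := by
  ext u; simp

lemma din_compl (v : V) : din G (Finset.univ \ S) v = din G S v := by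
  unfold din; simp only [sm_compl]

lemma dout_compl (v : V) : dout G (Finset.univ \ S) v = dout G S v := by
  unfold dout; simp only [op_compl]

lemma rr_compl (v : V) : rr G (Finset.univ \ S) v = rr G S v := by
  unfold rr; simp only [op_compl]

lemma RR_compl : RR G (Finset.univ \ S) = RR G S := by
  unfold RR; simp only [rr_compl]

lemma bad_compl (v : V) : bad G (Finset.univ \ S) v ↔ bad G S v := by
  unfold bad; simp only [rr_compl]

lemma F_compl (u v : V) : F G (Finset.univ \ S) u v = F G S u v := by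
  unfold F
  simp only [bad_compl]
  by_cases h1 : u ∈ S <;> by_cases h2 : v ∈ S <;> simp [h1, h2]

lemma gg_compl (v : V) : gg G (Finset.univ \ S) v = gg G S v := by
  unfold gg; simp only [F_compl]

lemma GA_compl : GA G (Finset.univ \ S) = GB G S := by
  unfold GA GB; simp only [gg_compl]

lemma GB_compl : GB G (Finset.univ \ S) = GA G S := by
  unfold GA GB; simp only [gg_compl, compl_compl']

lemma nA_compl : nA (Finset.univ \ S) = nB S := rfl

lemma nB_compl : nB (Finset.univ \ S) = nA S := by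
  unfold nA nB; rw [compl_compl']

lemma cfg_compl {N w l : ℝ} (h : Cfg G S N w l) : Cfg G (Finset.univ \ S) N w l where
  hN := h.hN
  hw := h.hw
  hwbig := h.hwbig
  hl := h.hl
  hI := by simp only [din_compl]; exact h.hI
  hopt := by intro v; rw [din_compl, dout_compl]; exact h.hopt v
  hRR := by rw [RR_compl]; exact h.hRR
  hD := by rw [nA_compl, nB_compl, abs_sub_comm]; exact h.hD
  hlow := by intro v; rw [din_compl, dout_compl]; exact h.hlow v

lemma din_nonneg (v : V) : 0 ≤ din G S v :=
  Finset.sum_nonneg fun u _ => mul_nonneg (sm_nonneg S v u) (ad_nonneg G v u)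

lemma dout_nonneg (v : V) : 0 ≤ dout G S v :=
  Finset.sum_nonneg fun u _ => mul_nonneg (op_nonneg S v u) (ad_nonneg G v u)

lemma rr_nonneg (v : V) : 0 ≤ rr G S v :=
  Finset.sum_nonneg fun u _ => mul_nonneg (op_nonneg S v u) (by linarith [ad_le_one G v u])

/-- sums over the other side -/
lemma sum_op {v : V} (hv : v ∈ S) (f : V → ℝ) :
    ∑ u, op S v u * f u = ∑ u ∈ Finset.univ \ S, f u := by
  rw [← Finset.sum_subset (Finset.subset_univ (Finset.univ \ S))]
  · apply Finset.sum_congr rfl
    intro u hu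
    rw [Finset.mem_sdiff] at hu
    simp [op, hv, hu.2]
  · intro u _ hu
    rw [Finset.mem_sdiff] at hu
    have : u ∈ S := by
      by_contra h
      exact hu ⟨Finset.mem_univ u, h⟩
    simp [op, hv, this]

lemma sum_op' {v : V} (hv : v ∉ S) (f : V → ℝ) :
    ∑ u, op S v u * f u = ∑ u ∈ S, f u := by
  have hv' : v ∈ Finset.univ \ S := by simp [hv]
  have h := sum_op (Finset.univ \ S) hv' f
  rw [compl_compl'] at h
  simpa only [op_compl] using h

lemma dout_add_rr {v : V} (hv : v ∈ S) : dout G S v + rr G S v = nB S := by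
  unfold dout rr
  rw [← Finset.sum_add_distrib]
  have h := sum_op S hv (fun _ => (1 : ℝ))
  have h2 : ∑ u, (op S v u * ad G v u + op S v u * (1 - ad G v u)) = ∑ u, op S v u * 1 :=
    Finset.sum_congr rfl fun u _ => by ring
  rw [h2, h]
  simp [nB]

lemma dout_add_rr' {v : V} (hv : v ∉ S) : dout G S v + rr G S v = nA S := by
  have hv' : v ∈ Finset.univ \ S := by simp [hv]
  have h := dout_add_rr G (Finset.univ \ S) hv'
  rwa [dout_compl, rr_compl, nB_compl] at h

lemma nA_add_nB : nA S + nB S = (Fintype.card V : ℝ) := by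
  unfold nA nB
  rw [← Nat.cast_add, Finset.card_sdiff_of_subset (Finset.subset_univ S), Finset.card_univ]
  have := Finset.card_le_univ S
  congr 1
  omega

lemma nA_nonneg : 0 ≤ nA S := Nat.cast_nonneg _
lemma nB_nonneg : 0 ≤ nB S := Nat.cast_nonneg _

section row

variable {G S} {x : V → ℝ} {l : ℝ}

/-- the row of the eigenvalue equation -/
lemma row_le (hx : ∀ v, 0 ≤ x v) (he : ∀ v, ∑ u, ad G v u * x u = l * x v) (v : V) {M : ℝ}
    (hM : ∀ u, (v ∈ S ↔ u ∈ S) → x u ≤ M) :
    l * x v ≤ din G S v * M + ∑ u, op S v u * x u := by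
  rw [← he v]
  unfold din
  rw [Finset.sum_mul, ← Finset.sum_add_distrib]
  apply Finset.sum_le_sum
  intro u _
  have h1 := ad_nonneg G v u
  have h2 := ad_le_one G v u
  have h3 := hx u
  by_cases h : (v ∈ S ↔ u ∈ S)
  · simp only [sm, op, if_pos h, one_mul, zero_mul, add_zero]
    exact mul_le_mul_of_nonneg_left (hM u h) h1
  · simp only [sm, op, if_neg h, one_mul, zero_mul, zero_add]
    nlinarith

lemma row_low (hx : ∀ v, 0 ≤ x v) (he : ∀ v, ∑ u, ad G v u * x u = l * x v) (v : V) {M M' : ℝ}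
    (hM : ∀ u, (v ∈ S ↔ u ∈ S) → x u ≤ M) (hM' : ∀ u, ¬ (v ∈ S ↔ u ∈ S) → x u ≤ M') :
    l * x v ≤ din G S v * M + dout G S v * M' := by
  rw [← he v]
  unfold din dout
  rw [Finset.sum_mul, Finset.sum_mul, ← Finset.sum_add_distrib]
  apply Finset.sum_le_sum
  intro u _
  have h1 := ad_nonneg G v u
  by_cases h : (v ∈ S ↔ u ∈ S)
  · simp only [sm, op, if_pos h, one_mul, zero_mul, add_zero]
    exact mul_le_mul_of_nonneg_left (hM u h) h1
  · simp only [sm, op, if_neg h, one_mul, zero_mul, zero_add]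
    exact mul_le_mul_of_nonneg_left (hM' u h) h1

/-- summing the rows of one side -/
lemma sum_rows (he : ∀ v, ∑ u, ad G v u * x u = l * x v) :
    l * ∑ v ∈ Finset.univ \ S, x v =
      ∑ v ∈ Finset.univ \ S, din G S v * x v + ∑ v ∈ S, dout G S v * x v := by
  have h0 : ∀ f : V → ℝ, ∑ v ∈ Finset.univ \ S, f v = ∑ v, (if v ∈ S then 0 else 1) * f v := by
    intro f
    rw [← Finset.sum_subset (Finset.subset_univ (Finset.univ \ S))]
    · apply Finset.sum_congr rfl
      intro u hu
      rw [Finset.mem_sdiff] at hu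
      simp [hu.2]
    · intro u _ hu
      rw [Finset.mem_sdiff] at hu
      have : u ∈ S := by
        by_contra h
        exact hu ⟨Finset.mem_univ u, h⟩
      simp [this]
  have h1 : ∀ f : V → ℝ, ∑ v ∈ S, f v = ∑ v, (if v ∈ S then 1 else 0) * f v := by
    intro f
    rw [← Finset.sum_subset (Finset.subset_univ S)]
    · apply Finset.sum_congr rfl
      intro u hu
      simp [hu]
    · intro u _ hu
      simp [hu]
  rw [Finset.mul_sum, Finset.sum_congr rfl (fun v _ => (he v).symm), h0, h0, h1]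
  simp only [Finset.mul_sum, din, dout, Finset.sum_mul]
  rw [Finset.sum_comm]
  rw [← Finset.sum_add_distrib]
  apply Finset.sum_congr rfl
  intro u _
  rw [← Finset.sum_add_distrib]
  apply Finset.sum_congr rfl
  intro v _
  rw [ad_symm G v u]
  by_cases h2 : u ∈ S <;> by_cases h3 : v ∈ S <;> simp [sm, op, h2, h3]

end row

/-- numerical facts -/
lemma num {N w l : ℝ} (h : Cfg G S N w l) :
    0 < w ∧ 0 < N ∧ (10 : ℝ) ^ 15 * w ≤ N ∧ 0 < l - 4 * w ∧ 0 < l := by
  have h1 := h.hwbig
  have h2 := h.hw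
  have h3 := h.hl
  have hw : 0 < w := lt_of_lt_of_le (by norm_num) h1
  have h4 : (10 : ℝ) ^ 15 * w ≤ N := by nlinarith
  have h5 : 0 < N := lt_of_lt_of_le (by positivity) h4
  refine ⟨hw, h5, h4, ?_, ?_⟩
  · norm_num at h4; linarith
  · linarith

lemma side {N w l : ℝ} {x : V → ℝ} (h : Cfg G S N w l) (hx : ∀ v, 0 ≤ x v)
    (he : ∀ v, ∑ u, ad G v u * x u = l * x v) (v₀ : V) (hv₀ : v₀ ∈ S) (hmax : ∀ u, x u ≤ x v₀) :
    (∀ v ∈ S, x v ≤ (∑ u ∈ Finset.univ \ S, x u) / (l - 4 * w)) ∧
    (∀ v ∈ Finset.univ \ S, x v ≤ (∑ u ∈ S, x u) / (l - 4 * w)) := by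
  obtain ⟨hw, hNpos, hNw, hlw, hlpos⟩ := num G S h
  have hl := h.hl
  have hB0 : 0 ≤ ∑ u ∈ Finset.univ \ S, x u := Finset.sum_nonneg fun u _ => hx u
  have hA0 : 0 ≤ ∑ u ∈ S, x u := Finset.sum_nonneg fun u _ => hx u
  set XA := ∑ u ∈ S, x u with hXA
  set XB := ∑ u ∈ Finset.univ \ S, x u with hXB
  by_cases hlow : N / 16 ≤ dout G S v₀
  · have hd := h.hlow v₀ hlow
    have h1 := row_le (S := S) hx he v₀ (M := x v₀) (fun u _ => hmax u)
    rw [sum_op S hv₀] at h1
    have h2 : x v₀ * (l - 4 * w) ≤ XB := by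
      have := mul_le_mul_of_nonneg_right hd (hx v₀)
      linarith
    have h3 : x v₀ ≤ XB / (l - 4 * w) := by rwa [le_div_iff₀ hlw]
    refine ⟨fun v _ => (hmax v).trans h3, ?_⟩
    intro v hv
    obtain ⟨v₁, hv₁, hmax₁⟩ := (Finset.univ \ S).exists_max_image x ⟨v, hv⟩
    refine (hmax₁ v hv).trans ?_
    have hv₁' : v₁ ∉ S := (Finset.mem_sdiff.1 hv₁).2
    have hsame : ∀ u, (v₁ ∈ S ↔ u ∈ S) → x u ≤ x v₁ := by
      intro u hu
      apply hmax₁
      rw [Finset.mem_sdiff]
      exact ⟨Finset.mem_univ u, fun h => hv₁' (hu.2 h)⟩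
    rw [le_div_iff₀ hlw]
    by_cases hlow₁ : N / 16 ≤ dout G S v₁
    · have hd₁ := h.hlow v₁ hlow₁
      have h4 := row_le (S := S) hx he v₁ hsame
      rw [sum_op' S hv₁'] at h4
      have := mul_le_mul_of_nonneg_right hd₁ (hx v₁)
      linarith
    · push Not at hlow₁
      have hd₁ := h.hopt v₁
      have h4 := row_low (S := S) hx he v₁ hsame (fun u _ => hmax u)
      have h5 : 7 * x v₁ ≤ x v₀ := by
        have e1 : din G S v₁ * x v₁ ≤ (N / 16) * x v₁ :=
          mul_le_mul_of_nonneg_right (by linarith) (hx v₁)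
        have e2 : dout G S v₁ * x v₀ ≤ (N / 16) * x v₀ :=
          mul_le_mul_of_nonneg_right (by linarith) (hx v₀)
        have e3 : (N / 2) * x v₁ ≤ l * x v₁ := mul_le_mul_of_nonneg_right hl (hx v₁)
        have e4 : N * (7 * x v₁) ≤ N * x v₀ := by linarith
        exact le_of_mul_le_mul_left e4 hNpos
      have h6 := sum_rows (S := S) he
      rw [← hXB] at h6
      have h7 : ∑ v ∈ Finset.univ \ S, din G S v * x v ≤ 21 * N * x v₁ := by
        calc ∑ v ∈ Finset.univ \ S, din G S v * x v
            ≤ ∑ v ∈ Finset.univ \ S, din G S v * x v₁ :=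
              Finset.sum_le_sum fun u hu => mul_le_mul_of_nonneg_left (hmax₁ u hu)
                (din_nonneg G S u)
          _ ≤ ∑ v, din G S v * x v₁ :=
              Finset.sum_le_sum_of_subset_of_nonneg (Finset.subset_univ _)
                fun u _ _ => mul_nonneg (din_nonneg G S u) (hx v₁)
          _ = (∑ v, din G S v) * x v₁ := by rw [Finset.sum_mul]
          _ ≤ 21 * N * x v₁ := mul_le_mul_of_nonneg_right h.hI (hx v₁)
      have h8 : ∑ v ∈ S, dout G S v * x v ≤ N * XA := by
        rw [hXA, Finset.mul_sum]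
        apply Finset.sum_le_sum
        intro u hu
        apply mul_le_mul_of_nonneg_right _ (hx u)
        have e1 := dout_add_rr G S hu
        have e2 := rr_nonneg G S u
        have e3 := nA_add_nB S
        have e4 := nA_nonneg S
        rw [h.hN] at e3
        linarith
      -- `x v₁` is small compared with `XB`
      have h9 : 7 * x v₁ * (l - 4 * w) ≤ XB :=
        le_trans (mul_le_mul_of_nonneg_right h5 hlw.le) h2
      have h10 : 0.49 * N ≤ l - 4 * w := by norm_num at hNw; linarith
      have h11 : 21 * N * x v₁ ≤ 6.2 * XB := by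
        have e1 : 7 * x v₁ * (0.49 * N) ≤ 7 * x v₁ * (l - 4 * w) :=
          mul_le_mul_of_nonneg_left h10 (by have := hx v₁; linarith)
        have e2 : 0 ≤ N * x v₁ := mul_nonneg hNpos.le (hx v₁)
        nlinarith
      have h12 : 0.4 * N * XB ≤ N * XA := by
        have e1 : (0.4 * N + 6.2) * XB ≤ l * XB := by
          apply mul_le_mul_of_nonneg_right _ hB0
          have : (10 : ℝ) ^ 15 * (10 : ℝ) ^ 15 ≤ N := by
            have := h.hwbig
            nlinarith
          norm_num at this
          linarith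
        linarith
      have h13 : 0.4 * XB ≤ XA := by
        have : N * (0.4 * XB) ≤ N * XA := by linarith
        exact le_of_mul_le_mul_left this hNpos
      linarith
  · push Not at hlow
    have hd := h.hopt v₀
    have h4 := row_low (S := S) hx he v₀ (fun u _ => hmax u) (fun u _ => hmax u)
    have h5 : x v₀ = 0 := by
      have e1 : din G S v₀ * x v₀ ≤ (N / 16) * x v₀ :=
        mul_le_mul_of_nonneg_right (by linarith) (hx v₀)
      have e2 : dout G S v₀ * x v₀ ≤ (N / 16) * x v₀ :=
        mul_le_mul_of_nonneg_right (by linarith) (hx v₀)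
      have e3 : (N / 2) * x v₀ ≤ l * x v₀ := mul_le_mul_of_nonneg_right hl (hx v₀)
      have e4 : N * x v₀ ≤ 0 := by linarith
      have e5 := hx v₀
      nlinarith
    have h6 : ∀ u, x u ≤ 0 := fun u => (hmax u).trans h5.le
    exact ⟨fun v _ => (h6 v).trans (div_nonneg hB0 hlw.le),
      fun v _ => (h6 v).trans (div_nonneg hA0 hlw.le)⟩

end MX

open MX

theorem max_bound : S_max := by
  intro V _ G S N w l x h hx he
  by_cases hV : Nonempty V
  · obtain ⟨v₀, _, hmax⟩ := (Finset.univ : Finset V).exists_max_image x Finset.univ_nonempty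
    by_cases hv : v₀ ∈ S
    · exact side G S h hx he v₀ hv fun u => hmax u (Finset.mem_univ u)
    · have hv' : v₀ ∈ Finset.univ \ S := by simp [hv]
      have h1 := side G (Finset.univ \ S) (cfg_compl G S h) hx he v₀ hv'
        fun u => hmax u (Finset.mem_univ u)
      rw [compl_compl'] at h1
      exact ⟨h1.2, h1.1⟩
  · exact ⟨fun v _ => absurd ⟨v⟩ hV, fun v _ => absurd ⟨v⟩ hV⟩

end Pool.Agent.Bow
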