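import Pool.Agent.Bow.Stmts

/-!
Module M of MP_b63b1f_co: numerics.
-/

namespace Pool.Agent.Bow

namespace Num

/-- Step 1: `k ≤ 0.2502 n`. -/
theorem step1 (n q k r P D m w : ℝ) (hw : w ^ 2 = n) (hwb : (10 : ℝ) ^ 15 ≤ w)
    (hq0 : 0 ≤ q) (hq : 4 * q ≤ n + 1) (hP0 : 0 ≤ P) (hD : D ≤ 8 * w)
    (hk : k ≤ 10.5 * n) (hr0 : 0 ≤ r) (hr : r ≤ 16 * n) (hm : m ≤ n / 2) (hm0 : 0 ≤ m)
    (hB : k * (k - 1) / 2 * ((n - D) / 2) + 0.0975 * n ^ 2 * P - (2 * k + n / 4) * r ≤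
      q * (q - 1) / 2 * m) : k ≤ 0.2502 * n := by
  by_contra hcon
  push Not at hcon
  have hw0 : 0 < w := lt_of_lt_of_le (by norm_num) hwb
  have hn0 : 0 < n := by rw [← hw]; positivity
  have h1 : (2 * k + n / 4) * r ≤ (22 * n) * (16 * n) := by
    apply mul_le_mul (by linarith) hr hr0 (by linarith)
  have h2 : q * (q - 1) / 2 * m ≤ (n + 1) ^ 2 / 32 * (n / 2) := by
    have h3 : q * (q - 1) / 2 ≤ (n + 1) ^ 2 / 32 := by nlinarith
    calc q * (q - 1) / 2 * m ≤ (n + 1) ^ 2 / 32 * m := mul_le_mul_of_nonneg_right h3 hm0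
      _ ≤ _ := mul_le_mul_of_nonneg_left hm (by positivity)
  have h3 : 0 ≤ 0.0975 * n ^ 2 * P := by positivity
  have hn1 : 10 ^ 15 * w ≤ n := by rw [← hw]; nlinarith
  have h4 : (0.2502 * n) * (0.2502 * n - 1) ≤ k * (k - 1) := by nlinarith
  have hnD : n - 8 * w ≤ n - D := by linarith
  have hpos1 : 0 ≤ n - 8 * w := by nlinarith
  have hpos2 : 0 ≤ (0.2502 * n) * (0.2502 * n - 1) := by
    apply mul_nonneg (by linarith)
    nlinarith
  have h5 : (0.2502 * n) * (0.2502 * n - 1) * (n - 8 * w) ≤ k * (k - 1) * (n - D) := by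
    apply mul_le_mul h4 hnD hpos1 (by linarith)
  have h6 : (0.2502 * n) * (0.2502 * n - 1) * (n - 8 * w) ≤
      (n + 1) ^ 2 * n / 16 + 1408 * n ^ 2 := by
    have e : k * (k - 1) / 2 * ((n - D) / 2) = k * (k - 1) * (n - D) / 4 := by ring
    rw [e] at hB
    nlinarith
  -- contradiction
  have h7 : 8 * w ≤ n / 10 ^ 14 := by
    rw [le_div_iff₀ (by norm_num)]
    nlinarith
  have h8 : (0.2502 * n) * (0.2502 * n - 1) * (n - n / 10 ^ 14) ≤
      (0.2502 * n) * (0.2502 * n - 1) * (n - 8 * w) :=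
    mul_le_mul_of_nonneg_left (by linarith) hpos2
  have hnb : 10 ^ 30 ≤ n := by
    rw [← hw]
    calc (10 : ℝ) ^ 30 = ((10 : ℝ) ^ 15) ^ 2 := by norm_num
      _ ≤ w ^ 2 := by gcongr
  have h9 : (0.2502 * n) * (0.2502 * n - 1) * (n - n / 10 ^ 14)
      = n * (n * ((0.2502 * 0.2502 * (1 - 1 / 10 ^ 14)) * n - 0.2502 * (1 - 1 / 10 ^ 14))) := by
    ring
  have h10 : (n + 1) ^ 2 * n / 16 + 1408 * n ^ 2
      = n * ((n ^ 2 + 2 * n + 1) / 16 + 1408 * n) := by ring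
  have h11 : n * ((0.2502 * 0.2502 * (1 - 1 / 10 ^ 14)) * n - 0.2502 * (1 - 1 / 10 ^ 14)) ≤
      (n ^ 2 + 2 * n + 1) / 16 + 1408 * n := by
    have := (h8.trans h6)
    rw [h9, h10] at this
    exact le_of_mul_le_mul_left this hn0
  have h12 : 0.06259 * n ≤ (0.2502 * 0.2502 * (1 - 1 / 10 ^ 14)) * n := by
    apply mul_le_mul_of_nonneg_right (by norm_num) hn0.le
  have h13 : 0.2502 * (1 - 1 / 10 ^ 14) ≤ (1 : ℝ) := by norm_num
  have h14 : n * (0.06259 * n - 1) ≤ (n ^ 2 + 2 * n + 1) / 16 + 1408 * n := by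
    refine le_trans ?_ h11
    apply mul_le_mul_of_nonneg_left _ hn0.le
    linarith
  nlinarith

/-- Quadratic minimum. -/
theorem quad (D : ℝ) : -0.252 ≤ D ^ 2 / 4 - 0.501 * D := by
  nlinarith [sq_nonneg (D - 1.002)]

/-- the bracket -/
theorem bracket (n k P D c : ℝ) (hn : 0 < n) (hk0 : 0 ≤ k) (hc : k ≤ c * n) (hD : 0 ≤ D) :
    2 * k / n * D + (4 * k + 2 * P) / n + 4 * k ^ 2 / n ^ 2 ≤
      2 * c * D + 4 * c + 4 * c ^ 2 + 2 * (P / n) := by
  have h1 : k / n ≤ c := by rw [div_le_iff₀ hn]; exact hc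
  have h0 : 0 ≤ k / n := by positivity
  have e : 2 * k / n * D + (4 * k + 2 * P) / n + 4 * k ^ 2 / n ^ 2
      = 2 * (k / n) * D + 4 * (k / n) + 4 * (k / n) ^ 2 + 2 * (P / n) := by
    field_simp
    ring
  rw [e]
  have h2 : (k / n) * D ≤ c * D := mul_le_mul_of_nonneg_right h1 hD
  have h3 : (k / n) ^ 2 ≤ c ^ 2 := by gcongr
  linarith

theorem caseLt (N k q r P D ρ π : ℝ) (hnb : 10 ^ 30 ≤ N) (hρ0 : 0 ≤ ρ) (hρD : ρ ≤ D)
    (hDs : D ≤ N / 10 ^ 14) (hk0 : 0 ≤ k) (hkq : k + 1 ≤ q) (hq2 : 2 ≤ q) (hq4 : 4 * q ≤ N + 1)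
    (hr0 : 0 ≤ r) (hπ0 : 0 ≤ π) (hP : P = π * N)
    (hS : 2 * q + 0.66 * r ≤ 2 * k + 1.757 + 2.002 * π)
    (hB : k * (k - 1) / 2 * ((N - D) / 2) + 0.0975 * N ^ 2 * P - (2 * k + N / 4) * r ≤
      q * (q - 1) / 2 * ((N - ρ) / 2)) : False := by
  have hn0 : 0 < N := lt_of_lt_of_le (by norm_num) hnb
  have hπ1 : 0.12 ≤ π := by linarith
  have h1 : q - k ≤ 0.8785 + 1.001 * π := by linarith
  have h2 : r ≤ 3 + 3.04 * π := by linarith
  have e1 : q * (q - 1) / 2 * ((N - ρ) / 2) - k * (k - 1) / 2 * ((N - D) / 2)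
      = (q - k) * (q + k - 1) / 4 * (N - ρ) + k * (k - 1) / 4 * (D - ρ) := by ring
  have h3 : (q - k) * (q + k - 1) / 4 * (N - ρ) ≤ (0.8785 + 1.001 * π) * (N / 8 * N) := by
    have h31 : q + k - 1 ≤ N / 2 := by linarith
    have h32 : 0 ≤ q + k - 1 := by linarith
    have h33 : (q - k) * (q + k - 1) ≤ (0.8785 + 1.001 * π) * (N / 2) :=
      mul_le_mul h1 h31 h32 (by positivity)
    have h34 : 0 ≤ (q - k) * (q + k - 1) := mul_nonneg (by linarith) h32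
    calc (q - k) * (q + k - 1) / 4 * (N - ρ)
        ≤ (q - k) * (q + k - 1) / 4 * N :=
          mul_le_mul_of_nonneg_left (by linarith) (by positivity)
      _ ≤ (0.8785 + 1.001 * π) * (N / 2) / 4 * N := by
          apply mul_le_mul_of_nonneg_right _ hn0.le
          linarith
      _ = _ := by ring
  have h4 : k * (k - 1) / 4 * (D - ρ) ≤ N ^ 2 * (N / 10 ^ 14) := by
    have h40 : k * (k - 1) ≤ N * N := by
      have h401 : k * (k - 1) ≤ k * N := mul_le_mul_of_nonneg_left (by linarith) hk0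
      have h402 : k * N ≤ N * N := mul_le_mul_of_nonneg_right (by linarith) hn0.le
      linarith
    have h41 : k * (k - 1) / 4 ≤ N ^ 2 := by
      have : 0 ≤ N * N := by positivity
      linarith [sq N]
    calc k * (k - 1) / 4 * (D - ρ) ≤ N ^ 2 * (D - ρ) :=
          mul_le_mul_of_nonneg_right h41 (by linarith)
      _ ≤ _ := mul_le_mul_of_nonneg_left (by linarith) (by positivity)
  have h5 : (2 * k + N / 4) * r ≤ N * (3 + 3.04 * π) := by
    apply mul_le_mul (by linarith) h2 hr0 hn0.le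
  have h6 : 0.0975 * N ^ 2 * P ≤ (0.8785 + 1.001 * π) * (N / 8 * N)
      + N ^ 2 * (N / 10 ^ 14) + N * (3 + 3.04 * π) := by linarith
  rw [hP] at h6
  have h7 : N * (0.0975 * N ^ 2 * π) ≤ N * ((0.8785 + 1.001 * π) * (N / 8)
      + N * (N / 10 ^ 14) + (3 + 3.04 * π)) := by linarith
  have h8 := le_of_mul_le_mul_left h7 hn0
  have h9 : 0.12 * N ^ 2 ≤ π * N ^ 2 := mul_le_mul_of_nonneg_right hπ1 (by positivity)
  have h10 : 10 ^ 30 * N ≤ N * N := mul_le_mul_of_nonneg_right hnb hn0.le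
  have h11 : π * (10 ^ 30 * N) ≤ π * (N * N) := mul_le_mul_of_nonneg_left h10 hπ0
  have h12 : π * 10 ^ 30 ≤ π * N := mul_le_mul_of_nonneg_left hnb hπ0
  have hx : 0 ≤ π * N := by positivity
  linarith

theorem caseEq (N k r P D ρ π : ℝ) (hnb : 10 ^ 30 ≤ N) (hρ0 : 0 ≤ ρ) (hρD : ρ ≤ D)
    (hDs : D ≤ N / 10 ^ 14) (hk2 : 2 ≤ k) (hk4 : 4 * k ≤ N + 1) (hr16 : r ≤ 16 * N)
    (hk1 : k ≤ 0.2502 * N) (hr0 : 0 ≤ r) (hP : P = π * N)
    (hB : k * (k - 1) / 2 * ((N - D) / 2) + 0.0975 * N ^ 2 * P - (2 * k + N / 4) * r ≤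
      k * (k - 1) / 2 * ((N - ρ) / 2)) :
    0.0975 * N * P ≤ r + N / 64 * (D - ρ) ∧ π ≤ 1 / 10 ^ 10 := by
  have hn0 : 0 < N := lt_of_lt_of_le (by norm_num) hnb
  have hkr : k * (k - 1) ≤ N ^ 2 / 16 := by
    have h1 : 4 * (k - 1) ≤ N := by linarith
    have h2 : (4 * (k - 1)) * (4 * k) ≤ N * N := by
      by_cases h : 4 * k ≤ N
      · apply mul_le_mul h1 h (by linarith) hn0.le
      · -- `4 k ≤ N + 1`, `4 (k - 1) ≤ N - 3`
        have h3 : (4 * (k - 1)) * (4 * k) ≤ (N - 3) * (N + 1) := by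
          apply mul_le_mul (by linarith) hk4 (by linarith) (by linarith)
        linarith
    linarith [sq N]
  have h1 : 0.0975 * N ^ 2 * P ≤ (2 * k + N / 4) * r + k * (k - 1) / 4 * (D - ρ) := by
    linarith
  have h2 : (2 * k + N / 4) * r ≤ N * r := mul_le_mul_of_nonneg_right (by linarith) hr0
  have h3 : k * (k - 1) / 4 * (D - ρ) ≤ N ^ 2 / 64 * (D - ρ) := by
    apply mul_le_mul_of_nonneg_right _ (by linarith)
    linarith
  have h4 : 0.0975 * N * P ≤ r + N / 64 * (D - ρ) := by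
    have : N * (0.0975 * N * P) ≤ N * (r + N / 64 * (D - ρ)) := by linarith
    exact le_of_mul_le_mul_left this hn0
  refine ⟨h4, ?_⟩
  have h5 : 0.0975 * N * (π * N) ≤ 16 * N + N / 64 * (N / 10 ^ 14) := by
    rw [← hP]
    have : N / 64 * (D - ρ) ≤ N / 64 * (N / 10 ^ 14) :=
      mul_le_mul_of_nonneg_left (by linarith) (by positivity)
    linarith
  have h6 : N * (0.0975 * (π * N)) ≤ N * (16 + N / 64 / 10 ^ 14) := by linarith
  have h7 := le_of_mul_le_mul_left h6 hn0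
  by_contra hcon
  push Not at hcon
  have : 1 / 10 ^ 10 * N ≤ π * N := mul_le_mul_of_nonneg_right hcon.le hn0.le
  linarith

/-- The consequence of (B3) for `k = q + d`. -/
theorem gtStar (N k q r P D ρ π d : ℝ) (hn0 : 0 < N) (hρ0 : 0 ≤ ρ) (hq2 : 2 ≤ q)
    (hkd : k = q + d) (hP : P = π * N)
    (hB : k * (k - 1) / 2 * ((N - D) / 2) + 0.0975 * N ^ 2 * P - (2 * k + N / 4) * r ≤
      q * (q - 1) / 2 * ((N - ρ) / 2)) :
    d * (k + q - 1) + 0.39 * (N * N * π) ≤ (8 * (k / N) + 1) * r + k * (k - 1) * (D / N) := by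
  have h0 : 0 ≤ q * (q - 1) * ρ := mul_nonneg (mul_nonneg (by linarith) (by linarith)) hρ0
  have e1 : k * (k - 1) - q * (q - 1) = d * (k + q - 1) := by rw [hkd]; ring
  have h1 : d * (k + q - 1) * N + 0.39 * (N * N * π) * N ≤
      (8 * k + N) * r + k * (k - 1) * D := by
    rw [← e1]
    rw [hP] at hB
    linarith
  have h2 : (8 * (k / N) + 1) * r + k * (k - 1) * (D / N)
      = ((8 * k + N) * r + k * (k - 1) * D) / N := by
    field_simp
  rw [h2, le_div_iff₀ hn0]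
  linarith

theorem caseGtA (N k q r P D ρ π d : ℝ) (hnb : 10 ^ 30 ≤ N) (hρ0 : 0 ≤ ρ) (hρ1 : ρ ≤ 1)
    (hD0 : 0 ≤ D) (hq2 : 2 ≤ q) (hk1 : k ≤ 0.2502 * N) (hr0 : 0 ≤ r) (hπ0 : 0 ≤ π)
    (hP : P = π * N) (hkd : k = q + d) (hd : d = 1 ∨ 2 ≤ d) (hbig : 1000 ≤ k + q - 1)
    (hS : 2 * q + 0.66 * r + D ^ 2 / 4 ≤ 2 * k + 0.501 * D + 1.255 + ρ / 4 + 2.002 * π)
    (hB : k * (k - 1) / 2 * ((N - D) / 2) + 0.0975 * N ^ 2 * P - (2 * k + N / 4) * r ≤
      q * (q - 1) / 2 * ((N - ρ) / 2)) : False := by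
  have hn0 : 0 < N := lt_of_lt_of_le (by norm_num) hnb
  have hd1 : 1 ≤ d := by rcases hd with h | h <;> linarith
  have hk500 : 500 ≤ k := by linarith
  have hstar := gtStar N k q r P D ρ π d hn0 hρ0 hq2 hkd hP hB
  have hkN : k / N ≤ 0.2502 := by rw [div_le_iff₀ hn0]; exact hk1
  have hkN0 : 0 ≤ k / N := div_nonneg (by linarith) hn0.le
  -- bound for r
  have hr : r ≤ 3.031 * d + 2.663 + 3.034 * π := by
    have h1 := sq_nonneg (D - 1.002)
    have h2 : D ^ 2 / 4 - 0.501 * D ≥ -0.251001 := by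
      have e : (D - 1.002) ^ 2 = D ^ 2 - 2.004 * D + 1.004004 := by ring
      rw [e] at h1
      linarith
    rw [hkd] at hS
    linarith
  -- bound for D
  have hDb : D ≤ 3.85 + 1.031 * d + 1.033 * π := by
    have h1 := sq_nonneg (D / 2 - 0.501 - 1.94)
    have e : (D / 2 - 0.501 - 1.94) ^ 2
        = D ^ 2 / 4 - 0.501 * D + 0.251001 - 3.88 * (D / 2 - 0.501) + 3.7636 := by ring
    rw [e] at h1
    rw [hkd] at hS
    linarith
  have h3 : (8 * (k / N) + 1) * r ≤ 3.0016 * r :=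
    mul_le_mul_of_nonneg_right (by linarith) hr0
  have h4 : k * (k - 1) * (D / N) ≤ 0.2502 * (k * D) := by
    have h41 : k * (k - 1) * (D / N) ≤ k * k * (D / N) := by
      apply mul_le_mul_of_nonneg_right _ (div_nonneg hD0 hn0.le)
      apply mul_le_mul_of_nonneg_left (by linarith) (by linarith)
    have h42 : k * k * (D / N) = (k / N) * (k * D) := by field_simp
    rw [h42] at h41
    have h43 : (k / N) * (k * D) ≤ 0.2502 * (k * D) :=
      mul_le_mul_of_nonneg_right hkN (mul_nonneg (by linarith) hD0)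
    linarith
  have h5 : k * D ≤ k * (3.85 + 1.031 * d + 1.033 * π) :=
    mul_le_mul_of_nonneg_left hDb (by linarith)
  have h6 : k * π ≤ 0.2502 * N * π := mul_le_mul_of_nonneg_right hk1 hπ0
  have h7 : 10 ^ 30 * (N * π) ≤ N * (N * π) := mul_le_mul_of_nonneg_right hnb (by positivity)
  have h8 : 10 ^ 30 * π ≤ N * π := mul_le_mul_of_nonneg_right hnb hπ0
  have h9 : 0 ≤ N * π := by positivity
  have h10 : d * 500 ≤ d * k := mul_le_mul_of_nonneg_left hk500 (by linarith)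
  rcases hd with h | h
  · subst h
    have hkk : k = q + 1 := hkd
    have : k + q - 1 = 2 * k - 2 := by linarith
    rw [this] at hstar
    linarith
  · have h11 : d * k ≤ d * (k + q - 1) := mul_le_mul_of_nonneg_left (by linarith) (by linarith)
    have h12 : 2 * k ≤ d * k := mul_le_mul_of_nonneg_right h (by linarith)
    linarith

theorem caseGtB (N k q r P D ρ π d : ℝ) (hnb : 10 ^ 30 ≤ N) (hρ0 : 0 ≤ ρ)
    (hD0 : 0 ≤ D) (hDs : D ≤ N / 10 ^ 14) (hDρ : ρ ≤ D ^ 2) (hq2 : 2 ≤ q)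
    (hr0 : 0 ≤ r) (hπ0 : 0 ≤ π)
    (hP : P = π * N) (hkd : k = q + d) (hd1 : 1 ≤ d) (hsmall : k ≤ 1000)
    (hS : 2 * q + 0.66 * r + (D ^ 2 - ρ) / 4 ≤
      2 * k + 1.001 * (2 * (1000 / N) * D + 4 * (1000 / N) + 4 * (1000 / N) ^ 2 + 2 * π) + 0.002)
    (hB : k * (k - 1) / 2 * ((N - D) / 2) + 0.0975 * N ^ 2 * P - (2 * k + N / 4) * r ≤
      q * (q - 1) / 2 * ((N - ρ) / 2)) : False := by
  have hn0 : 0 < N := lt_of_lt_of_le (by norm_num) hnb
  have hstar := gtStar N k q r P D ρ π d hn0 hρ0 hq2 hkd hP hB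
  have hDN : D / N ≤ 1 / 10 ^ 14 := by
    rw [div_le_iff₀ hn0]
    linarith
  have hDN0 : 0 ≤ D / N := div_nonneg hD0 hn0.le
  have hc : 1000 / N ≤ 1 / 10 ^ 27 := by
    rw [div_le_div_iff₀ hn0 (by norm_num)]
    linarith
  have hc0 : 0 ≤ 1000 / N := by positivity
  have e1 : 2 * (1000 / N) * D = 2000 * (D / N) := by ring
  have hc2 : (1000 / N) ^ 2 ≤ 1 / 10 ^ 27 := by
    have : (1000 / N) ^ 2 ≤ (1 / 10 ^ 27 : ℝ) ^ 2 := by gcongr
    refine this.trans ?_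
    norm_num
  rw [e1] at hS
  have hr : r ≤ 3.0304 * d + 0.0034 + 3.0334 * π := by
    rw [hkd] at hS
    linarith
  have hkN : k / N ≤ 1 / 10 ^ 27 := by
    refine le_trans ?_ hc
    gcongr
  have h3 : (8 * (k / N) + 1) * r ≤ 1.00001 * r :=
    mul_le_mul_of_nonneg_right (by linarith) hr0
  have h4 : k * (k - 1) * (D / N) ≤ 10 ^ 6 * (1 / 10 ^ 14) := by
    have h41 : k * (k - 1) ≤ 10 ^ 6 := by
      have : k * (k - 1) ≤ 1000 * 1000 := by
        apply mul_le_mul hsmall (by linarith) (by linarith) (by norm_num)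
      linarith
    apply mul_le_mul h41 hDN hDN0 (by norm_num)
  have h5 : d * 4 ≤ d * (k + q - 1) := mul_le_mul_of_nonneg_left (by linarith) (by linarith)
  have h7 : 10 ^ 30 * (N * π) ≤ N * (N * π) := mul_le_mul_of_nonneg_right hnb (by positivity)
  have h8 : 10 ^ 30 * π ≤ N * π := mul_le_mul_of_nonneg_right hnb hπ0
  linarith

end Num

theorem numerics : S_num := by
  intro n q k r P D w hw hwb hq2 hq4 hD8 hpar hk hr hS3 hS3' hB
  have hw0 : 0 < w := lt_of_lt_of_le (by norm_num) hwb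
  set N : ℝ := (n : ℝ) with hN
  have hn0 : 0 < N := by rw [← hw]; positivity
  have hnb : 10 ^ 30 ≤ N := by
    rw [← hw]
    calc (10 : ℝ) ^ 30 = ((10 : ℝ) ^ 15) ^ 2 := by norm_num
      _ ≤ w ^ 2 := by gcongr
  have hwN : 10 ^ 15 * w ≤ N := by
    rw [← hw, sq]
    exact mul_le_mul_of_nonneg_right hwb hw0.le
  set ρ : ℝ := ((n % 2 : ℕ) : ℝ) with hρ
  have hρ0 : 0 ≤ ρ := Nat.cast_nonneg _
  have hρ1 : ρ ≤ 1 := by
    rw [hρ]
    have : n % 2 ≤ 1 := by omega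
    exact_mod_cast this
  have hρD : ρ ≤ (D : ℝ) := by
    rw [hρ]
    have : n % 2 ≤ D := by omega
    exact_mod_cast this
  have hm : ((n / 2 : ℕ) : ℝ) = (N - ρ) / 2 := by
    have h : 2 * (n / 2) + n % 2 = n := Nat.div_add_mod n 2
    have h' : 2 * ((n / 2 : ℕ) : ℝ) + ρ = N := by
      rw [hρ, hN]; exact_mod_cast h
    linarith
  have hq2' : (2 : ℝ) ≤ q := by exact_mod_cast hq2
  have hq4' : 4 * (q : ℝ) ≤ N + 1 := by rw [hN]; exact_mod_cast hq4
  have hk0 : (0 : ℝ) ≤ k := Nat.cast_nonneg _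
  have hr0 : (0 : ℝ) ≤ r := Nat.cast_nonneg _
  have hP0 : (0 : ℝ) ≤ P := Nat.cast_nonneg _
  have hD0 : (0 : ℝ) ≤ D := Nat.cast_nonneg _
  have hk1 : (k : ℝ) ≤ 0.2502 * N :=
    Num.step1 N q k r P D ((n / 2 : ℕ) : ℝ) w hw hwb (by linarith) hq4' hP0 hD8 hk hr0 hr
      (by rw [hm]; linarith) (Nat.cast_nonneg _) hB
  have hbr := Num.bracket N k P D 0.2502 hn0 hk0 hk1 hD0
  have hDsq : ρ ≤ (D : ℝ) ^ 2 := by
    have h1 : n % 2 ≤ D ^ 2 := by
      have h2 : n % 2 ≤ D := by omega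
      have h3 : D ≤ D ^ 2 := Nat.le_self_pow (by norm_num) D
      omega
    rw [hρ]; exact_mod_cast h1
  set π : ℝ := (P : ℝ) / N with hπ
  have hπ0 : 0 ≤ π := by positivity
  have hPπ : (P : ℝ) = π * N := by rw [hπ]; field_simp
  set br : ℝ := 2 * (k : ℝ) / N * D + (4 * (k : ℝ) + 2 * P) / N + 4 * (k : ℝ) ^ 2 / N ^ 2 with hbrdef
  -- simplified S3
  have hS : 2 * (q : ℝ) + 0.66 * r + (D : ℝ) ^ 2 / 4 ≤
      2 * k + 0.501 * D + 1.255 + ρ / 4 + 2.002 * π := by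
    linarith
  have hS' : 512 * r < n → 2 * (q : ℝ) + 1.98 * r + (D : ℝ) ^ 2 / 4 ≤
      2 * k + 0.501 * D + 1.255 + ρ / 4 + 2.002 * π := by
    intro h
    have := hS3' h
    linarith
  have hquad := Num.quad (D : ℝ)
  have hSr : 2 * (q : ℝ) + 0.66 * r ≤ 2 * k + 1.757 + 2.002 * π := by
    linarith
  rw [hm] at hB
  have hsmallD : (D : ℝ) ≤ N / 10 ^ 14 := by
    rw [le_div_iff₀ (by norm_num)]
    linarith
  rcases lt_trichotomy k q with hkq | hkq | hkq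
  · -- case k < q
    have hkq' : (k : ℝ) + 1 ≤ q := by exact_mod_cast hkq
    exact (Num.caseLt N k q r P D ρ π hnb hρ0 hρD hsmallD hk0 hkq' hq2' hq4' hr0 hπ0 hPπ
      hSr hB).elim
  · -- case k = q
    subst hkq
    obtain ⟨h4, hπs⟩ := Num.caseEq N k r P D ρ π hnb hρ0 hρD hsmallD hq2' hq4' hr hk1 hr0 hPπ hB
    have hπs' : π ≤ 0.0000000001 := by
      refine hπs.trans ?_
      norm_num
    have hr3 : (r : ℝ) ≤ 3 := by
      linarith
    have hr3' : r ≤ 3 := by exact_mod_cast hr3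
    have h512 : 512 * r < n := by
      have h1 : ((512 * r : ℕ) : ℝ) < (n : ℝ) := by
        push_cast
        rw [← hN]
        linarith
      exact_mod_cast h1
    have hS2 := hS' h512
    have hr1 : (r : ℝ) < 1 := by
      linarith
    have hr00 : r = 0 := by
      have : r < 1 := by exact_mod_cast hr1
      omega
    have hD3 : D ≤ 3 := by
      by_contra hcon
      push Not at hcon
      have hD4 : (4 : ℝ) ≤ D := by exact_mod_cast hcon
      have h5 : 4 * (D : ℝ) ≤ (D : ℝ) ^ 2 := by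
        rw [sq]
        exact mul_le_mul_of_nonneg_right hD4 hD0
      linarith
    have hP00 : P = 0 := by
      by_contra hcon
      have hP1 : (1 : ℝ) ≤ P := by
        have : 1 ≤ P := Nat.one_le_iff_ne_zero.mpr hcon
        exact_mod_cast this
      have hD3' : (D : ℝ) ≤ 3 := by exact_mod_cast hD3
      have h5 : N * 1 ≤ N * (P : ℝ) := mul_le_mul_of_nonneg_left hP1 hn0.le
      have h6 : N * ((D : ℝ) - ρ) ≤ N * 3 := mul_le_mul_of_nonneg_left (by linarith) hn0.le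
      rw [hr00] at h4
      push_cast at h4
      linarith
    exact ⟨rfl, hr00, hP00, hD3⟩
  · -- case k > q
    exfalso
    obtain ⟨d, hd⟩ : ∃ d : ℕ, k = q + d := ⟨k - q, by omega⟩
    have hd1 : 1 ≤ d := by omega
    have hd1' : (1 : ℝ) ≤ d := by exact_mod_cast hd1
    have hkd : (k : ℝ) = q + d := by rw [hd]; push_cast; ring
    have hd12 : (d : ℝ) = 1 ∨ 2 ≤ (d : ℝ) := by
      rcases Nat.lt_or_ge 1 d with h | h
      · right; exact_mod_cast h
      · left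
        have : d = 1 := by omega
        rw [this]; norm_num
    by_cases hbig : 1000 ≤ (k : ℝ) + q - 1
    · exact Num.caseGtA N k q r P D ρ π d hnb hρ0 hρ1 hD0 hq2' hk1 hr0 hπ0 hPπ hkd hd12 hbig hS hB
    · push Not at hbig
      have hk1000 : (k : ℝ) ≤ 1000 := by linarith
      have hbr2 := Num.bracket N k P D (1000 / N) hn0 hk0
        (by rw [div_mul_cancel₀ _ hn0.ne']; exact hk1000) hD0
      refine Num.caseGtB N k q r P D ρ π d hnb hρ0 hD0 hsmallD hDsq hq2' hr0 hπ0 hPπ hkd hd1'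
        hk1000 ?_ hB
      rw [← hbrdef] at hbr2
      linarith

end Pool.Agent.Bow
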