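import Pool.Agent.Bow.Stmts

/-!
Module A: the largest eigenvalue of a graph.
-/

set_option autoImplicit false

namespace Pool.Agent.Bow

open Finset
open scoped Classical

namespace PerronAux

variable {V : Type} [Fintype V] (G : SimpleGraph V)

theorem ad_symm (u v : V) : ad G u v = ad G v u := by
  unfold ad
  rw [G.adj_comm]

theorem ad_nonneg (u v : V) : 0 ≤ ad G u v := by
  unfold ad
  split_ifs <;> norm_num

/-- the quadratic form -/
noncomputable def qf (y : V → ℝ) : ℝ := ∑ v, ∑ u, ad G v u * y v * y u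

/-- the operator -/
noncomputable def op' (y : V → ℝ) (v : V) : ℝ := ∑ u, ad G v u * y u

theorem qf_eq (y : V → ℝ) : qf G y = ∑ v, y v * op' G y v := by
  unfold qf op'
  refine Finset.sum_congr rfl fun v _ => ?_
  rw [Finset.mul_sum]
  refine Finset.sum_congr rfl fun u _ => ?_
  ring

theorem op'_symm (y z : V → ℝ) : ∑ v, y v * op' G z v = ∑ v, z v * op' G y v := by
  unfold op'
  simp only [Finset.mul_sum]
  rw [Finset.sum_comm]
  refine Finset.sum_congr rfl fun v _ => Finset.sum_congr rfl fun u _ => ?_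
  rw [ad_symm]; ring

theorem qf_add_smul (x z : V → ℝ) (t : ℝ) :
    qf G (fun v => x v + t * z v) = qf G x + 2 * t * ∑ v, z v * op' G x v + t ^ 2 * qf G z := by
  have h1 : ∀ v, op' G (fun v => x v + t * z v) v = op' G x v + t * op' G z v := by
    intro v
    unfold op'
    rw [Finset.mul_sum, ← Finset.sum_add_distrib]
    refine Finset.sum_congr rfl fun u _ => ?_
    ring
  rw [qf_eq, qf_eq, qf_eq]
  have h2 := op'_symm G x z
  simp only [h1]
  have h3 : ∑ v, (x v + t * z v) * (op' G x v + t * op' G z v) =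
      ∑ v, x v * op' G x v + t * ∑ v, x v * op' G z v + t * ∑ v, z v * op' G x v +
        t ^ 2 * ∑ v, z v * op' G z v := by
    rw [Finset.mul_sum, Finset.mul_sum, Finset.mul_sum, ← Finset.sum_add_distrib,
      ← Finset.sum_add_distrib, ← Finset.sum_add_distrib]
    refine Finset.sum_congr rfl fun v _ => ?_
    ring
  rw [h3, h2]; ring

theorem qf_continuous : Continuous (qf G) := by
  unfold qf
  fun_prop

/-- the unit sphere is compact -/
theorem sphere_compact : IsCompact {y : V → ℝ | ∑ v, y v ^ 2 = 1} := by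
  refine Metric.isCompact_of_isClosed_isBounded ?_ ?_
  · exact isClosed_eq (by fun_prop) continuous_const
  · refine (Metric.isBounded_iff_subset_closedBall 0).2 ⟨1, fun y hy => ?_⟩
    rw [mem_closedBall_zero_iff, pi_norm_le_iff_of_nonneg zero_le_one]
    intro v
    have h1 : y v ^ 2 ≤ 1 := by
      rw [← (show ∑ v, y v ^ 2 = 1 from hy)]
      exact Finset.single_le_sum (f := fun v => y v ^ 2) (fun u _ => sq_nonneg _)
        (Finset.mem_univ v)
    rw [Real.norm_eq_abs]
    exact abs_le_one_iff_mul_self_le_one.2 (by nlinarith)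

theorem exists_max [Nonempty V] : ∃ (L : ℝ) (x : V → ℝ), (∀ v, 0 ≤ x v) ∧ ∑ v, x v ^ 2 = 1 ∧
    (∀ y : V → ℝ, |qf G y| ≤ L * ∑ v, y v ^ 2) ∧ ∀ v, op' G x v = L * x v := by
  have hne : {y : V → ℝ | ∑ v, y v ^ 2 = 1}.Nonempty := by
    obtain ⟨v⟩ := ‹Nonempty V›
    refine ⟨fun u => if u = v then 1 else 0, ?_⟩
    simp
  obtain ⟨y₀, hy₀, hmax⟩ := sphere_compact.exists_isMaxOn hne (qf_continuous G).continuousOn
  have hy1 : ∑ v, y₀ v ^ 2 = 1 := hy₀
  set L := qf G y₀ with hL
  -- homogeneity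
  have h1 : ∀ y : V → ℝ, qf G y ≤ L * ∑ v, y v ^ 2 := by
    intro y
    by_cases h : ∑ v, y v ^ 2 = 0
    · have h2 : ∀ v, y v = 0 := fun v => by
        have := (Finset.sum_eq_zero_iff_of_nonneg fun u _ => sq_nonneg (y u)).1 h v
          (Finset.mem_univ v)
        exact pow_eq_zero_iff (two_ne_zero) |>.1 this
      rw [h, mul_zero]
      unfold qf
      exact le_of_eq (Finset.sum_eq_zero fun v _ => Finset.sum_eq_zero fun u _ => by
        rw [h2 v]; ring)
    · have hpos : 0 < ∑ v, y v ^ 2 := lt_of_le_of_ne (Finset.sum_nonneg fun v _ => sq_nonneg _)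
        (Ne.symm h)
      set c := Real.sqrt (∑ v, y v ^ 2) with hc
      have hc2 : c ^ 2 = ∑ v, y v ^ 2 := Real.sq_sqrt hpos.le
      have hc0 : 0 < c := Real.sqrt_pos.2 hpos
      have h3 : (fun v => y v / c) ∈ {y : V → ℝ | ∑ v, y v ^ 2 = 1} := by
        show ∑ v, (y v / c) ^ 2 = 1
        simp only [div_pow]
        rw [← Finset.sum_div, hc2, div_self h]
      have h4 : qf G (fun v => y v / c) ≤ L := hmax h3
      have h5 : qf G (fun v => y v / c) = qf G y / c ^ 2 := by
        unfold qf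
        rw [Finset.sum_div]
        refine Finset.sum_congr rfl fun v _ => ?_
        rw [Finset.sum_div]
        refine Finset.sum_congr rfl fun u _ => ?_
        field_simp
      rw [h5, div_le_iff₀ (by positivity), hc2] at h4
      exact h4
  have habs : ∀ y : V → ℝ, |qf G y| ≤ qf G fun v => |y v| := by
    intro y
    unfold qf
    refine (Finset.abs_sum_le_sum_abs _ _).trans (Finset.sum_le_sum fun v _ => ?_)
    refine (Finset.abs_sum_le_sum_abs _ _).trans (Finset.sum_le_sum fun u _ => ?_)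
    rw [abs_mul, abs_mul, abs_of_nonneg (ad_nonneg G v u)]
  have habs2 : ∀ y : V → ℝ, |qf G y| ≤ L * ∑ v, y v ^ 2 := by
    intro y
    refine (habs y).trans ((h1 _).trans (le_of_eq ?_))
    simp only [sq_abs]
  refine ⟨L, fun v => |y₀ v|, fun v => abs_nonneg _, by simpa only [sq_abs] using hy1, habs2, ?_⟩
  set x : V → ℝ := fun v => |y₀ v| with hx
  have hx1 : ∑ v, x v ^ 2 = 1 := by simpa only [hx, sq_abs] using hy1
  have hxL : qf G x = L := by
    refine le_antisymm ?_ ?_
    · have := h1 x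
      rwa [hx1, mul_one] at this
    · exact (le_abs_self _).trans (habs y₀)
  -- first order condition
  set z : V → ℝ := fun v => op' G x v - L * x v with hz
  have h6 : ∀ t : ℝ, 2 * t * ∑ v, z v ^ 2 ≤ t ^ 2 * (L * ∑ v, z v ^ 2 - qf G z) := by
    intro t
    have h7 := h1 fun v => x v + t * z v
    rw [qf_add_smul, hxL] at h7
    have h8 : ∑ v, (x v + t * z v) ^ 2 = 1 + 2 * t * ∑ v, x v * z v + t ^ 2 * ∑ v, z v ^ 2 := by
      rw [← hx1, Finset.mul_sum, Finset.mul_sum, ← Finset.sum_add_distrib,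
        ← Finset.sum_add_distrib]
      refine Finset.sum_congr rfl fun v _ => ?_
      ring
    rw [h8] at h7
    have h9 : ∑ v, z v ^ 2 = ∑ v, z v * op' G x v - L * ∑ v, x v * z v := by
      rw [Finset.mul_sum, ← Finset.sum_sub_distrib]
      refine Finset.sum_congr rfl fun v _ => ?_
      rw [hz]; ring
    have h10 : 2 * t * ∑ v, z v ^ 2 =
        2 * t * ∑ v, z v * op' G x v - 2 * t * (L * ∑ v, x v * z v) := by
      linear_combination (2 * t) * h9
    nlinarith [h7, h10]
  have h7 : ∑ v, z v ^ 2 = 0 := by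
    by_contra hne
    have hpos : 0 < ∑ v, z v ^ 2 := lt_of_le_of_ne (Finset.sum_nonneg fun v _ => sq_nonneg _)
      (Ne.symm hne)
    set S := ∑ v, z v ^ 2 with hS
    set C := L * S - qf G z with hC
    have h8 := h6 (S / (|C| + 1))
    have hC1 : 0 < |C| + 1 := by positivity
    have h9 : C ≤ |C| := le_abs_self C
    have ht : 0 < S / (|C| + 1) := div_pos hpos hC1
    have h10 : 2 * S ≤ S / (|C| + 1) * C := by
      have : S / (|C| + 1) * (2 * S) ≤ S / (|C| + 1) * (S / (|C| + 1) * C) := by nlinarith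
      exact le_of_mul_le_mul_left this ht
    have h11 : S / (|C| + 1) * C ≤ S := by
      rw [div_mul_eq_mul_div, div_le_iff₀ hC1]
      nlinarith
    linarith
  intro v
  have h8 := (Finset.sum_eq_zero_iff_of_nonneg fun u _ => sq_nonneg (z u)).1 h7 v
    (Finset.mem_univ v)
  have h9 : z v = 0 := pow_eq_zero_iff (two_ne_zero) |>.1 h8
  have h10 : op' G x v - L * x v = 0 := h9
  linarith

theorem mulVec_eq (y : V → ℝ) (v : V) : (G.adjMatrix ℝ).mulVec y v = op' G y v := by
  unfold op' ad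
  simp [Matrix.mulVec, dotProduct, SimpleGraph.adjMatrix_apply]

end PerronAux

open PerronAux in
theorem perron : S_perron := by
  intro V _ _ G
  obtain ⟨L, x, hx0, hx1, hL, hxe⟩ := exists_max G
  have hle : ∀ (μ : ℝ) (y : V → ℝ), y ≠ 0 → (∀ v, op' G y v = μ * y v) → μ ≤ L := by
    intro μ y hy hμ
    have hpos : 0 < ∑ v, y v ^ 2 := by
      obtain ⟨v, hv⟩ := Function.ne_iff.1 hy
      refine Finset.sum_pos' (fun u _ => sq_nonneg _) ⟨v, Finset.mem_univ v, ?_⟩
      exact lt_of_le_of_ne (sq_nonneg _) (Ne.symm (pow_ne_zero 2 hv))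
    have h1 : qf G y = μ * ∑ v, y v ^ 2 := by
      rw [qf_eq, Finset.mul_sum]
      refine Finset.sum_congr rfl fun v _ => ?_
      rw [hμ v]; ring
    have h2 := (le_abs_self _).trans (hL y)
    rw [h1] at h2
    exact le_of_mul_le_mul_right h2 hpos
  have hxne : x ≠ 0 := by
    rintro rfl
    simp at hx1
  have hgr : IsGreatest {μ : ℝ | ∃ x : V → ℝ, x ≠ 0 ∧ (G.adjMatrix ℝ).mulVec x = μ • x} L := by
    constructor
    · refine ⟨x, hxne, ?_⟩
      ext v
      rw [mulVec_eq, hxe v]
      rfl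
    · rintro μ ⟨y, hy, hμ⟩
      refine hle μ y hy fun v => ?_
      rw [← mulVec_eq, hμ]
      rfl
  have hlam : lam G = L := hgr.csSup_eq
  rw [hlam]
  refine ⟨?_, ⟨x, hx0, hx1, hxe⟩, hL, hle⟩
  have h1 := hL x
  rw [hx1, mul_one] at h1
  exact (abs_nonneg _).trans h1

end Pool.Agent.Bow
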