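import Pool.Agent.Bow.Max

/-!
Module J of MP_b63b1f_co: the spectral inequality.
-/

namespace Pool.Agent.Bow

open Finset
open scoped Classical

namespace SP

open MX

variable {V : Type} [Fintype V] (G : SimpleGraph V) (S : Finset V)

/-- indicator of bad vertices -/
noncomputable def bd (v : V) : ℝ := if bad G S v then 1 else 0

lemma bd_nonneg (v : V) : 0 ≤ bd G S v := by unfold bd; split_ifs <;> norm_num
lemma bd_le_one (v : V) : bd G S v ≤ 1 := by unfold bd; split_ifs <;> norm_num

lemma bd_compl (v : V) : bd G (Finset.univ \ S) v = bd G S v := by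
  unfold bd; simp only [bad_compl]

lemma F_eq (u v : V) : F G S u v = sm S u v * ad G u v * ((1 - bd G S u) * (1 - bd G S v)) := by
  unfold F sm ad bd
  by_cases h1 : (u ∈ S ↔ v ∈ S) <;> by_cases h2 : G.Adj u v <;> by_cases h3 : bad G S u <;>
    by_cases h4 : bad G S v <;> simp [h1, h2, h3, h4]

lemma gg_eq (v : V) : gg G S v =
    (1 - bd G S v) * ∑ u, sm S v u * ad G v u * (1 - bd G S u) := by
  unfold gg
  rw [Finset.mul_sum]
  apply Finset.sum_congr rfl
  intro u _
  rw [F_eq]
  ring

lemma gg_nonneg (v : V) : 0 ≤ gg G S v := by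
  rw [gg_eq]
  apply mul_nonneg
  · linarith [bd_le_one G S v]
  · apply Finset.sum_nonneg
    intro u _
    apply mul_nonneg (mul_nonneg (sm_nonneg S v u) (ad_nonneg G v u))
    linarith [bd_le_one G S u]

/-- number of bad neighbours in the own part -/
noncomputable def bn (v : V) : ℝ := ∑ u, sm S v u * ad G v u * bd G S u

lemma bn_nonneg (v : V) : 0 ≤ bn G S v :=
  Finset.sum_nonneg fun u _ => mul_nonneg (mul_nonneg (sm_nonneg S v u) (ad_nonneg G v u))
    (bd_nonneg G S u)

lemma gg_eq' (v : V) : gg G S v = (1 - bd G S v) * (din G S v - bn G S v) := by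
  rw [gg_eq]
  unfold din bn
  rw [← Finset.sum_sub_distrib]
  congr 1
  apply Finset.sum_congr rfl
  intro u _
  ring

lemma bn_le_din (v : V) : bn G S v ≤ din G S v := by
  apply Finset.sum_le_sum
  intro u _
  have h1 := bd_le_one G S u
  have h2 := mul_nonneg (sm_nonneg S v u) (ad_nonneg G v u)
  nlinarith

lemma gg_le_din (v : V) : gg G S v ≤ din G S v := by
  rw [gg_eq']
  have h1 := bd_nonneg G S v
  have h2 := bd_le_one G S v
  have h3 := bn_nonneg G S v
  have h4 := bn_le_din G S v
  nlinarith

lemma diff_le (v : V) : din G S v - gg G S v ≤ bd G S v * din G S v + bn G S v := by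
  rw [gg_eq']
  have h1 := bd_nonneg G S v
  have h3 := bn_nonneg G S v
  nlinarith

/-- inside degrees of the bad vertices of one side -/
noncomputable def del : ℝ := ∑ v ∈ S, bd G S v * din G S v

lemma del_nonneg : 0 ≤ del G S :=
  Finset.sum_nonneg fun v _ => mul_nonneg (bd_nonneg G S v) (din_nonneg G S v)

lemma sum_bn_le : ∑ v ∈ S, bn G S v ≤ del G S := by
  unfold bn del
  rw [Finset.sum_comm]
  rw [← Finset.sum_subset (Finset.subset_univ S)]
  · apply Finset.sum_le_sum
    intro u hu
    unfold din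
    rw [Finset.mul_sum]
    calc ∑ v ∈ S, sm S v u * ad G v u * bd G S u
        ≤ ∑ v, sm S v u * ad G v u * bd G S u :=
          Finset.sum_le_sum_of_subset_of_nonneg (Finset.subset_univ S) fun v _ _ =>
            mul_nonneg (mul_nonneg (sm_nonneg S v u) (ad_nonneg G v u)) (bd_nonneg G S u)
      _ = ∑ v, bd G S u * (sm S u v * ad G u v) := by
          apply Finset.sum_congr rfl
          intro v _
          rw [sm_symm S v u, ad_symm G v u]
          ring
  · intro u _ hu
    apply Finset.sum_eq_zero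
    intro v hv
    have : sm S v u = 0 := by
      unfold sm
      rw [if_neg]
      intro h
      exact hu (h.1 hv)
    rw [this]
    ring

lemma sum_diff_le : ∑ v ∈ S, (din G S v - gg G S v) ≤ 2 * del G S := by
  calc ∑ v ∈ S, (din G S v - gg G S v)
      ≤ ∑ v ∈ S, (bd G S v * din G S v + bn G S v) := Finset.sum_le_sum fun v _ => diff_le G S v
    _ = del G S + ∑ v ∈ S, bn G S v := by rw [Finset.sum_add_distrib]; rfl
    _ ≤ 2 * del G S := by linarith [sum_bn_le G S]

/-- rough sizes -/
lemma sizes {N w l : ℝ} (h : Cfg G S N w l) :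
    N / 2 - 4 * w ≤ nA S ∧ N / 2 - 4 * w ≤ nB S ∧ nA S ≤ N / 2 + 4 * w ∧ nB S ≤ N / 2 + 4 * w := by
  have h1 := nA_add_nB S
  rw [h.hN] at h1
  have h2 := abs_le.1 h.hD
  refine ⟨?_, ?_, ?_, ?_⟩ <;> linarith

lemma other {N w l : ℝ} (h : Cfg G S N w l) (v : V) :
    N / 2 - 4 * w ≤ dout G S v + rr G S v := by
  obtain ⟨h1, h2, _, _⟩ := sizes G S h
  by_cases hv : v ∈ S
  · rw [dout_add_rr G S hv]; exact h2
  · rw [dout_add_rr' G S hv]; exact h1

lemma good_din {N w l : ℝ} (h : Cfg G S N w l) (v : V) (hv : ¬ bad G S v) :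
    din G S v ≤ 4 * w := by
  obtain ⟨hw, hNpos, hNw, hlw, hlpos⟩ := num G S h
  apply h.hlow
  unfold bad at hv
  rw [h.hN] at hv
  have h1 := other G S h v
  norm_num at hNw
  linarith

lemma bad_din {N w l : ℝ} (h : Cfg G S N w l) (v : V) (hv : bad G S v) :
    din G S v ≤ 0.143 * rr G S v := by
  obtain ⟨hw, hNpos, hNw, hlw, hlpos⟩ := num G S h
  unfold bad at hv
  rw [h.hN] at hv
  norm_num at hNw
  by_cases hlow : N / 16 ≤ dout G S v
  · have := h.hlow v hlow
    linarith
  · push Not at hlow
    have h1 := other G S h v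
    have h2 := h.hopt v
    linarith

lemma sum_gg_diff {N w l : ℝ} (h : Cfg G S N w l) :
    ∑ v ∈ S, gg G S v * (din G S v - gg G S v) ≤ 4 * w * del G S := by
  obtain ⟨hw, hNpos, hNw, hlw, hlpos⟩ := num G S h
  calc ∑ v ∈ S, gg G S v * (din G S v - gg G S v)
      ≤ ∑ v ∈ S, 4 * w * bn G S v := by
        apply Finset.sum_le_sum
        intro v _
        by_cases hv : bad G S v
        · have : gg G S v = 0 := by
            rw [gg_eq']
            simp [bd, hv]
          rw [this]
          have := bn_nonneg G S v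
          have : 0 ≤ 4 * w * bn G S v := by positivity
          linarith
        · have h1 : gg G S v = din G S v - bn G S v := by
            rw [gg_eq']
            simp [bd, hv]
          have h2 := good_din G S h v hv
          have h3 := gg_le_din G S v
          have h4 : din G S v - gg G S v = bn G S v := by rw [h1]; ring
          rw [h4]
          exact mul_le_mul_of_nonneg_right (by linarith) (bn_nonneg G S v)
    _ = 4 * w * ∑ v ∈ S, bn G S v := by rw [Finset.mul_sum]
    _ ≤ 4 * w * del G S := mul_le_mul_of_nonneg_left (sum_bn_le G S) (by positivity)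

/-- ordered good paths of one side -/
noncomputable def P2A : ℝ := ∑ v ∈ S, gg G S v * (gg G S v - 1)

lemma P2_eq : P2 G S = P2A G S + P2A G (Finset.univ \ S) := by
  unfold P2 P2A
  simp only [gg_compl]
  rw [add_comm]
  exact (Finset.sum_sdiff (Finset.subset_univ S)).symm

section eig

variable {G S} {x : V → ℝ} {N w l : ℝ}

/-- the inside contribution of one side -/
lemma half (h : Cfg G S N w l) (hx : ∀ v, 0 ≤ x v) (he : ∀ v, ∑ u, ad G v u * x u = l * x v)
    {M : ℝ} (hM0 : 0 ≤ M) (hM : ∀ v ∈ S, x v ≤ M) :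
    ∑ v ∈ S, din G S v * (l * x v) ≤ GA G S * (∑ u ∈ Finset.univ \ S, x u) +
      M * (GA G S + P2A G S + 4 * w * del G S) + 2 * l * M * del G S := by
  obtain ⟨hw, hNpos, hNw, hlw, hlpos⟩ := num G S h
  set XB := ∑ u ∈ Finset.univ \ S, x u with hXB
  have h1 : ∀ v ∈ S, l * x v ≤ din G S v * M + XB := by
    intro v hv
    have := row_le (S := S) hx he v (M := M) (fun u hu => hM u (hu.1 hv))
    rwa [sum_op S hv] at this
  have h2 : ∑ v ∈ S, gg G S v * (l * x v) ≤ GA G S * XB +
      M * (GA G S + P2A G S + 4 * w * del G S) := by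
    calc ∑ v ∈ S, gg G S v * (l * x v)
        ≤ ∑ v ∈ S, gg G S v * (din G S v * M + XB) :=
          Finset.sum_le_sum fun v hv => mul_le_mul_of_nonneg_left (h1 v hv) (gg_nonneg G S v)
      _ = GA G S * XB + M * (GA G S + P2A G S + ∑ v ∈ S, gg G S v * (din G S v - gg G S v)) := by
          unfold GA P2A
          rw [Finset.sum_mul, ← Finset.sum_add_distrib, ← Finset.sum_add_distrib, Finset.mul_sum,
            ← Finset.sum_add_distrib]
          apply Finset.sum_congr rfl
          intro v _
          ring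
      _ ≤ _ := by
          have := sum_gg_diff G S h
          have := mul_le_mul_of_nonneg_left this hM0
          linarith
  have h3 : ∑ v ∈ S, (din G S v - gg G S v) * (l * x v) ≤ 2 * l * M * del G S := by
    calc ∑ v ∈ S, (din G S v - gg G S v) * (l * x v)
        ≤ ∑ v ∈ S, (din G S v - gg G S v) * (l * M) := by
          apply Finset.sum_le_sum
          intro v hv
          apply mul_le_mul_of_nonneg_left
          · exact mul_le_mul_of_nonneg_left (hM v hv) hlpos.le
          · linarith [gg_le_din G S v]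
      _ = (∑ v ∈ S, (din G S v - gg G S v)) * (l * M) := by rw [Finset.sum_mul]
      _ ≤ (2 * del G S) * (l * M) :=
          mul_le_mul_of_nonneg_right (sum_diff_le G S) (mul_nonneg hlpos.le hM0)
      _ = 2 * l * M * del G S := by ring
  have h4 : ∑ v ∈ S, din G S v * (l * x v) =
      ∑ v ∈ S, gg G S v * (l * x v) + ∑ v ∈ S, (din G S v - gg G S v) * (l * x v) := by
    rw [← Finset.sum_add_distrib]
    apply Finset.sum_congr rfl
    intro v _
    ring
  rw [h4]
  linarith

/-- the missing contribution of one side -/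
lemma miss (h : Cfg G S N w l) (hx : ∀ v, 0 ≤ x v) (he : ∀ v, ∑ u, ad G v u * x u = l * x v)
    {M c : ℝ} (hM0 : 0 ≤ M) (hM : ∀ v ∈ Finset.univ \ S, x v ≤ M)
    (hc : c ≤ (∑ u ∈ Finset.univ \ S, x u) - N / 256 * M) :
    c * ∑ v ∈ S, (1 - bd G S v) * rr G S v ≤ ∑ v ∈ S, rr G S v * (l * x v) := by
  obtain ⟨hw, hNpos, hNw, hlw, hlpos⟩ := num G S h
  rw [Finset.mul_sum]
  apply Finset.sum_le_sum
  intro v hv
  have hr := rr_nonneg G S v
  by_cases hb : bad G S v
  · have : (1 - bd G S v) = 0 := by simp [bd, hb]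
    rw [this]
    have : 0 ≤ rr G S v * (l * x v) := mul_nonneg hr (mul_nonneg hlpos.le (hx v))
    linarith
  · have h1 : (1 - bd G S v) = 1 := by simp [bd, hb]
    rw [h1]
    have h2 : (∑ u ∈ Finset.univ \ S, x u) - rr G S v * M ≤ l * x v := by
      rw [← he v, ← sum_op S hv, sub_le_iff_le_add]
      unfold rr
      rw [Finset.sum_mul, ← Finset.sum_add_distrib]
      apply Finset.sum_le_sum
      intro u _
      have e1 := ad_nonneg G v u
      have e2 := ad_le_one G v u
      by_cases hs : (v ∈ S ↔ u ∈ S)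
      · simp only [op, if_pos hs, zero_mul, add_zero]
        exact mul_nonneg e1 (hx u)
      · simp only [op, if_neg hs, one_mul]
        have hu : u ∈ Finset.univ \ S := by
          rw [Finset.mem_sdiff]
          exact ⟨Finset.mem_univ u, fun hu => hs ⟨fun _ => hu, fun _ => hv⟩⟩
        have := mul_le_mul_of_nonneg_left (hM u hu) (show 0 ≤ 1 - ad G v u by linarith)
        linarith
    have h3 : rr G S v * M ≤ N / 256 * M := by
      apply mul_le_mul_of_nonneg_right _ hM0
      unfold bad at hb
      rw [h.hN] at hb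
      linarith
    have h4 : c ≤ l * x v := by linarith
    calc c * (1 * rr G S v) = rr G S v * c := by ring
      _ ≤ rr G S v * (l * x v) := mul_le_mul_of_nonneg_left h4 hr

end eig

/-- missing pair indicator -/
noncomputable def mis (v u : V) : ℝ := op S v u * (1 - ad G v u)

lemma mis_nonneg (v u : V) : 0 ≤ mis G S v u :=
  mul_nonneg (op_nonneg S v u) (by linarith [ad_le_one G v u])

lemma mis_le_one (v u : V) : mis G S v u ≤ 1 := by
  unfold mis
  have h1 := op_nonneg S v u
  have h2 := op_le_one S v u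
  have h3 := ad_nonneg G v u
  nlinarith

lemma mis_symm (v u : V) : mis G S v u = mis G S u v := by
  unfold mis; rw [op_symm, ad_symm]

/-- the bad vertices carry at most about half of the missing pairs -/
lemma RZ_le {N w l : ℝ} (h : Cfg G S N w l) :
    0.999 * ∑ v, bd G S v * rr G S v ≤ ∑ v, (1 - bd G S v) * rr G S v := by
  obtain ⟨hw, hNpos, hNw, hlw, hlpos⟩ := num G S h
  have hN30 : (10 : ℝ) ^ 15 * (10 : ℝ) ^ 15 ≤ N := by
    have := h.hwbig
    nlinarith
  norm_num at hN30
  have hcard : ∑ v, bd G S v ≤ 8192 := by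
    have h1 : ∑ v, bd G S v * (N / 256) ≤ RR G S := by
      unfold RR
      apply Finset.sum_le_sum
      intro v _
      by_cases hb : bad G S v
      · have hb' := hb
        unfold bad at hb'
        rw [h.hN] at hb'
        simp only [bd, if_pos hb, one_mul]
        exact hb'
      · simp only [bd, if_neg hb, zero_mul]
        exact rr_nonneg G S v
    rw [← Finset.sum_mul] at h1
    have h2 := h.hRR
    have h3 : (∑ v, bd G S v) * (N / 256) ≤ 8192 * (N / 256) := by linarith
    exact le_of_mul_le_mul_right h3 (by positivity)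
  have h1 : ∀ v, 0.999 * (bd G S v * rr G S v) ≤
      bd G S v * ∑ u, mis G S v u * (1 - bd G S u) := by
    intro v
    by_cases hb : bad G S v
    · simp only [bd, if_pos hb, one_mul]
      have hb' := hb
      unfold bad at hb'
      rw [h.hN] at hb'
      have e1 : rr G S v ≤ ∑ u, mis G S v u * (1 - bd G S u) + ∑ u, bd G S u := by
        rw [← Finset.sum_add_distrib]
        unfold rr
        apply Finset.sum_le_sum
        intro u _
        have e2 := mis_le_one G S v u
        have e3 := bd_nonneg G S u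
        have e4 := mis_nonneg G S v u
        show mis G S v u ≤ _
        nlinarith
      have e5 : ∑ u, mis G S v u * (1 - bd G S u) =
          ∑ u, mis G S v u * (1 - if bad G S u then 1 else 0) := rfl
      rw [← e5]
      linarith
    · simp [bd, hb]
  calc 0.999 * ∑ v, bd G S v * rr G S v
      = ∑ v, 0.999 * (bd G S v * rr G S v) := by rw [Finset.mul_sum]
    _ ≤ ∑ v, bd G S v * ∑ u, mis G S v u * (1 - bd G S u) := Finset.sum_le_sum fun v _ => h1 v
    _ = ∑ u, (1 - bd G S u) * ∑ v, mis G S u v * bd G S v := by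
        simp only [Finset.mul_sum]
        rw [Finset.sum_comm]
        apply Finset.sum_congr rfl
        intro u _
        apply Finset.sum_congr rfl
        intro v _
        rw [mis_symm G S v u]
        ring
    _ ≤ ∑ u, (1 - bd G S u) * rr G S u := by
        apply Finset.sum_le_sum
        intro u _
        apply mul_le_mul_of_nonneg_left
        · unfold rr
          apply Finset.sum_le_sum
          intro v _
          show mis G S u v * bd G S v ≤ mis G S u v
          have e1 := mis_nonneg G S u v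
          have e2 := bd_le_one G S v
          nlinarith
        · linarith [bd_le_one G S u]

lemma del_le {N w l : ℝ} (h : Cfg G S N w l) :
    del G S ≤ 0.143 * ∑ v ∈ S, bd G S v * rr G S v := by
  unfold del
  rw [Finset.mul_sum]
  apply Finset.sum_le_sum
  intro v _
  by_cases hb : bad G S v
  · have := bad_din G S h v hb
    simp only [bd, if_pos hb, one_mul]
    exact this
  · simp [bd, hb]

lemma sum_split (f : V → ℝ) : ∑ v ∈ S, f v + ∑ v ∈ Finset.univ \ S, f v = ∑ v, f v := by
  rw [add_comm]
  exact Finset.sum_sdiff (Finset.subset_univ S)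

/-- The identity. -/
lemma ident {x : V → ℝ} {l : ℝ} (he : ∀ v, ∑ u, ad G v u * x u = l * x v) :
    l * ∑ v ∈ Finset.univ \ S, x v = ∑ v ∈ Finset.univ \ S, din G S v * x v +
      nB S * ∑ v ∈ S, x v - ∑ v ∈ S, rr G S v * x v := by
  rw [sum_rows (S := S) he, Finset.mul_sum]
  have : ∑ v ∈ S, dout G S v * x v = ∑ v ∈ S, nB S * x v - ∑ v ∈ S, rr G S v * x v := by
    rw [← Finset.sum_sub_distrib]
    apply Finset.sum_congr rfl
    intro v hv
    rw [← dout_add_rr G S hv]
    ring
  rw [this]
  ring


/-- The inequality for a normalised eigenvector. -/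
lemma core {x : V → ℝ} {N w l : ℝ} (h : Cfg G S N w l) (hx : ∀ v, 0 ≤ x v)
    (he : ∀ v, ∑ u, ad G v u * x u = l * x v) (hone : ∑ v ∈ S, x v = 1) :
    l ^ 2 ≤ nA S * nB S + nB S / l * GA G S + nA S / l * GB G S
      + 1.001 * ((GA G S + GB G S + P2 G S) * (2 / N))
      + 1.001 * (4 * GA G S * GB G S / N ^ 2)
      + 2.01 * (del G S + del G (Finset.univ \ S))
      - 0.99 * ∑ v, (1 - bd G S v) * rr G S v := by
  obtain ⟨hw, hNpos, hNw, hLpos, hlpos⟩ := num G S h
  obtain ⟨hA, hB⟩ := max_bound V G S N w l x h hx he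
  have hcc := cfg_compl G S h
  have hl := h.hl
  obtain ⟨hs1, hs2, hs3, hs4⟩ := sizes G S h
  have hN30 : (10 : ℝ) ^ 15 * (10 : ℝ) ^ 15 ≤ N := by
    have := h.hwbig
    nlinarith
  norm_num at hN30 hNw
  rw [hone] at hB
  set β := ∑ u ∈ Finset.univ \ S, x u with hβ
  have hβ0 : 0 ≤ β := Finset.sum_nonneg fun u _ => hx u
  set L := l - 4 * w with hL
  set δA := del G S with hδA
  set δB := del G (Finset.univ \ S) with hδB
  have hδA0 : 0 ≤ δA := del_nonneg G S
  have hδB0 : 0 ≤ δB := del_nonneg G _
  have hGA0 : 0 ≤ GA G S := Finset.sum_nonneg fun v _ => gg_nonneg G S v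
  have hGB0 : 0 ≤ GB G S := Finset.sum_nonneg fun v _ => gg_nonneg G S v
  -- inverses
  have hiN : 0 < 1 / N := by positivity
  have e1 : 1 / L ≤ 2.000001 * (1 / N) := by
    rw [mul_one_div, div_le_div_iff₀ hLpos hNpos]
    have : N / 2 - 4 * w ≤ L := by rw [hL]; linarith
    linarith
  have e1' : 0 < 1 / L := by positivity
  have e2 : 1 / l ≤ 2 * (1 / N) := by
    rw [mul_one_div, div_le_div_iff₀ hlpos hNpos]
    linarith
  have e2' : 0 < 1 / l := by positivity
  have hNN : N * (1 / N) = 1 := by field_simp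
  -- inside sums
  set EA := ∑ v ∈ S, din G S v with hEA
  set EB := ∑ v ∈ Finset.univ \ S, din G S v with hEB
  have hEA0 : 0 ≤ EA := Finset.sum_nonneg fun v _ => din_nonneg G S v
  have hEB0 : 0 ≤ EB := Finset.sum_nonneg fun v _ => din_nonneg G S v
  have hE : EA + EB ≤ 21 * N := by
    have := sum_split S (fun v => din G S v)
    have h2 := h.hI
    linarith
  have hGAE : GA G S ≤ EA := Finset.sum_le_sum fun v _ => gg_le_din G S v
  have hEBG : EB ≤ GB G S + 2 * δB := by
    have := sum_diff_le G (Finset.univ \ S)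
    simp only [din_compl, gg_compl] at this
    rw [Finset.sum_sub_distrib] at this
    unfold GB
    linarith
  -- the two identities
  have i1 := ident G S he
  rw [← hβ, hone] at i1
  have i2 := ident G (Finset.univ \ S) he
  rw [compl_compl', hone, nB_compl, ← hβ] at i2
  simp only [din_compl, rr_compl] at i2
  have hrA : 0 ≤ ∑ v ∈ S, rr G S v * x v :=
    Finset.sum_nonneg fun v _ => mul_nonneg (rr_nonneg G S v) (hx v)
  have hrB : 0 ≤ ∑ v ∈ Finset.univ \ S, rr G S v * x v :=
    Finset.sum_nonneg fun v _ => mul_nonneg (rr_nonneg G S v) (hx v)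
  have j1 : ∑ v ∈ Finset.univ \ S, din G S v * x v ≤ EB * (1 / L) := by
    rw [hEB, Finset.sum_mul]
    exact Finset.sum_le_sum fun v hv => mul_le_mul_of_nonneg_left (hB v hv) (din_nonneg G S v)
  have j2 : ∑ v ∈ S, din G S v * x v ≤ EA * (β / L) := by
    rw [hEA, Finset.sum_mul]
    exact Finset.sum_le_sum fun v hv => mul_le_mul_of_nonneg_left (hA v hv) (din_nonneg G S v)
  have hβL : β / L = β * (1 / L) := by ring
  -- bounds for β
  have k1 : EB * (1 / L) ≤ 43 := by
    calc EB * (1 / L) ≤ (21 * N) * (2.000001 * (1 / N)) :=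
          mul_le_mul (by linarith) e1 e1'.le (by positivity)
      _ = 42.000021 * (N * (1 / N)) := by ring
      _ ≤ 43 := by rw [hNN]; norm_num
  have k2 : EA * (1 / L) ≤ 43 := by
    calc EA * (1 / L) ≤ (21 * N) * (2.000001 * (1 / N)) :=
          mul_le_mul (by linarith) e1 e1'.le (by positivity)
      _ = 42.000021 * (N * (1 / N)) := by ring
      _ ≤ 43 := by rw [hNN]; norm_num
  have b1 : β ≤ 1.000001 := by
    by_contra hcon
    push Not at hcon
    have : l * 1.000001 < l * β := mul_lt_mul_of_pos_left hcon hlpos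
    linarith
  have b2 : l ≤ β * (43 + nA S) := by
    have : EA * (β / L) ≤ 43 * β := by
      rw [hβL]
      calc EA * (β * (1 / L)) = (EA * (1 / L)) * β := by ring
        _ ≤ 43 * β := mul_le_mul_of_nonneg_right k2 hβ0
    linarith
  have b3 : 0.999998 ≤ β := by
    by_contra hcon
    push Not at hcon
    have h1 : β * (43 + nA S) ≤ 0.999998 * (43 + nA S) :=
      mul_le_mul_of_nonneg_right hcon.le (by have := nA_nonneg S; linarith)
    linarith
  have b4 : l ≤ 1.000003 * (N / 2) := by
    have h1 : β * (43 + nA S) ≤ 1.000001 * (43 + nA S) :=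
      mul_le_mul_of_nonneg_right b1 (by have := nA_nonneg S; linarith)
    linarith
  -- ratios
  have r1 : nA S / l ≤ 1.000001 := by
    rw [div_le_iff₀ hlpos]; linarith
  have r2 : 0.99999 ≤ nA S / l := by
    rw [le_div_iff₀ hlpos]; linarith
  have r0 : 0 ≤ nA S / l := by linarith
  -- products with inverses
  have m1 : β * (1 / L) ≤ 2.00001 * (1 / N) := by
    calc β * (1 / L) ≤ 1.000001 * (2.000001 * (1 / N)) := mul_le_mul b1 e1 e1'.le (by norm_num)
      _ = (1.000001 * 2.000001) * (1 / N) := by ring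
      _ ≤ 2.00001 * (1 / N) := mul_le_mul_of_nonneg_right (by norm_num) hiN.le
  have m1' : 0 ≤ β * (1 / L) := by positivity
  have m2 : l * (β * (1 / L)) ≤ 1.0001 := by
    calc l * (β * (1 / L)) ≤ (1.000003 * (N / 2)) * (2.00001 * (1 / N)) :=
          mul_le_mul b4 m1 m1' (by positivity)
      _ = (1.000003 * 2.00001 / 2) * (N * (1 / N)) := by ring
      _ ≤ 1.0001 := by rw [hNN]; norm_num
  have m3 : 4 * w * (1 / N) ≤ 0.0001 := by
    rw [mul_one_div, div_le_iff₀ hNpos]; linarith
  have m4 : (1 / L) * (1 / l) ≤ 4.000002 * (1 / N ^ 2) := by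
    calc (1 / L) * (1 / l) ≤ (2.000001 * (1 / N)) * (2 * (1 / N)) :=
          mul_le_mul e1 e2 e2'.le (by positivity)
      _ = 4.000002 * (1 / N ^ 2) := by field_simp; norm_num
  -- the term `GA * β`
  have hc1 := half (G := G) (S := S) h hx he (M := β / L) (by rw [hβL]; exact m1') hA
  rw [← hβ, ← hδA] at hc1
  have hc2 := half (G := G) (S := Finset.univ \ S) hcc hx he (M := 1 / L) e1'.le hB
  rw [compl_compl', hone, GA_compl] at hc2
  simp only [din_compl] at hc2
  rw [← hδB] at hc2
  set PA := P2A G S with hPA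
  set PB := P2A G (Finset.univ \ S) with hPB
  have hP : P2 G S = PA + PB := P2_eq G S
  have sqA : 0 ≤ GA G S + PA := by
    rw [hPA]
    unfold GA P2A
    rw [← Finset.sum_add_distrib]
    apply Finset.sum_nonneg
    intro v _
    nlinarith [sq_nonneg (gg G S v)]
  have sqB : 0 ≤ GB G S + PB := by
    rw [hPB]
    unfold GB P2A
    simp only [gg_compl]
    rw [← Finset.sum_add_distrib]
    apply Finset.sum_nonneg
    intro v _
    nlinarith [sq_nonneg (gg G S v)]
  have t1 : GA G S * β ≤ nB S / l * GA G S + 4.000002 * (GA G S * GB G S * (1 / N ^ 2)) +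
      0.001 * δB := by
    have u1 : β ≤ nB S / l + EB * ((1 / L) * (1 / l)) := by
      have u2 : l * β ≤ l * (nB S / l + EB * ((1 / L) * (1 / l))) := by
        have u3 : l * (nB S / l + EB * ((1 / L) * (1 / l))) = nB S + EB * (1 / L) := by
          field_simp
        rw [u3]
        linarith
      exact le_of_mul_le_mul_left u2 hlpos
    have u4 : EB * ((1 / L) * (1 / l)) ≤ (GB G S + 2 * δB) * (4.000002 * (1 / N ^ 2)) :=
      mul_le_mul hEBG m4 (by positivity) (by positivity)
    have u5 : GA G S * β ≤ GA G S * (nB S / l + (GB G S + 2 * δB) * (4.000002 * (1 / N ^ 2))) :=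
      mul_le_mul_of_nonneg_left (by linarith) hGA0
    have u6 : GA G S * (1 / N ^ 2) * 8.000004 ≤ 0.001 := by
      have u7 : GA G S * (1 / N ^ 2) ≤ (21 * N) * (1 / N ^ 2) :=
        mul_le_mul_of_nonneg_right (by linarith) (by positivity)
      have u8 : (21 * N) * (1 / N ^ 2) = 21 * (1 / N) := by field_simp
      have u9 : 1 / N ≤ 0.000001 := by
        rw [div_le_iff₀ hNpos]; linarith
      linarith
    have u10 := mul_le_mul_of_nonneg_right u6 hδB0
    calc GA G S * β ≤ GA G S * (nB S / l + (GB G S + 2 * δB) * (4.000002 * (1 / N ^ 2))) := u5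
      _ = nB S / l * GA G S + 4.000002 * (GA G S * GB G S * (1 / N ^ 2)) +
          GA G S * (1 / N ^ 2) * 8.000004 * δB := by ring
      _ ≤ _ := by linarith
  have t2 : β / L * (GA G S + PA + 4 * w * δA) ≤
      2.00001 * (1 / N) * (GA G S + PA) + 0.001 * δA := by
    rw [hβL]
    have u1 := mul_le_mul_of_nonneg_right m1 sqA
    have u2 : β * (1 / L) * (4 * w * δA) ≤ 0.001 * δA := by
      calc β * (1 / L) * (4 * w * δA) ≤ 2.00001 * (1 / N) * (4 * w * δA) :=
            mul_le_mul_of_nonneg_right m1 (by positivity)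
        _ = 2.00001 * (4 * w * (1 / N)) * δA := by ring
        _ ≤ 0.001 * δA := mul_le_mul_of_nonneg_right (by linarith) hδA0
    linarith
  have t3 : 2 * l * (β / L) * δA ≤ 2.0002 * δA := by
    rw [hβL]
    have := mul_le_mul_of_nonneg_right m2 hδA0
    linarith
  have T1 : ∑ v ∈ S, din G S v * (l * x v) ≤ nB S / l * GA G S +
      4.000002 * (GA G S * GB G S * (1 / N ^ 2)) + 2.00001 * (1 / N) * (GA G S + PA) +
      2.005 * δA + 0.001 * δB := by linarith
  -- second side
  have m5 : l * (1 / L) ≤ 1.0001 := by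
    calc l * (1 / L) ≤ (1.000003 * (N / 2)) * (2.000001 * (1 / N)) :=
          mul_le_mul b4 e1 e1'.le (by positivity)
      _ = (1.000003 * 2.000001 / 2) * (N * (1 / N)) := by ring
      _ ≤ 1.0001 := by rw [hNN]; norm_num
  have t4 : 1 / L * (GB G S + PB + 4 * w * δB) ≤
      2.000001 * (1 / N) * (GB G S + PB) + 0.001 * δB := by
    have u1 := mul_le_mul_of_nonneg_right e1 sqB
    have u2 : 1 / L * (4 * w * δB) ≤ 0.001 * δB := by
      calc 1 / L * (4 * w * δB) ≤ 2.000001 * (1 / N) * (4 * w * δB) :=
            mul_le_mul_of_nonneg_right e1 (by positivity)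
        _ = 2.000001 * (4 * w * (1 / N)) * δB := by ring
        _ ≤ 0.001 * δB := mul_le_mul_of_nonneg_right (by linarith) hδB0
    linarith
  have t5 : 2 * l * (1 / L) * δB ≤ 2.0002 * δB := by
    have := mul_le_mul_of_nonneg_right m5 hδB0
    linarith
  have T2 : nA S * ∑ v ∈ Finset.univ \ S, din G S v * x v ≤ nA S / l * GB G S +
      2.0001 * (1 / N) * (GB G S + PB) + 2.005 * δB := by
    have u1 : nA S * ∑ v ∈ Finset.univ \ S, din G S v * x v =
        nA S / l * ∑ v ∈ Finset.univ \ S, din G S v * (l * x v) := by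
      have : ∑ v ∈ Finset.univ \ S, din G S v * (l * x v) =
          l * ∑ v ∈ Finset.univ \ S, din G S v * x v := by
        rw [Finset.mul_sum]
        exact Finset.sum_congr rfl fun v _ => by ring
      rw [this]
      field_simp
    rw [u1]
    have u2 : ∑ v ∈ Finset.univ \ S, din G S v * (l * x v) ≤
        GB G S + (2.000001 * (1 / N) * (GB G S + PB) + 2.0012 * δB) := by
      linarith
    have u3 := mul_le_mul_of_nonneg_left u2 r0
    have u4 : 0 ≤ 2.000001 * (1 / N) * (GB G S + PB) + 2.0012 * δB := by positivity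
    have u5 := mul_le_mul_of_nonneg_right r1 u4
    have u6 : 0 ≤ (1 / N) * (GB G S + PB) := by positivity
    have u7 : nA S / l * (GB G S + (2.000001 * (1 / N) * (GB G S + PB) + 2.0012 * δB)) =
        nA S / l * GB G S +
          nA S / l * (2.000001 * (1 / N) * (GB G S + PB) + 2.0012 * δB) := by ring
    linarith
  -- missing pairs
  have hRA0 : 0 ≤ ∑ v ∈ S, (1 - bd G S v) * rr G S v :=
    Finset.sum_nonneg fun v _ => mul_nonneg (by linarith [bd_le_one G S v]) (rr_nonneg G S v)
  have M1 : 0.99 * ∑ v ∈ S, (1 - bd G S v) * rr G S v ≤ nA S * ∑ v ∈ S, rr G S v * x v := by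
    have u1 := miss (G := G) (S := S) h hx he (M := 1 / L) (c := 0.992) e1'.le hB (by
      rw [← hβ]
      have u2 : N / 256 * (1 / L) ≤ N / 256 * (2.000001 * (1 / N)) :=
        mul_le_mul_of_nonneg_left e1 (by positivity)
      have u3 : N / 256 * (2.000001 * (1 / N)) = 2.000001 / 256 * (N * (1 / N)) := by ring
      rw [u3, hNN] at u2
      linarith)
    have u4 : nA S * ∑ v ∈ S, rr G S v * x v = nA S / l * ∑ v ∈ S, rr G S v * (l * x v) := by
      have : ∑ v ∈ S, rr G S v * (l * x v) = l * ∑ v ∈ S, rr G S v * x v := by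
        rw [Finset.mul_sum]
        exact Finset.sum_congr rfl fun v _ => by ring
      rw [this]
      field_simp
    rw [u4]
    have u5 := mul_le_mul_of_nonneg_left u1 r0
    have u6 : 0.99999 * (0.992 * ∑ v ∈ S, (1 - bd G S v) * rr G S v) ≤
        nA S / l * (0.992 * ∑ v ∈ S, (1 - bd G S v) * rr G S v) :=
      mul_le_mul_of_nonneg_right r2 (by positivity)
    linarith
  have M2 : 0.99 * ∑ v ∈ Finset.univ \ S, (1 - bd G S v) * rr G S v ≤
      ∑ v ∈ Finset.univ \ S, rr G S v * (l * x v) := by
    have u1 := miss (G := G) (S := Finset.univ \ S) hcc hx he (M := β / L) (c := 0.992)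
      (by rw [hβL]; exact m1') (by rw [compl_compl']; exact hA) (by
      rw [compl_compl', hone]
      have u2 : N / 256 * (β * (1 / L)) ≤ N / 256 * (2.00001 * (1 / N)) :=
        mul_le_mul_of_nonneg_left m1 (by positivity)
      have u3 : N / 256 * (2.00001 * (1 / N)) = 2.00001 / 256 * (N * (1 / N)) := by ring
      rw [u3, hNN] at u2
      rw [hβL]
      linarith)
    simp only [bd_compl, rr_compl] at u1
    have u2 : 0 ≤ ∑ v ∈ Finset.univ \ S, (1 - bd G S v) * rr G S v :=
      Finset.sum_nonneg fun v _ => mul_nonneg (by linarith [bd_le_one G S v]) (rr_nonneg G S v)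
    linarith
  -- the final identity
  have hfin : l ^ 2 = ∑ v ∈ S, din G S v * (l * x v) +
      nA S * ∑ v ∈ Finset.univ \ S, din G S v * x v + nA S * nB S -
      nA S * ∑ v ∈ S, rr G S v * x v - ∑ v ∈ Finset.univ \ S, rr G S v * (l * x v) := by
    have v1 : ∑ v ∈ S, din G S v * (l * x v) = l * ∑ v ∈ S, din G S v * x v := by
      rw [Finset.mul_sum]
      exact Finset.sum_congr rfl fun v _ => by ring
    have v2 : ∑ v ∈ Finset.univ \ S, rr G S v * (l * x v) =
        l * ∑ v ∈ Finset.univ \ S, rr G S v * x v := by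
      rw [Finset.mul_sum]
      exact Finset.sum_congr rfl fun v _ => by ring
    rw [v1, v2]
    have v3 : l ^ 2 = l * (∑ v ∈ S, din G S v * x v + nA S * β -
        ∑ v ∈ Finset.univ \ S, rr G S v * x v) := by
      rw [← i2]; ring
    have v4 : nA S * (l * β) = nA S * (∑ v ∈ Finset.univ \ S, din G S v * x v + nB S * 1 -
        ∑ v ∈ S, rr G S v * x v) := by rw [i1]
    linear_combination v3 + v4
  have hsp := sum_split S (fun v => (1 - bd G S v) * rr G S v)
  rw [hfin, ← hsp, hP]
  have w1 : 0 ≤ (1 / N) * (GB G S + PB) := by positivity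
  have w2 : 0 ≤ (1 / N) * (GA G S + PA) := by positivity
  have w3 : (GA G S + GB G S + (PA + PB)) * (2 / N) =
      2 * ((1 / N) * (GB G S + PB)) + 2 * ((1 / N) * (GA G S + PA)) := by ring
  have w4 : 4 * GA G S * GB G S / N ^ 2 = 4 * (GA G S * GB G S * (1 / N ^ 2)) := by ring
  have w5 : 0 ≤ GA G S * GB G S * (1 / N ^ 2) := by positivity
  rw [w3, w4]
  linarith

end SP

open MX SP

theorem spec_bound : S_spec := by
  intro V _ G S N w l x h hx hpos he
  obtain ⟨hw, hNpos, hNw, hLpos, hlpos⟩ := num G S h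
  obtain ⟨hA, hB⟩ := max_bound V G S N w l x h hx he
  -- the sum over `S` is positive
  have hXA : 0 < ∑ v ∈ S, x v := by
    obtain ⟨v, hv⟩ := hpos
    by_cases hvS : v ∈ S
    · exact lt_of_lt_of_le hv (Finset.single_le_sum (fun u _ => hx u) hvS)
    · have h1 := hB v (by simp [hvS])
      have h2 : 0 < (∑ u ∈ S, x u) / (l - 4 * w) := lt_of_lt_of_le hv h1
      by_contra hcon
      push Not at hcon
      have := div_nonpos_of_nonpos_of_nonneg hcon hLpos.le
      linarith
  set X := ∑ v ∈ S, x v with hX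
  have hc := core G S h (x := fun v => x v / X) (fun v => div_nonneg (hx v) hXA.le)
    (fun v => by
      have := he v
      calc ∑ u, ad G v u * (x u / X) = (∑ u, ad G v u * x u) / X := by
            rw [Finset.sum_div]
            exact Finset.sum_congr rfl fun u _ => by ring
        _ = l * (x v / X) := by rw [this]; ring)
    (by rw [← Finset.sum_div, ← hX]; exact div_self hXA.ne')
  have hRZ := RZ_le G S h
  have hdA := del_le G S h
  have hdB := del_le G (Finset.univ \ S) (cfg_compl G S h)
  simp only [bd_compl, rr_compl] at hdB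
  have hsp := sum_split S (fun v => bd G S v * rr G S v)
  set RZ := ∑ v, bd G S v * rr G S v with hRZdef
  set Rg := ∑ v, (1 - bd G S v) * rr G S v with hRgdef
  have hRR : RR G S = RZ + Rg := by
    rw [hRZdef, hRgdef, ← Finset.sum_add_distrib]
    unfold RR
    exact Finset.sum_congr rfl fun v _ => by ring
  have hRZ0 : 0 ≤ RZ :=
    Finset.sum_nonneg fun v _ => mul_nonneg (bd_nonneg G S v) (rr_nonneg G S v)
  unfold rhs
  constructor
  · rw [hRR]
    linarith
  · intro hgood
    have hz : RZ = 0 := by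
      rw [hRZdef]
      apply Finset.sum_eq_zero
      intro v _
      simp [bd, hgood v]
    rw [hRR]
    linarith

end Pool.Agent.Bow
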