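import Pool.Agent.Bow.Base

/-!
Module statements for MP_b63b1f_co. Each `S_xxx` is proved in its own file.
-/

namespace Pool.Agent.Bow

open Finset
open scoped Classical

/-- Module A (Perron). -/
def S_perron : Prop := ∀ (V : Type) [Fintype V] [Nonempty V] (G : SimpleGraph V),
  0 ≤ lam G ∧
  (∃ x : V → ℝ, (∀ v, 0 ≤ x v) ∧ ∑ v, x v ^ 2 = 1 ∧ ∀ v, ∑ u, ad G v u * x u = lam G * x v) ∧
  (∀ y : V → ℝ, |∑ v, ∑ u, ad G v u * y v * y u| ≤ lam G * ∑ v, y v ^ 2) ∧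
  (∀ (μ : ℝ) (y : V → ℝ), y ≠ 0 → (∀ v, ∑ u, ad G v u * y u = μ * y v) → μ ≤ lam G)

/-- Module B (Trace inequality). -/
def S_trace : Prop := ∀ (V : Type) [Fintype V] (G : SimpleGraph V) (l : ℝ) (x : V → ℝ),
  0 ≤ l → ∑ v, x v ^ 2 = 1 → (∀ v, ∑ u, ad G v u * x u = l * x v) →
  (∀ y : V → ℝ, |∑ v, ∑ u, ad G v u * y v * y u| ≤ l * ∑ v, y v ^ 2) →
  2 * l ^ 3 ≤ XX G + l * YY G

/-- Module C (an eigenvalue of `K s t q`). -/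
def S_theta : Prop := ∀ (s t q : ℕ), 2 ≤ t → t ≤ s → s ≤ t + 1 → 2 * q ≤ s →
  ∃ (θ : ℝ) (y : Fin s ⊕ Fin t → ℝ), 1 < θ ∧ (t : ℝ) * s ≤ θ ^ 2 ∧ θ ≤ t + 1 ∧
    θ ^ 2 * (θ - 1) = (t : ℝ) * s * (θ - 1) + 2 * q * t ∧ y ≠ 0 ∧
    ∀ v, ∑ u, ad (K s t q) v u * y u = θ * y v

/-- Module D (labelled versus unlabelled bowties). -/
def S_tup : Prop := ∀ (V : Type) [Fintype V] (G : SimpleGraph V), 8 * (tau G : ℝ) = tup G

/-- Module E (labelled bowties of `K s t q`, invariance under isomorphism). -/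
def S_tupK : Prop := ∀ (s t q : ℕ), 2 * q ≤ s → tup (K s t q) = 4 * (q : ℝ) * (q - 1) * t

def S_tupIso : Prop := ∀ (V W : Type) [Fintype V] [Fintype W] (G : SimpleGraph V)
  (H : SimpleGraph W), Nonempty (G ≃g H) → tup G = tup H

/-- Module F (many triangles give many bowties). -/
def S_tupX : Prop := ∀ (V : Type) [Fintype V] (G : SimpleGraph V),
  XX G ^ 2 ≤ (Fintype.card V : ℝ) * tup G + 4 * (Fintype.card V : ℝ) ^ 2 * XX G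

/-- Module G (the cut). -/
def S_cut : Prop := ∀ (V : Type) [Fintype V] (G : SimpleGraph V) (N w l : ℝ),
  (Fintype.card V : ℝ) = N → w ^ 2 = N → (10 : ℝ) ^ 15 ≤ w → N / 2 ≤ l →
  2 * l ^ 3 ≤ XX G + l * YY G → XX G ≤ 5 * N ^ 2 →
  ∃ S : Finset V, ∑ v, din G S v ≤ 21 * N ∧ (∀ v, din G S v ≤ dout G S v) ∧
    RR G S ≤ 32 * N ∧ |nA S - nB S| ≤ 8 * w

/-- Module H (no vertex with large inside degree unless the outside degree is small). -/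
def S_low : Prop := ∀ (V : Type) [Fintype V] (G : SimpleGraph V) (S : Finset V) (N w : ℝ),
  (Fintype.card V : ℝ) = N → w ^ 2 = N → (10 : ℝ) ^ 15 ≤ w →
  (∀ v, din G S v ≤ dout G S v) → RR G S ≤ 32 * N → tup G ≤ 0.126 * N ^ 3 →
  ∀ v, N / 16 ≤ dout G S v → din G S v ≤ 4 * w

/-- Module I (maxima of the eigenvector). -/
def S_max : Prop := ∀ (V : Type) [Fintype V] (G : SimpleGraph V) (S : Finset V)
  (N w l : ℝ) (x : V → ℝ), Cfg G S N w l → (∀ v, 0 ≤ x v) →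
  (∀ v, ∑ u, ad G v u * x u = l * x v) →
  (∀ v ∈ S, x v ≤ (∑ u ∈ Finset.univ \ S, x u) / (l - 4 * w)) ∧
  (∀ v ∈ Finset.univ \ S, x v ≤ (∑ u ∈ S, x u) / (l - 4 * w))

/-- The right hand side of the spectral inequality. -/
noncomputable def rhs {V : Type} [Fintype V] (G : SimpleGraph V) (S : Finset V) (N l : ℝ) : ℝ :=
  nA S * nB S + nB S / l * GA G S + nA S / l * GB G S
    + 1.001 * ((GA G S + GB G S + P2 G S) * (2 / N))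
    + 1.001 * (4 * GA G S * GB G S / N ^ 2) + 0.001

/-- Module J (the spectral inequality). -/
def S_spec : Prop := ∀ (V : Type) [Fintype V] (G : SimpleGraph V) (S : Finset V)
  (N w l : ℝ) (x : V → ℝ), Cfg G S N w l → (∀ v, 0 ≤ x v) → (∃ v, 0 < x v) →
  (∀ v, ∑ u, ad G v u * x u = l * x v) →
  (l ^ 2 + 0.33 * RR G S ≤ rhs G S N l) ∧
  ((∀ v, ¬ bad G S v) → l ^ 2 + 0.99 * RR G S ≤ rhs G S N l)

/-- Module L (the bowtie count). -/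
def S_bow : Prop := ∀ (V : Type) [Fintype V] (G : SimpleGraph V) (S : Finset V)
  (N w l : ℝ), Cfg G S N w l →
  min (nA S) (nB S) * ((GA G S + GB G S) * (GA G S + GB G S - 2)) + 0.78 * N ^ 2 * P2 G S
    - (4 * (GA G S + GB G S) + N) * RR G S ≤ tup G

def S_bow0 : Prop := ∀ (V : Type) [Fintype V] (G : SimpleGraph V) (S : Finset V)
  (N w l : ℝ), Cfg G S N w l → RR G S = 0 → P2 G S = 0 →
  nB S * (GA G S * (GA G S - 2)) + nA S * (GB G S * (GB G S - 2)) + 3.9 * N * (GA G S * GB G S)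
    ≤ tup G

/-- Module M (numerics). `n` vertices, `k` good inside edges, `r` missing cross pairs,
`P` ordered good inside paths, `D` difference of the part sizes. -/
def S_num : Prop := ∀ (n q k r P D : ℕ) (w : ℝ), w ^ 2 = n → (10 : ℝ) ^ 15 ≤ w →
  2 ≤ q → 4 * q ≤ n + 1 → (D : ℝ) ≤ 8 * w → D % 2 = n % 2 →
  (k : ℝ) ≤ 10.5 * n → (r : ℝ) ≤ 16 * n →
  (2 * (q : ℝ) + 0.66 * r + ((D : ℝ) ^ 2 - (n % 2 : ℕ)) / 4 ≤
    2 * k + 1.001 * (2 * k / n * D + (4 * k + 2 * P) / n + 4 * k ^ 2 / n ^ 2) + 0.002) →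
  (512 * r < n → 2 * (q : ℝ) + 1.98 * r + ((D : ℝ) ^ 2 - (n % 2 : ℕ)) / 4 ≤
    2 * k + 1.001 * (2 * k / n * D + (4 * k + 2 * P) / n + 4 * k ^ 2 / n ^ 2) + 0.002) →
  ((k : ℝ) * (k - 1) / 2 * ((n - D) / 2) + 0.0975 * n ^ 2 * P - (2 * k + n / 4) * r ≤
    (q : ℝ) * (q - 1) / 2 * (n / 2 : ℕ)) →
  k = q ∧ r = 0 ∧ P = 0 ∧ D ≤ 3

/-- Module O (isomorphism). -/
def S_iso : Prop := ∀ (V : Type) [Fintype V] (G : SimpleGraph V) (S : Finset V) (s t q : ℕ),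
  S.card = s → (Finset.univ \ S).card = t →
  (∀ u ∈ S, ∀ v, v ∉ S → G.Adj u v) → (∀ u, u ∉ S → ∀ v, v ∉ S → ¬ G.Adj u v) →
  (∀ u ∈ S, ∀ v ∈ S, ∀ v' ∈ S, G.Adj u v → G.Adj u v' → v = v') →
  (∑ u ∈ S, ∑ v ∈ S, ad G u v = 2 * q) →
  Nonempty (G ≃g K s t q)

/-- Module N (the final configuration). -/
def S_fin : Prop := ∀ (n q : ℕ) (G : SimpleGraph (Fin n)) (S : Finset (Fin n)) (w l θ : ℝ)
  (x : Fin n → ℝ), Cfg G S n w l → 2 ≤ q → 4 * q ≤ n + 1 →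
  (∀ v, 0 ≤ x v) → (∃ v, 0 < x v) → (∀ v, ∑ u, ad G v u * x u = l * x v) →
  RR G S = 0 → P2 G S = 0 → GA G S + GB G S = 2 * q → |nA S - nB S| ≤ 3 →
  1 < θ → ((n / 2 : ℕ) : ℝ) * ((n + 1) / 2 : ℕ) ≤ θ ^ 2 →
  θ ^ 2 * (θ - 1) = ((n / 2 : ℕ) : ℝ) * ((n + 1) / 2 : ℕ) * (θ - 1) + 2 * q * (n / 2 : ℕ) →
  θ ≤ l → tup G ≤ 4 * (q : ℝ) * (q - 1) * (n / 2 : ℕ) →
  Nonempty (G ≃g K ((n + 1) / 2) (n / 2) q)

/-- The final statement. -/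
def Final : Prop := ∃ n0 : ℕ, ∀ n ≥ n0, ∀ q : ℕ, 2 ≤ q → q ≤ (n + 1) / 4 →
  ∀ G : SimpleGraph (Fin n), lam (K ((n + 1) / 2) (n / 2) q) ≤ lam G →
    q.choose 2 * (n / 2) ≤ tau G ∧
    (tau G = q.choose 2 * (n / 2) ↔ Nonempty (G ≃g K ((n + 1) / 2) (n / 2) q))

end Pool.Agent.Bow
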