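import Pool.Agent.Bow.Stmts

/-!
Module C of MP_b63b1f_co: an eigenvalue of `K s t q`.
-/

namespace Pool.Agent.Bow

open Finset
open scoped Classical

theorem K_adj_ll {s t q : ℕ} (i j : Fin s) :
    (K s t q).Adj (Sum.inl i) (Sum.inl j) ↔
      ∃ k < q, (i.1 = 2 * k ∧ j.1 = 2 * k + 1) ∨ (j.1 = 2 * k ∧ i.1 = 2 * k + 1) := by
  unfold K
  rw [SimpleGraph.sup_adj, SimpleGraph.fromRel_adj]
  constructor
  · rintro (h | ⟨_, (⟨i', j', hi, hj, k, hk, h1, h2⟩ | ⟨i', j', hi, hj, k, hk, h1, h2⟩)⟩)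
    · simp [completeBipartiteGraph] at h
    · cases Sum.inl.inj hi
      cases Sum.inl.inj hj
      exact ⟨k, hk, Or.inl ⟨h1, h2⟩⟩
    · cases Sum.inl.inj hi
      cases Sum.inl.inj hj
      exact ⟨k, hk, Or.inr ⟨h1, h2⟩⟩
  · rintro ⟨k, hk, (⟨h1, h2⟩ | ⟨h1, h2⟩)⟩
    · refine Or.inr ⟨?_, Or.inl ⟨i, j, rfl, rfl, k, hk, h1, h2⟩⟩
      intro h
      have := congrArg Fin.val (Sum.inl.inj h)
      omega
    · refine Or.inr ⟨?_, Or.inr ⟨j, i, rfl, rfl, k, hk, h1, h2⟩⟩
      intro h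
      have := congrArg Fin.val (Sum.inl.inj h)
      omega

theorem K_adj_lr {s t q : ℕ} (i : Fin s) (j : Fin t) :
    (K s t q).Adj (Sum.inl i) (Sum.inr j) := by
  unfold K
  rw [SimpleGraph.sup_adj]
  left
  simp [completeBipartiteGraph]

theorem K_adj_rr {s t q : ℕ} (i j : Fin t) :
    ¬ (K s t q).Adj (Sum.inr i) (Sum.inr j) := by
  unfold K
  rw [SimpleGraph.sup_adj, SimpleGraph.fromRel_adj]
  rintro (h | ⟨_, (⟨i', j', hi, _⟩ | ⟨i', j', hi, _⟩)⟩)
  · simp [completeBipartiteGraph] at h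
  · cases hi
  · cases hi

theorem ad_K_lr {s t q : ℕ} (i : Fin s) (j : Fin t) :
    ad (K s t q) (Sum.inl i) (Sum.inr j) = 1 := if_pos (K_adj_lr i j)

theorem ad_K_rl {s t q : ℕ} (i : Fin s) (j : Fin t) :
    ad (K s t q) (Sum.inr j) (Sum.inl i) = 1 := if_pos (K_adj_lr i j).symm

theorem ad_K_rr {s t q : ℕ} (i j : Fin t) :
    ad (K s t q) (Sum.inr i) (Sum.inr j) = 0 := if_neg (K_adj_rr i j)

/-- The matching partner. -/
theorem K_partner {s t q : ℕ} (hq : 2 * q ≤ s) (i : Fin s) (hi : i.1 < 2 * q) :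
    ∃ p : Fin s, p.1 < 2 * q ∧ ∀ j : Fin s,
      ad (K s t q) (Sum.inl i) (Sum.inl j) = if j = p then 1 else 0 := by
  rcases Nat.even_or_odd' i.1 with ⟨k, hk | hk⟩
  · refine ⟨⟨2 * k + 1, by omega⟩, by simp; omega, fun j => ?_⟩
    unfold ad
    refine if_congr ?_ rfl rfl
    rw [K_adj_ll]
    constructor
    · rintro ⟨k', hk', (⟨h1, h2⟩ | ⟨h1, h2⟩)⟩
      · ext
        simp only
        omega
      · omega
    · intro h
      have := congrArg Fin.val h
      simp only at this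
      exact ⟨k, by omega, Or.inl ⟨hk, this⟩⟩
  · refine ⟨⟨2 * k, by omega⟩, by simp; omega, fun j => ?_⟩
    unfold ad
    refine if_congr ?_ rfl rfl
    rw [K_adj_ll]
    constructor
    · rintro ⟨k', hk', (⟨h1, h2⟩ | ⟨h1, h2⟩)⟩
      · omega
      · ext
        simp only
        omega
    · intro h
      have := congrArg Fin.val h
      simp only at this
      exact ⟨k, by omega, Or.inr ⟨this, hk⟩⟩

theorem K_unmatched {s t q : ℕ} (i : Fin s) (hi : 2 * q ≤ i.1) (j : Fin s) :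
    ad (K s t q) (Sum.inl i) (Sum.inl j) = 0 := by
  unfold ad
  rw [if_neg]
  rw [K_adj_ll]
  rintro ⟨k', hk', (⟨h1, h2⟩ | ⟨h1, h2⟩)⟩ <;> omega

theorem sum_matched (s q : ℕ) (hq : 2 * q ≤ s) (A B : ℝ) :
    ∑ i : Fin s, (if i.1 < 2 * q then A else B) = 2 * q * A + (s - 2 * q) * B := by
  rw [Fin.sum_univ_eq_sum_range (fun i => if i < 2 * q then A else B) s,
    ← Finset.sum_range_add_sum_Ico _ hq]
  rw [Finset.sum_congr rfl (g := fun _ => A) (fun i hi => if_pos (Finset.mem_range.mp hi)),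
    Finset.sum_congr (s₁ := Finset.Ico (2 * q) s) rfl (g := fun _ => B)
      (fun i hi => if_neg (by have := (Finset.mem_Ico.mp hi).1; omega))]
  simp only [Finset.sum_const, Finset.card_range, Nat.card_Ico, nsmul_eq_mul]
  rw [Nat.cast_sub hq]
  push_cast
  ring

theorem theta_exists : S_theta := by
  intro s t q ht hts hst hq
  have ht' : (2 : ℝ) ≤ t := by exact_mod_cast ht
  have hts' : (t : ℝ) ≤ s := by exact_mod_cast hts
  have hst' : (s : ℝ) ≤ t + 1 := by exact_mod_cast hst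
  have hq' : 2 * (q : ℝ) ≤ s := by exact_mod_cast hq
  have hq0 : (0 : ℝ) ≤ q := Nat.cast_nonneg q
  have hts2 : (0 : ℝ) ≤ (t : ℝ) * s := by positivity
  set f : ℝ → ℝ := fun z => z ^ 2 * (z - 1) - (t : ℝ) * s * (z - 1) - 2 * q * t with hf
  have hcont : Continuous f := by
    rw [hf]
    fun_prop
  have hle : Real.sqrt ((t : ℝ) * s) ≤ t + 1 := by
    rw [Real.sqrt_le_left (by linarith)]
    nlinarith
  have h1 : f (Real.sqrt ((t : ℝ) * s)) ≤ 0 := by
    simp only [hf]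
    rw [Real.sq_sqrt hts2]
    have : 0 ≤ 2 * (q : ℝ) * t := by positivity
    linarith
  have h2 : 0 ≤ f (t + 1) := by
    simp only [hf]
    have : ((t : ℝ) + 1) ^ 2 * (t + 1 - 1) - (t : ℝ) * s * (t + 1 - 1) - 2 * q * t
        = t * ((t + 1) * (t + 1 - s) + (s - 2 * q)) := by ring
    rw [this]
    have h3 : 0 ≤ (t : ℝ) + 1 - s := by linarith
    have h4 : 0 ≤ (s : ℝ) - 2 * q := by linarith
    positivity
  obtain ⟨θ, hθmem, hθ⟩ := intermediate_value_Icc hle hcont.continuousOn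
    (show (0 : ℝ) ∈ Set.Icc _ _ from ⟨h1, h2⟩)
  have hsq : (t : ℝ) * s ≤ θ ^ 2 := by
    have h5 := hθmem.1
    have h6 := Real.sqrt_nonneg ((t : ℝ) * s)
    calc (t : ℝ) * s = Real.sqrt ((t : ℝ) * s) ^ 2 := (Real.sq_sqrt hts2).symm
      _ ≤ θ ^ 2 := by gcongr
  have hθ1 : 1 < θ := by
    have h5 : 2 ≤ θ := by
      refine le_trans ?_ hθmem.1
      apply Real.le_sqrt_of_sq_le
      nlinarith
    linarith
  have heq : θ ^ 2 * (θ - 1) = (t : ℝ) * s * (θ - 1) + 2 * q * t := by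
    simp only [hf] at hθ
    linarith
  have hθ0 : θ ≠ 0 := by linarith
  have hθ10 : θ - 1 ≠ 0 := by linarith
  refine ⟨θ, Sum.elim (fun i => if i.1 < 2 * q then (t : ℝ) / (θ - 1) else (t : ℝ) / θ)
    (fun _ => 1), hθ1, hsq, hθmem.2, heq, ?_, ?_⟩
  · intro h
    have := congrFun h (Sum.inr ⟨0, by omega⟩)
    simp at this
  · rintro (i | j)
    · rw [Fintype.sum_sum_type]
      simp only [Sum.elim_inl, Sum.elim_inr, ad_K_lr, mul_one, Finset.sum_const,
        Finset.card_univ, Fintype.card_fin, nsmul_eq_mul]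
      by_cases hi : i.1 < 2 * q
      · obtain ⟨p, hp, hpa⟩ := K_partner (t := t) hq i hi
        rw [Finset.sum_congr rfl fun j _ => by rw [hpa j]]
        simp only [ite_mul, one_mul, zero_mul]
        rw [Finset.sum_ite_eq' Finset.univ p]
        rw [if_pos (Finset.mem_univ _), if_pos hp, if_pos hi]
        field_simp
        ring
      · rw [Finset.sum_eq_zero fun j _ => by rw [K_unmatched i (by omega) j, zero_mul],
          if_neg hi]
        field_simp
        ring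
    · rw [Fintype.sum_sum_type]
      simp only [Sum.elim_inl, Sum.elim_inr, ad_K_rl, ad_K_rr, one_mul, mul_one,
        Finset.sum_const_zero, add_zero]
      rw [sum_matched s q hq]
      field_simp
      linarith

end Pool.Agent.Bow
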