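import Pool.Agent.Bow.Stmts

/-!
Module B of MP_b63b1f_co: the trace inequality `2 l^3 ≤ tr A^3 + l tr A^2`.
-/

namespace Pool.Agent.Bow

open Finset
open scoped Classical

theorem ad_symm' {V : Type*} [Fintype V] (G : SimpleGraph V) (u v : V) :
    ad G u v = ad G v u := by
  unfold ad
  simp [SimpleGraph.adj_comm]

theorem ad_sq' {V : Type*} [Fintype V] (G : SimpleGraph V) (u v : V) :
    ad G u v * ad G u v = ad G u v := by
  unfold ad
  split_ifs <;> simp

theorem trace_ineq : S_trace := by
  intro V _ G l x hl hx1 hA hQ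
  -- the symmetric form of the eigenvector equation
  have hA' : ∀ i, ∑ v, ad G v i * x v = l * x i := by
    intro i
    rw [← hA i]
    exact Finset.sum_congr rfl fun v _ => by rw [ad_symm']
  have hx1' : ∑ v, x v * x v = 1 := by
    rw [← hx1]
    exact Finset.sum_congr rfl fun v _ => by ring
  have key : ∀ i, 0 ≤ (∑ v, ad G v i * ∑ u, ad G v u * ad G u i) - l ^ 3 * x i ^ 2
      + l * ((∑ v, ad G v i) - l ^ 2 * x i ^ 2) := by
    intro i
    have h := hQ (fun v => ad G v i - l * x i * x v)
    have hlow := (abs_le.mp h).1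
    have hxc : ∑ v, x v * ∑ u, ad G v u * ad G u i = l * (l * x i) := by
      calc ∑ v, x v * ∑ u, ad G v u * ad G u i
          = ∑ v, ∑ u, x v * (ad G v u * ad G u i) :=
            Finset.sum_congr rfl fun v _ => Finset.mul_sum _ _ _
        _ = ∑ u, ∑ v, x v * (ad G v u * ad G u i) := Finset.sum_comm
        _ = ∑ u, ad G u i * (l * x u) := by
            refine Finset.sum_congr rfl fun u _ => ?_
            rw [← hA' u, Finset.mul_sum]
            exact Finset.sum_congr rfl fun v _ => by ring
        _ = l * ∑ u, ad G u i * x u := by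
            rw [Finset.mul_sum]
            exact Finset.sum_congr rfl fun u _ => by ring
        _ = l * (l * x i) := by rw [hA' i]
    have e1 : ∑ v, ∑ u, ad G v u * (ad G v i - l * x i * x v) * (ad G u i - l * x i * x u)
        = (∑ v, ad G v i * ∑ u, ad G v u * ad G u i) - l ^ 3 * x i ^ 2 := by
      have e2 : ∀ v, ∑ u, ad G v u * (ad G v i - l * x i * x v) * (ad G u i - l * x i * x u)
          = ad G v i * (∑ u, ad G v u * ad G u i)
            - l * x i * (x v * ∑ u, ad G v u * ad G u i)
            - l * x i * l * (ad G v i * x v) + l * x i * (l * x i) * l * (x v * x v) := by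
        intro v
        have e3 : ∑ u, ad G v u * (ad G v i - l * x i * x v) * (ad G u i - l * x i * x u)
            = (ad G v i - l * x i * x v) * ((∑ u, ad G v u * ad G u i)
              - l * x i * ∑ u, ad G v u * x u) := by
          rw [Finset.mul_sum (Finset.univ) _ (l * x i), ← Finset.sum_sub_distrib,
            Finset.mul_sum]
          exact Finset.sum_congr rfl fun u _ => by ring
        rw [e3, hA v]
        ring
      rw [Finset.sum_congr rfl fun v _ => e2 v, Finset.sum_add_distrib,
        Finset.sum_sub_distrib, Finset.sum_sub_distrib, ← Finset.mul_sum, ← Finset.mul_sum,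
        ← Finset.mul_sum, hxc, hA' i, hx1']
      ring
    have e4 : ∑ v, (ad G v i - l * x i * x v) ^ 2
        = (∑ v, ad G v i) - l ^ 2 * x i ^ 2 := by
      have e5 : ∀ v, (ad G v i - l * x i * x v) ^ 2
          = ad G v i - 2 * (l * x i) * (ad G v i * x v) + (l * x i) ^ 2 * (x v * x v) := by
        intro v
        have := ad_sq' G v i
        nlinarith
      rw [Finset.sum_congr rfl fun v _ => e5 v, Finset.sum_add_distrib,
        Finset.sum_sub_distrib, ← Finset.mul_sum, ← Finset.mul_sum, hA' i, hx1']
      ring
    rw [e1, e4] at hlow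
    linarith
  have hsum := Finset.sum_nonneg (fun i (_ : i ∈ (Finset.univ : Finset V)) => key i)
  have e6 : ∑ i, ((∑ v, ad G v i * ∑ u, ad G v u * ad G u i) - l ^ 3 * x i ^ 2
      + l * ((∑ v, ad G v i) - l ^ 2 * x i ^ 2)) = XX G + l * YY G - 2 * l ^ 3 := by
    have e7 : ∑ i, ∑ v, ad G v i * ∑ u, ad G v u * ad G u i = XX G := by
      unfold XX
      refine Finset.sum_congr rfl fun i _ => Finset.sum_congr rfl fun v _ => ?_
      rw [Finset.mul_sum]
      refine Finset.sum_congr rfl fun u _ => ?_
      rw [ad_symm' G v i, ad_symm' G u i]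
      ring
    have e8 : ∑ i, ∑ v, ad G v i = YY G := by
      unfold YY
      exact Finset.sum_congr rfl fun i _ => Finset.sum_congr rfl fun v _ => ad_symm' G v i
    rw [Finset.sum_add_distrib, Finset.sum_sub_distrib, ← Finset.mul_sum, ← Finset.mul_sum,
      Finset.sum_sub_distrib, ← Finset.mul_sum, e7, e8, hx1]
    ring
  rw [e6] at hsum
  linarith

end Pool.Agent.Bow
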