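import Pool.Agent.Bow.Stmts

/-!
Module D: the number of labelled bowties is eight times the number of copies.
-/

set_option autoImplicit false

namespace Pool.Agent.Bow

open Finset
open scoped Classical

namespace TupCountAux

/-- Boolean version of the bowtie. -/
def BB : Fin 5 → Fin 5 → Bool := fun a b =>
  (a != b) && ((a == 0) || (b == 0) || (a == 1 && b == 2) || (a == 2 && b == 1) ||
    (a == 3 && b == 4) || (a == 4 && b == 3))

theorem bowtie_adj (a b : Fin 5) : bowtie.Adj a b ↔ BB a b = true := by
  unfold bowtie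
  rw [SimpleGraph.fromRel_adj]
  revert a b
  decide

/-- the automorphisms of the bowtie -/
def Aut5 : Finset (Equiv.Perm (Fin 5)) :=
  Finset.univ.filter fun σ => ∀ i j, BB (σ i) (σ j) = BB i j

set_option maxRecDepth 100000 in
theorem card_Aut5 : Aut5.card = 8 := by
  decide +kernel

variable {V : Type} [Fintype V] (G : SimpleGraph V)

theorem toSubgraph_adj (f : SimpleGraph.Copy bowtie G) (u v : V) :
    f.toSubgraph.Adj u v ↔ ∃ i j, bowtie.Adj i j ∧ f i = u ∧ f j = v := by
  rfl

theorem toSubgraph_verts (f : SimpleGraph.Copy bowtie G) (u : V) :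
    u ∈ f.toSubgraph.verts ↔ ∃ i, f i = u := by
  show u ∈ f.toHom '' Set.univ ↔ _
  simp

/-- compose a copy with an automorphism -/
noncomputable def act (f : SimpleGraph.Copy bowtie G) (σ : Equiv.Perm (Fin 5)) :
    SimpleGraph.Copy bowtie G :=
  if h : σ ∈ Aut5 then
    ⟨⟨fun i => f (σ i), by
      intro a b hab
      refine f.toHom.map_adj ?_
      rw [bowtie_adj] at hab ⊢
      rw [(Finset.mem_filter.1 h).2, hab]⟩, f.injective.comp σ.injective⟩
  else f

theorem act_apply (f : SimpleGraph.Copy bowtie G) (σ : Equiv.Perm (Fin 5)) (h : σ ∈ Aut5)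
    (i : Fin 5) : act G f σ i = f (σ i) := by
  unfold act
  rw [dif_pos h]
  rfl

theorem inj' (f : SimpleGraph.Copy bowtie G) {i j : Fin 5} (h : f i = f j) : i = j :=
  f.injective h

theorem fibre (f₀ : SimpleGraph.Copy bowtie G) :
    (Finset.univ.filter fun f : SimpleGraph.Copy bowtie G => f.toSubgraph = f₀.toSubgraph).card
      = 8 := by
  rw [← card_Aut5]
  symm
  refine Finset.card_bij (fun σ _ => act G f₀ σ) ?_ ?_ ?_
  · intro σ hσ
    have hσ2 := (Finset.mem_filter.1 hσ).2
    rw [Finset.mem_filter]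
    refine ⟨Finset.mem_univ _, ?_⟩
    refine SimpleGraph.Subgraph.ext ?_ ?_
    · ext u
      rw [toSubgraph_verts, toSubgraph_verts]
      constructor
      · rintro ⟨i, rfl⟩
        exact ⟨σ i, (act_apply G f₀ σ hσ i).symm⟩
      · rintro ⟨i, rfl⟩
        exact ⟨σ.symm i, by rw [act_apply G f₀ σ hσ, Equiv.apply_symm_apply]⟩
    · ext u v
      rw [toSubgraph_adj, toSubgraph_adj]
      constructor
      · rintro ⟨i, j, h, rfl, rfl⟩
        refine ⟨σ i, σ j, ?_, (act_apply G f₀ σ hσ i).symm, (act_apply G f₀ σ hσ j).symm⟩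
        rw [bowtie_adj] at h ⊢
        rw [hσ2, h]
      · rintro ⟨i, j, h, rfl, rfl⟩
        refine ⟨σ.symm i, σ.symm j, ?_, by rw [act_apply G f₀ σ hσ, Equiv.apply_symm_apply],
          by rw [act_apply G f₀ σ hσ, Equiv.apply_symm_apply]⟩
        rw [bowtie_adj] at h ⊢
        rw [← hσ2, Equiv.apply_symm_apply, Equiv.apply_symm_apply, h]
  · intro σ hσ τ hτ h
    ext i
    have h1 : act G f₀ σ i = act G f₀ τ i := by rw [h]
    rw [act_apply G f₀ σ hσ, act_apply G f₀ τ hτ] at h1
    rw [inj' G f₀ h1]
  · intro f hf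
    have hf2 : f.toSubgraph = f₀.toSubgraph := (Finset.mem_filter.1 hf).2
    have h1 : ∀ i, ∃ j, f₀ j = f i := by
      intro i
      rw [← toSubgraph_verts, ← hf2, toSubgraph_verts]
      exact ⟨i, rfl⟩
    choose s hs using h1
    have hsi : Function.Injective s := by
      intro i j h
      have : f i = f j := by rw [← hs i, ← hs j, h]
      exact inj' G f this
    have hadj : ∀ i j, bowtie.Adj i j ↔ bowtie.Adj (s i) (s j) := by
      intro i j
      have e : f.toSubgraph.Adj (f i) (f j) ↔ f₀.toSubgraph.Adj (f i) (f j) := by rw [hf2]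
      rw [toSubgraph_adj, toSubgraph_adj] at e
      constructor
      · intro h
        obtain ⟨i', j', h', hi', hj'⟩ := e.1 ⟨i, j, h, rfl, rfl⟩
        rw [← hs i] at hi'
        rw [← hs j] at hj'
        rw [← inj' G f₀ hi', ← inj' G f₀ hj']
        exact h'
      · intro h
        obtain ⟨i', j', h', hi', hj'⟩ := e.2 ⟨s i, s j, h, hs i, hs j⟩
        rw [← inj' G f hi', ← inj' G f hj']
        exact h'
    set σ : Equiv.Perm (Fin 5) := Equiv.ofBijective s
      ⟨hsi, Finite.surjective_of_injective hsi⟩ with hσ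
    have hσm : σ ∈ Aut5 := by
      refine Finset.mem_filter.2 ⟨Finset.mem_univ _, fun i j => ?_⟩
      have h := hadj i j
      rw [bowtie_adj, bowtie_adj] at h
      have h2 : BB (s i) (s j) = true ↔ BB i j = true := h.symm
      exact Bool.eq_iff_iff.2 h2
    refine ⟨σ, hσm, ?_⟩
    refine SimpleGraph.Copy.ext fun i => ?_
    rw [act_apply G f₀ σ hσm]
    exact hs i

theorem card_copies :
    (Finset.univ : Finset (SimpleGraph.Copy bowtie G)).card = 8 * tau G := by
  unfold tau
  rw [SimpleGraph.copyCount_eq_card_image_copyToSubgraph,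
    Finset.card_eq_sum_card_image (SimpleGraph.Copy.toSubgraph (A := bowtie) (B := G))]
  rw [Finset.sum_const_nat (m := 8), mul_comm]
  intro H hH
  obtain ⟨f₀, -, rfl⟩ := Finset.mem_image.1 hH
  exact fibre G f₀

/-- the condition on the five vertices -/
def PP (v a b c d : V) : Prop :=
  G.Adj v a ∧ G.Adj v b ∧ G.Adj a b ∧ G.Adj v c ∧ G.Adj v d ∧ G.Adj c d ∧
    a ≠ c ∧ a ≠ d ∧ b ≠ c ∧ b ≠ d

theorem term_eq (v a b c d : V) :
    (ad G v a * ad G v b * ad G a b) * (ad G v c * ad G v d * ad G c d) * dj a b c d =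
      if PP G v a b c d then 1 else 0 := by
  unfold ad dj PP
  by_cases h1 : G.Adj v a <;> by_cases h2 : G.Adj v b <;> by_cases h3 : G.Adj a b <;>
    by_cases h4 : G.Adj v c <;> by_cases h5 : G.Adj v d <;> by_cases h6 : G.Adj c d <;>
    simp only [h1, h2, h3, h4, h5, h6, if_true, if_false, true_and, false_and, mul_one, one_mul,
      mul_zero, zero_mul]

/-- the tuple of a copy -/
def tupOf (f : SimpleGraph.Copy bowtie G) : V × V × V × V × V := (f 0, f 1, f 2, f 3, f 4)

theorem card_tuples : ((Finset.univ : Finset (V × V × V × V × V)).filter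
      fun p => PP G p.1 p.2.1 p.2.2.1 p.2.2.2.1 p.2.2.2.2).card =
    (Finset.univ : Finset (SimpleGraph.Copy bowtie G)).card := by
  symm
  refine Finset.card_bij (fun f _ => tupOf G f) ?_ ?_ ?_
  · intro f _
    have hA : ∀ i j, BB i j = true → G.Adj (f i) (f j) := fun i j h =>
      f.toHom.map_adj ((bowtie_adj i j).2 h)
    have hN : ∀ i j, i ≠ j → f i ≠ f j := fun i j h h' => h (inj' G f h')
    refine Finset.mem_filter.2 ⟨Finset.mem_univ _, ?_⟩
    exact ⟨hA 0 1 rfl, hA 0 2 rfl, hA 1 2 rfl, hA 0 3 rfl, hA 0 4 rfl, hA 3 4 rfl,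
      hN 1 3 (by decide), hN 1 4 (by decide), hN 2 3 (by decide), hN 2 4 (by decide)⟩
  · intro f _ g _ h
    have h' : (f 0, f 1, f 2, f 3, f 4) = (g 0, g 1, g 2, g 3, g 4) := h
    simp only [Prod.mk.injEq] at h'
    obtain ⟨h0, h1, h2, h3, h4⟩ := h'
    refine SimpleGraph.Copy.ext fun i => ?_
    fin_cases i
    · exact h0
    · exact h1
    · exact h2
    · exact h3
    · exact h4
  · rintro ⟨v, a, b, c, d⟩ hp
    obtain ⟨h1, h2, h3, h4, h5, h6, n1, n2, n3, n4⟩ := (Finset.mem_filter.1 hp).2
    simp only at h1 h2 h3 h4 h5 h6 n1 n2 n3 n4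
    have hA : ∀ i j : Fin 5, bowtie.Adj i j → G.Adj (![v, a, b, c, d] i) (![v, a, b, c, d] j) := by
      intro i j h
      rw [bowtie_adj] at h
      fin_cases i <;> fin_cases j <;> first
        | exact absurd h (by decide)
        | exact h1
        | exact h2
        | exact h3
        | exact h4
        | exact h5
        | exact h6
        | exact h1.symm
        | exact h2.symm
        | exact h3.symm
        | exact h4.symm
        | exact h5.symm
        | exact h6.symm
    have hI : Function.Injective (![v, a, b, c, d] : Fin 5 → V) := by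
      intro i j h
      fin_cases i <;> fin_cases j <;> first
        | rfl
        | exact absurd h h1.ne
        | exact absurd h h2.ne
        | exact absurd h h3.ne
        | exact absurd h h4.ne
        | exact absurd h h5.ne
        | exact absurd h h6.ne
        | exact absurd h n1
        | exact absurd h n2
        | exact absurd h n3
        | exact absurd h n4
        | exact absurd h.symm h1.ne
        | exact absurd h.symm h2.ne
        | exact absurd h.symm h3.ne
        | exact absurd h.symm h4.ne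
        | exact absurd h.symm h5.ne
        | exact absurd h.symm h6.ne
        | exact absurd h.symm n1
        | exact absurd h.symm n2
        | exact absurd h.symm n3
        | exact absurd h.symm n4
    exact ⟨⟨⟨![v, a, b, c, d], fun {i j} h => hA i j h⟩, hI⟩, Finset.mem_univ _, rfl⟩

end TupCountAux

open TupCountAux in
theorem tup_eq : S_tup := by
  intro V _ G
  have h1 : tup G = (((Finset.univ : Finset (V × V × V × V × V)).filter
      fun p => PP G p.1 p.2.1 p.2.2.1 p.2.2.2.1 p.2.2.2.2).card : ℝ) := by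
    unfold tup
    simp only [term_eq]
    rw [Finset.card_filter]
    push_cast
    simp only [Fintype.sum_prod_type]
  rw [h1, card_tuples, card_copies]
  push_cast
  ring

end Pool.Agent.Bow
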