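import Pool.Agent.Bow.Stmts

/-!
Module E: labelled bowties of `K s t q`, and invariance of `tup` under isomorphism.
-/

set_option autoImplicit false

namespace Pool.Agent.Bow

open Finset
open scoped Classical

namespace TupKAux

variable {s t q : ℕ}

theorem K_ll (i j : Fin s) : (K s t q).Adj (Sum.inl i) (Sum.inl j) ↔
    ∃ k < q, (i.1 = 2 * k ∧ j.1 = 2 * k + 1) ∨ (j.1 = 2 * k ∧ i.1 = 2 * k + 1) := by
  unfold K
  rw [SimpleGraph.sup_adj, SimpleGraph.fromRel_adj]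
  constructor
  · rintro (h | ⟨-, ⟨a, b, ha, hb, k, hk, h1, h2⟩ | ⟨a, b, ha, hb, k, hk, h1, h2⟩⟩)
    · simp at h
    · have ha' := Sum.inl_injective ha
      have hb' := Sum.inl_injective hb
      subst ha' hb'
      exact ⟨k, hk, Or.inl ⟨h1, h2⟩⟩
    · have ha' := Sum.inl_injective ha
      have hb' := Sum.inl_injective hb
      subst ha' hb'
      exact ⟨k, hk, Or.inr ⟨h1, h2⟩⟩
  · rintro ⟨k, hk, ⟨h1, h2⟩ | ⟨h1, h2⟩⟩
    · refine Or.inr ⟨?_, Or.inl ⟨i, j, rfl, rfl, k, hk, h1, h2⟩⟩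
      intro h
      have := Sum.inl_injective h
      subst this
      omega
    · refine Or.inr ⟨?_, Or.inr ⟨j, i, rfl, rfl, k, hk, h1, h2⟩⟩
      intro h
      have := Sum.inl_injective h
      subst this
      omega

theorem K_lr (i : Fin s) (j : Fin t) : (K s t q).Adj (Sum.inl i) (Sum.inr j) := by
  unfold K
  rw [SimpleGraph.sup_adj]
  left
  simp

theorem K_rl (i : Fin s) (j : Fin t) : (K s t q).Adj (Sum.inr j) (Sum.inl i) := (K_lr i j).symm

theorem K_rr (i j : Fin t) : ¬ (K s t q).Adj (Sum.inr i) (Sum.inr j) := by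
  unfold K
  rw [SimpleGraph.sup_adj, SimpleGraph.fromRel_adj]
  rintro (h | ⟨-, ⟨a, b, ha, hb, k, hk, h1, h2⟩ | ⟨a, b, ha, hb, k, hk, h1, h2⟩⟩)
  · simp at h
  · cases ha
  · cases ha

theorem K_unique {i j j' : Fin s} (h : (K s t q).Adj (Sum.inl i) (Sum.inl j))
    (h' : (K s t q).Adj (Sum.inl i) (Sum.inl j')) : j = j' := by
  rw [K_ll] at h h'
  obtain ⟨k, -, h⟩ := h
  obtain ⟨k', -, h'⟩ := h'
  ext
  omega

/-- the ordered matching pairs -/
def ee (hq : 2 * q ≤ s) (x : Fin q × Bool) : Fin s × Fin s :=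
  if x.2 then (⟨2 * x.1.1, by omega⟩, ⟨2 * x.1.1 + 1, by omega⟩)
  else (⟨2 * x.1.1 + 1, by omega⟩, ⟨2 * x.1.1, by omega⟩)

theorem sum_match (hq : 2 * q ≤ s) (f : Fin s → Fin s → ℝ) :
    ∑ i, ∑ j, ad (K s t q) (Sum.inl i) (Sum.inl j) * f i j =
      ∑ k : Fin q, (f ⟨2 * k.1, by omega⟩ ⟨2 * k.1 + 1, by omega⟩ +
        f ⟨2 * k.1 + 1, by omega⟩ ⟨2 * k.1, by omega⟩) := by
  have h1 : ∑ i, ∑ j, ad (K s t q) (Sum.inl i) (Sum.inl j) * f i j =
      ∑ p ∈ (Finset.univ : Finset (Fin s × Fin s)).filter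
        (fun p => (K s t q).Adj (Sum.inl p.1) (Sum.inl p.2)), f p.1 p.2 := by
    rw [Finset.sum_filter, Fintype.sum_prod_type]
    refine Finset.sum_congr rfl fun i _ => Finset.sum_congr rfl fun j _ => ?_
    unfold ad
    split_ifs <;> simp
  have h2 : ∑ k : Fin q, (f ⟨2 * k.1, by omega⟩ ⟨2 * k.1 + 1, by omega⟩ +
        f ⟨2 * k.1 + 1, by omega⟩ ⟨2 * k.1, by omega⟩) =
      ∑ x : Fin q × Bool, f (ee hq x).1 (ee hq x).2 := by
    rw [Fintype.sum_prod_type]
    refine Finset.sum_congr rfl fun k _ => ?_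
    rw [Fintype.sum_bool]
    rfl
  rw [h1, h2]
  symm
  refine Finset.sum_bij (fun x _ => ee hq x) ?_ ?_ ?_ ?_
  · rintro ⟨k, b⟩ _
    refine Finset.mem_filter.2 ⟨Finset.mem_univ _, ?_⟩
    rw [K_ll]
    refine ⟨k.1, k.2, ?_⟩
    cases b
    · right; exact ⟨rfl, rfl⟩
    · left; exact ⟨rfl, rfl⟩
  · rintro ⟨k, b⟩ _ ⟨k', b'⟩ _ h
    have h1 := congrArg (fun p : Fin s × Fin s => p.1.1) h
    have h2 := congrArg (fun p : Fin s × Fin s => p.2.1) h
    cases b <;> cases b' <;> simp [ee] at h1 h2 <;> first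
      | (exfalso; omega)
      | (have : k = k' := by ext; omega
         rw [this])
  · rintro ⟨i, j⟩ hp
    have h := (Finset.mem_filter.1 hp).2
    rw [K_ll] at h
    obtain ⟨k, hk, ⟨h1, h2⟩ | ⟨h1, h2⟩⟩ := h
    · refine ⟨(⟨k, hk⟩, true), Finset.mem_univ _, ?_⟩
      refine Prod.ext (Fin.ext ?_) (Fin.ext ?_)
      · exact h1.symm
      · exact h2.symm
    · refine ⟨(⟨k, hk⟩, false), Finset.mem_univ _, ?_⟩
      refine Prod.ext (Fin.ext ?_) (Fin.ext ?_)
      · exact h2.symm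
      · exact h1.symm
  · intro x _
    rfl

theorem ad_rr (i j : Fin t) : ad (K s t q) (Sum.inr i) (Sum.inr j) = 0 := by
  unfold ad
  rw [if_neg (K_rr i j)]

theorem ad_rl (i : Fin t) (j : Fin s) : ad (K s t q) (Sum.inr i) (Sum.inl j) = 1 := by
  unfold ad
  rw [if_pos (K_rl j i)]

/-- the sum at a vertex of the second part -/
theorem sum_inr (hq : 2 * q ≤ s) (x : Fin t) :
    (∑ a, ∑ b, ∑ c, ∑ d,
      (ad (K s t q) (Sum.inr x) a * ad (K s t q) (Sum.inr x) b * ad (K s t q) a b) *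
      (ad (K s t q) (Sum.inr x) c * ad (K s t q) (Sum.inr x) d * ad (K s t q) c d) *
        dj a b c d) = 4 * (q : ℝ) * (q - 1) := by
  simp only [Fintype.sum_sum_type, ad_rr, ad_rl, zero_mul, mul_zero, one_mul, mul_one,
    Finset.sum_const_zero, add_zero, zero_add]
  have h1 : ∀ i j : Fin s, (∑ k : Fin s, ∑ l : Fin s,
      ad (K s t q) (Sum.inl i) (Sum.inl j) * ad (K s t q) (Sum.inl k) (Sum.inl l) *
        dj (Sum.inl i : Fin s ⊕ Fin t) (Sum.inl j) (Sum.inl k) (Sum.inl l)) =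
      ad (K s t q) (Sum.inl i) (Sum.inl j) * ∑ k : Fin s, ∑ l : Fin s,
        ad (K s t q) (Sum.inl k) (Sum.inl l) *
          dj (Sum.inl i : Fin s ⊕ Fin t) (Sum.inl j) (Sum.inl k) (Sum.inl l) := by
    intro i j
    rw [Finset.mul_sum]
    refine Finset.sum_congr rfl fun k _ => ?_
    rw [Finset.mul_sum]
    refine Finset.sum_congr rfl fun l _ => ?_
    ring
  simp only [h1]
  rw [sum_match hq]
  simp only [sum_match hq]
  have h2 : ∀ k k' : Fin q,
      (dj (Sum.inl ⟨2 * k.1, by omega⟩ : Fin s ⊕ Fin t) (Sum.inl ⟨2 * k.1 + 1, by omega⟩)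
          (Sum.inl ⟨2 * k'.1, by omega⟩) (Sum.inl ⟨2 * k'.1 + 1, by omega⟩) +
        dj (Sum.inl ⟨2 * k.1, by omega⟩ : Fin s ⊕ Fin t) (Sum.inl ⟨2 * k.1 + 1, by omega⟩)
          (Sum.inl ⟨2 * k'.1 + 1, by omega⟩) (Sum.inl ⟨2 * k'.1, by omega⟩)) =
      if k = k' then 0 else 2 := by
    intro k k'
    by_cases hk : k = k'
    · subst hk
      rw [dj, dj, if_neg (by simp), if_neg (by simp), if_pos rfl]
      norm_num
    · have hk' : k.1 ≠ k'.1 := fun h => hk (Fin.ext h)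
      rw [dj, dj, if_pos, if_pos, if_neg hk]
      · norm_num
      · simp only [ne_eq, Sum.inl.injEq, Fin.mk.injEq]
        omega
      · simp only [ne_eq, Sum.inl.injEq, Fin.mk.injEq]
        omega
  have h3 : ∀ k k' : Fin q,
      (dj (Sum.inl ⟨2 * k.1 + 1, by omega⟩ : Fin s ⊕ Fin t) (Sum.inl ⟨2 * k.1, by omega⟩)
          (Sum.inl ⟨2 * k'.1, by omega⟩) (Sum.inl ⟨2 * k'.1 + 1, by omega⟩) +
        dj (Sum.inl ⟨2 * k.1 + 1, by omega⟩ : Fin s ⊕ Fin t) (Sum.inl ⟨2 * k.1, by omega⟩)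
          (Sum.inl ⟨2 * k'.1 + 1, by omega⟩) (Sum.inl ⟨2 * k'.1, by omega⟩)) =
      if k = k' then 0 else 2 := by
    intro k k'
    by_cases hk : k = k'
    · subst hk
      rw [dj, dj, if_neg (by simp), if_neg (by simp), if_pos rfl]
      norm_num
    · have hk' : k.1 ≠ k'.1 := fun h => hk (Fin.ext h)
      rw [dj, dj, if_pos, if_pos, if_neg hk]
      · norm_num
      · simp only [ne_eq, Sum.inl.injEq, Fin.mk.injEq]
        omega
      · simp only [ne_eq, Sum.inl.injEq, Fin.mk.injEq]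
        omega
  simp only [h2, h3]
  have h4 : ∀ k : Fin q, ∑ k' : Fin q, (if k = k' then (0 : ℝ) else 2) = 2 * (q - 1) := by
    intro k
    have h5 : ∀ k' : Fin q, (if k = k' then (0 : ℝ) else 2) = 2 - if k = k' then 2 else 0 := by
      intro k'
      split_ifs <;> norm_num
    simp only [h5]
    rw [Finset.sum_sub_distrib, Finset.sum_ite_eq]
    simp
    ring
  simp only [h4]
  simp
  ring

/-- no bowtie has its centre in the first part -/
theorem sum_inl (i : Fin s) (a b c d : Fin s ⊕ Fin t) :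
      (ad (K s t q) (Sum.inl i) a * ad (K s t q) (Sum.inl i) b * ad (K s t q) a b) *
      (ad (K s t q) (Sum.inl i) c * ad (K s t q) (Sum.inl i) d * ad (K s t q) c d) *
        dj a b c d = 0 := by
  -- a triangle at `i` contains the partner
  have key : ∀ a b : Fin s ⊕ Fin t, (K s t q).Adj (Sum.inl i) a → (K s t q).Adj (Sum.inl i) b →
      (K s t q).Adj a b → ∃ j : Fin s, (K s t q).Adj (Sum.inl i) (Sum.inl j) ∧
        (a = Sum.inl j ∨ b = Sum.inl j) := by
    intro a b h1 h2 h3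
    rcases a with a | a
    · exact ⟨a, h1, Or.inl rfl⟩
    · rcases b with b | b
      · exact ⟨b, h2, Or.inr rfl⟩
      · exact absurd h3 (K_rr a b)
  by_cases h1 : (K s t q).Adj (Sum.inl i) a
  swap; · simp [ad, h1]
  by_cases h2 : (K s t q).Adj (Sum.inl i) b
  swap; · simp [ad, h2]
  by_cases h3 : (K s t q).Adj a b
  swap; · simp [ad, h3]
  by_cases h4 : (K s t q).Adj (Sum.inl i) c
  swap; · simp [ad, h4]
  by_cases h5 : (K s t q).Adj (Sum.inl i) d
  swap; · simp [ad, h5]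
  by_cases h6 : (K s t q).Adj c d
  swap; · simp [ad, h6]
  obtain ⟨j, hj, hj2⟩ := key a b h1 h2 h3
  obtain ⟨j', hj', hj2'⟩ := key c d h4 h5 h6
  have hjj := K_unique hj hj'
  subst hjj
  have : dj a b c d = 0 := by
    unfold dj
    rw [if_neg]
    rintro ⟨n1, n2, n3, n4⟩
    rcases hj2 with rfl | rfl <;> rcases hj2' with rfl | rfl <;> contradiction
  rw [this, mul_zero]

end TupKAux

open TupKAux in
theorem tupK : S_tupK := by
  intro s t q hq
  unfold tup
  rw [Fintype.sum_sum_type]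
  have h1 : (∑ i : Fin s, ∑ a, ∑ b, ∑ c, ∑ d,
      (ad (K s t q) (Sum.inl i) a * ad (K s t q) (Sum.inl i) b * ad (K s t q) a b) *
      (ad (K s t q) (Sum.inl i) c * ad (K s t q) (Sum.inl i) d * ad (K s t q) c d) *
        dj a b c d) = 0 := by
    simp only [sum_inl, Finset.sum_const_zero]
  rw [h1, zero_add]
  simp only [sum_inr hq]
  simp
  ring

theorem tupIso : S_tupIso := by
  intro V W _ _ G H ⟨e⟩
  have had : ∀ u v, ad H (e u) (e v) = ad G u v := by
    intro u v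
    unfold ad
    simp only [e.map_adj_iff]
  have hdj : ∀ a b c d, dj (e a) (e b) (e c) (e d) = dj a b c d := by
    intro a b c d
    unfold dj
    simp only [ne_eq, e.injective.eq_iff]
  unfold tup
  refine Fintype.sum_equiv e.toEquiv _ _ fun v => ?_
  refine Fintype.sum_equiv e.toEquiv _ _ fun a => ?_
  refine Fintype.sum_equiv e.toEquiv _ _ fun b => ?_
  refine Fintype.sum_equiv e.toEquiv _ _ fun c => ?_
  refine Fintype.sum_equiv e.toEquiv _ _ fun d => ?_
  show _ = ad H (e v) (e a) * ad H (e v) (e b) * ad H (e a) (e b) *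
    (ad H (e v) (e c) * ad H (e v) (e d) * ad H (e c) (e d)) * dj (e a) (e b) (e c) (e d)
  simp only [had, hdj]

end Pool.Agent.Bow
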