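import Pool.Agent.Bow.Trace

/-!
Module F of MP_b63b1f_co: many triangles give many labelled bowties.
-/

namespace Pool.Agent.Bow

open Finset
open scoped Classical

theorem ad_nonneg' {V : Type*} [Fintype V] (G : SimpleGraph V) (u v : V) : 0 ≤ ad G u v := by
  unfold ad
  split_ifs <;> norm_num

theorem ad_le_one' {V : Type*} [Fintype V] (G : SimpleGraph V) (u v : V) : ad G u v ≤ 1 := by
  unfold ad
  split_ifs <;> norm_num

/-- A quadruple inequality: pairs meeting a given pair are few. -/
theorem dj_sum_lower {V : Type*} [Fintype V] (T : V → V → ℝ) (h0 : ∀ a b, 0 ≤ T a b)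
    (h1 : ∀ a b, T a b ≤ 1) (a b : V) :
    (∑ c, ∑ d, T c d) - 4 * (Fintype.card V : ℝ) ≤ ∑ c, ∑ d, T c d * dj a b c d := by
  have hrow : ∀ a, ∑ d, T a d ≤ (Fintype.card V : ℝ) := by
    intro a
    calc ∑ d, T a d ≤ ∑ _d : V, (1 : ℝ) := Finset.sum_le_sum fun d _ => h1 a d
      _ = (Fintype.card V : ℝ) := by simp
  have hcol : ∀ a, ∑ c, T c a ≤ (Fintype.card V : ℝ) := by
    intro a
    calc ∑ c, T c a ≤ ∑ _c : V, (1 : ℝ) := Finset.sum_le_sum fun c _ => h1 c a
      _ = (Fintype.card V : ℝ) := by simp
  have hpt : ∀ c d, T c d - (if c = a then T c d else 0) - (if d = a then T c d else 0)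
      - (if c = b then T c d else 0) - (if d = b then T c d else 0) ≤ T c d * dj a b c d := by
    intro c d
    have := h0 c d
    unfold dj
    by_cases hac : c = a
    · subst hac
      simp only [ne_eq, not_true_eq_false, false_and, if_false, mul_zero, if_true]
      split_ifs <;> linarith
    by_cases had : d = a
    · subst had
      simp only [ne_eq, not_true_eq_false, false_and, and_false, if_false, mul_zero, if_true]
      split_ifs <;> linarith
    by_cases hbc : c = b
    · subst hbc
      simp only [ne_eq, not_true_eq_false, false_and, and_false, if_false, mul_zero, if_true]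
      split_ifs <;> linarith
    by_cases hbd : d = b
    · subst hbd
      simp only [ne_eq, not_true_eq_false, and_false, if_false, mul_zero, if_true]
      split_ifs <;> linarith
    have e : (a ≠ c ∧ a ≠ d ∧ b ≠ c ∧ b ≠ d) :=
      ⟨fun h => hac h.symm, fun h => had h.symm, fun h => hbc h.symm, fun h => hbd h.symm⟩
    rw [if_pos e, if_neg hac, if_neg had, if_neg hbc, if_neg hbd]
    linarith
  have hs1 : ∀ e, ∑ c, ∑ d, (if c = e then T c d else 0) = ∑ d, T e d := by
    intro e
    rw [Finset.sum_comm]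
    refine Finset.sum_congr rfl fun d _ => ?_
    rw [Finset.sum_ite_eq' Finset.univ e (fun c => T c d)]
    simp
  have hs2 : ∀ e, ∑ c, ∑ d, (if d = e then T c d else 0) = ∑ c, T c e := by
    intro e
    refine Finset.sum_congr rfl fun c _ => ?_
    rw [Finset.sum_ite_eq' Finset.univ e (fun d => T c d)]
    simp
  calc (∑ c, ∑ d, T c d) - 4 * (Fintype.card V : ℝ)
      ≤ (∑ c, ∑ d, T c d) - (∑ d, T a d) - (∑ c, T c a) - (∑ d, T b d) - (∑ c, T c b) := by
        have := hrow a
        have := hrow b
        have := hcol a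
        have := hcol b
        linarith
    _ = ∑ c, ∑ d, (T c d - (if c = a then T c d else 0) - (if d = a then T c d else 0)
        - (if c = b then T c d else 0) - (if d = b then T c d else 0)) := by
        simp only [Finset.sum_sub_distrib]
        rw [hs1 a, hs1 b, hs2 a, hs2 b]
    _ ≤ _ := Finset.sum_le_sum fun c _ => Finset.sum_le_sum fun d _ => hpt c d

theorem tup_ge_triangles : S_tupX := by
  intro V _ G
  set t : V → ℝ := fun v => ∑ a, ∑ b, ad G v a * ad G v b * ad G a b with ht
  have hX : XX G = ∑ v, t v := by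
    unfold XX
    refine Finset.sum_congr rfl fun v _ => Finset.sum_congr rfl fun a _ =>
      Finset.sum_congr rfl fun b _ => by ring
  have hT0 : ∀ v a b, 0 ≤ ad G v a * ad G v b * ad G a b := fun v a b =>
    mul_nonneg (mul_nonneg (ad_nonneg' _ _ _) (ad_nonneg' _ _ _)) (ad_nonneg' _ _ _)
  have hT1 : ∀ v a b, ad G v a * ad G v b * ad G a b ≤ 1 := fun v a b => by
    have h1 := ad_le_one' G v a
    have h2 := ad_le_one' G v b
    have h3 := ad_le_one' G a b
    have h4 : ad G v a * ad G v b ≤ 1 := mul_le_one₀ h1 (ad_nonneg' _ _ _) h2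
    exact mul_le_one₀ h4 (ad_nonneg' _ _ _) h3
  have hv : ∀ v, t v ^ 2 - 4 * (Fintype.card V : ℝ) * t v ≤
      ∑ a, ∑ b, ∑ c, ∑ d,
    (ad G v a * ad G v b * ad G a b) * (ad G v c * ad G v d * ad G c d) * dj a b c d := by
    intro v
    have e1 : t v ^ 2 - 4 * (Fintype.card V : ℝ) * t v
        = ∑ a, ∑ b, (ad G v a * ad G v b * ad G a b) *
          ((∑ c, ∑ d, ad G v c * ad G v d * ad G c d) - 4 * (Fintype.card V : ℝ)) := by
      have : t v ^ 2 - 4 * (Fintype.card V : ℝ) * t v
        = t v * (t v - 4 * (Fintype.card V : ℝ)) := by ring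
      rw [this]
      conv_lhs => rw [ht]
      simp only [Finset.sum_mul]
    rw [e1]
    refine Finset.sum_le_sum fun a _ => Finset.sum_le_sum fun b _ => ?_
    have e2 : ∑ c, ∑ d,
        (ad G v a * ad G v b * ad G a b) * (ad G v c * ad G v d * ad G c d) * dj a b c d
        = (ad G v a * ad G v b * ad G a b) * ∑ c, ∑ d,
          (ad G v c * ad G v d * ad G c d) * dj a b c d := by
      rw [Finset.mul_sum]
      refine Finset.sum_congr rfl fun c _ => ?_
      rw [Finset.mul_sum]
      exact Finset.sum_congr rfl fun d _ => by ring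
    rw [e2]
    exact mul_le_mul_of_nonneg_left
      (dj_sum_lower (fun c d => ad G v c * ad G v d * ad G c d) (hT0 v) (hT1 v) a b) (hT0 v a b)
  have hsum : ∑ v, t v ^ 2 - 4 * (Fintype.card V : ℝ) * ∑ v, t v ≤ tup G := by
    unfold tup
    rw [Finset.mul_sum, ← Finset.sum_sub_distrib]
    exact Finset.sum_le_sum fun v _ => hv v
  have hcs : (∑ v, t v) ^ 2 ≤ (Fintype.card V : ℝ) * ∑ v, t v ^ 2 := by
    have := sq_sum_le_card_mul_sum_sq (s := (Finset.univ : Finset V)) (f := t)
    simpa using this
  rw [hX]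
  have hN : (0 : ℝ) ≤ (Fintype.card V : ℝ) := Nat.cast_nonneg _
  nlinarith [mul_le_mul_of_nonneg_left hsum hN]

end Pool.Agent.Bow
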